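import Pool.Agent.Lib.MP_ff2384_gt.Sd

set_option autoImplicit false

open Filter Topology

noncomputable section

namespace Pool.Agent.ZM

section
variable {Λ X : Type} [Group Λ] [MulAction Λ X]

theorem actx_apply (a : Λ) (u : X → S3) (x : X) : actX Λ X a u x = u (a⁻¹ • x) := rfl

theorem actX_continuous (a : Λ) : Continuous (actX Λ X a) :=
  continuous_pi fun x => continuous_apply (a⁻¹ • x)

theorem actX_loc (O : Set (X → S3)) (hO : O ∈ 𝓝 (1 : X → S3)) : ∃ T : Finset X, ∀ a : Λ,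
    (∀ x ∈ T, a • x = x) → ∀ u, actX Λ X a u * u⁻¹ ∈ O := by
  rw [nhds_pi, Filter.mem_pi] at hO
  obtain ⟨I, hI, t, ht, hO⟩ := hO
  refine ⟨hI.toFinset, fun a ha u => hO fun x hx => ?_⟩
  have h1 : a⁻¹ • x = x := by
    rw [inv_smul_eq_iff]
    exact (ha x (hI.mem_toFinset.2 hx)).symm
  have h2 : (actX Λ X a u * u⁻¹) x = 1 := by
    rw [Pi.mul_apply, actx_apply, h1, Pi.inv_apply, mul_inv_cancel]
  rw [h2]
  exact mem_of_mem_nhds (ht x)

theorem actx_s3 : ∃ τ : S3, τ ≠ 1 := by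
  refine ⟨(Equiv.swap 0 1 : Equiv.Perm (Fin 3)), ?_⟩
  change (Equiv.swap 0 1 : Equiv.Perm (Fin 3)) ≠ 1
  decide

theorem actX_stab {C : Type} [CommGroup C] [TopologicalSpace C] (ψ : Λ →* MulAut C) (x : X) :
    ∃ v ∈ (SemidirectProduct.rightHom : ((X → S3) × C) ⋊[prodAct (actX Λ X) ψ] Λ →* Λ).ker,
      ∃ O : Set (((X → S3) × C) ⋊[prodAct (actX Λ X) ψ] Λ), IsOpen O ∧ v ∈ O ∧
        ∀ y, y * v * y⁻¹ ∈ O → SemidirectProduct.rightHom y ∈ MulAction.stabilizer Λ x := by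
  classical
  obtain ⟨τ, hτ⟩ := actx_s3
  refine ⟨⟨(Pi.mulSingle x τ, 1), 1⟩, rfl, {z | z.left.1 x ≠ 1}, ?_, ?_, ?_⟩
  · have h1 : Continuous fun z : ((X → S3) × C) ⋊[prodAct (actX Λ X) ψ] Λ => z.left.1 x :=
      (continuous_apply x).comp (continuous_fst.comp (sd_left _))
    exact (isOpen_discrete {g : S3 | g ≠ 1}).preimage h1
  · change (Pi.mulSingle x τ : X → S3) x ≠ 1
    rw [Pi.mulSingle_eq_same]
    exact hτ
  · intro y hy
    have h1 : (y * ⟨(Pi.mulSingle x τ, 1), 1⟩ * y⁻¹).left.1 x ≠ 1 := hy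
    rw [SemidirectProduct.mul_left, SemidirectProduct.mul_left, SemidirectProduct.inv_left,
      SemidirectProduct.mul_right, mul_one] at h1
    have h2 : (prodAct (actX Λ X) ψ y.right) ((prodAct (actX Λ X) ψ y.right⁻¹) y.left⁻¹) =
        y.left⁻¹ := by
      rw [← MulAut.mul_apply, ← map_mul, mul_inv_cancel, map_one, MulAut.one_apply]
    rw [h2] at h1
    have h3 : (y.left * (prodAct (actX Λ X) ψ y.right) (Pi.mulSingle x τ, 1) * y.left⁻¹).1 x =
        y.left.1 x * (Pi.mulSingle x τ : X → S3) (y.right⁻¹ • x) * (y.left.1 x)⁻¹ := rfl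
    rw [h3] at h1
    rw [MulAction.mem_stabilizer_iff, SemidirectProduct.rightHom_eq_right]
    by_contra hc
    apply h1
    rw [Pi.mulSingle_eq_of_ne, mul_one, mul_inv_cancel]
    intro h4
    apply hc
    rw [inv_smul_eq_iff] at h4
    exact h4.symm

end

end Pool.Agent.ZM
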