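import Mathlib

/-!
# MP_ff2384_gt: minimal and z-minimal topological groups
-/

set_option autoImplicit false

open Topology

namespace Pool.Agent.ZM

/-- `G` is a Hausdorff topological group with no strictly coarser Hausdorff group topology. -/
def IsMin (G : Type) [Group G] [τ : TopologicalSpace G] : Prop :=
  @IsTopologicalGroup G τ _ ∧ @T2Space G τ ∧
    ∀ σ : TopologicalSpace G, @IsTopologicalGroup G σ _ → @T2Space G σ →
      (∀ s : Set G, IsOpen[σ] s → IsOpen[τ] s) → ∀ s : Set G, IsOpen[τ] s → IsOpen[σ] s

/-- `G` and `G / Z(G)` are minimal. -/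
def IsZMin (G : Type) [Group G] [TopologicalSpace G] : Prop :=
  IsMin G ∧ IsMin (G ⧸ Subgroup.center G)

end Pool.Agent.ZM
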