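import Pool.Agent.Lib.MP_ff2384_gt.Defs

set_option autoImplicit false

open Filter Topology

noncomputable section

namespace Pool.Agent.ZM

theorem center_S3 (t : S3) (h : ∀ s : S3, s * t = t * s) : t = 1 := by
  revert t
  change ∀ t : Equiv.Perm (Fin 3), (∀ s : Equiv.Perm (Fin 3), s * t = t * s) → t = 1
  decide

section
variable {Λ X : Type} [Group Λ] [MulAction Λ X]

theorem mem_center_sd {C : Type} [CommGroup C] (ψ : Λ →* MulAut C)
    (hψ : ∀ a, (∀ q, ψ a q = q) → a = 1)
    (y : ((X → S3) × C) ⋊[prodAct (actX Λ X) ψ] Λ) :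
    y ∈ Subgroup.center (((X → S3) × C) ⋊[prodAct (actX Λ X) ψ] Λ) ↔
      y.right = 1 ∧ y.left.1 = 1 ∧ ∀ a, ψ a y.left.2 = y.left.2 := by
  rw [Subgroup.mem_center_iff]
  constructor
  · intro h
    have h1 : y.right = 1 := by
      refine hψ _ fun q => ?_
      have hq := congrArg (fun z => z.left.2) (h ⟨(1, q), 1⟩)
      simp only [SemidirectProduct.mul_left, map_one, MulAut.one_apply, Prod.snd_mul] at hq
      change q * y.left.2 = y.left.2 * ψ y.right q at hq
      rw [mul_comm] at hq
      exact (mul_left_cancel hq).symm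
    refine ⟨h1, ?_, fun a => ?_⟩
    · ext x : 1
      refine center_S3 _ fun s => ?_
      have hq := congrArg (fun z => z.left.1 x) (h ⟨(fun _ => s, 1), 1⟩)
      simp only [SemidirectProduct.mul_left, map_one, MulAut.one_apply, Prod.fst_mul,
        Pi.mul_apply, h1] at hq
      exact hq
    · have hq := congrArg (fun z => z.left.2) (h ⟨1, a⟩)
      simp only [SemidirectProduct.mul_left, map_one, one_mul, mul_one] at hq
      exact hq
  · rintro ⟨h1, h2, h3⟩ g
    refine SemidirectProduct.ext ?_ ?_
    · refine Prod.ext ?_ ?_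
      · have e1 : (g * y).left.1 = g.left.1 * actX Λ X g.right y.left.1 := rfl
        have e2 : (y * g).left.1 = y.left.1 * actX Λ X y.right g.left.1 := rfl
        rw [e1, e2, h2, h1, map_one, map_one, MulAut.one_apply, one_mul, mul_one]
      · have e1 : (g * y).left.2 = g.left.2 * ψ g.right y.left.2 := rfl
        have e2 : (y * g).left.2 = y.left.2 * ψ y.right g.left.2 := rfl
        rw [e1, e2, h3, h1, map_one, MulAut.one_apply, mul_comm]
    · rw [SemidirectProduct.mul_right, SemidirectProduct.mul_right, h1, one_mul, mul_one]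

end

end Pool.Agent.ZM
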