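import Pool.Agent.Lib.MP_ff2384_gt.Far

set_option autoImplicit false

open Filter Topology

noncomputable section

namespace Pool.Agent.ZM

section
variable {W : Type} {k : ℕ} (β : Form (ℕ → Mk W k) (TEdge W k))

theorem comm_bil_zero (v w : TEdge W k →₀ ZMod 2)
    (h : ∀ e ∈ v.support, ∀ e' ∈ w.support, β.b e e' = 0) : bil β.b v w = 0 := by
  unfold bil Finsupp.sum
  refine Finset.sum_eq_zero fun e he => Finset.sum_eq_zero fun e' he' => ?_
  change v e * w e' * β.b e e' = 0
  rw [h e he e' he', mul_zero]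

theorem comm_tr_eq (g : ℕ → Mk W k) (v : TEdge W k →₀ ZMod 2)
    (h : ∀ e ∈ v.support, g e.lev = 1) : tr g v = v := by
  unfold tr
  have h1 : Finsupp.mapDomain (fun e => g • e) v = Finsupp.mapDomain id v := by
    refine Finsupp.mapDomain_congr fun e he => ?_
    exact TEdge.ext rfl (by rw [smul_h, h e he, one_mul]; rfl) rfl
  rw [h1, Finsupp.mapDomain_id]

theorem phi_comm [LinearOrder W] (hβ : LevForm β) (b : Heis β) (hb : b ∈ Lam β) :
    ∃ n, ∀ α : W, ∀ u ∈ FT n α, Commute b (Phi β u) := by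
  have hb' : {m | b.g m ≠ 1}.Finite := hb
  obtain ⟨N, hN⟩ := hb'.bddAbove
  refine ⟨max (N + 1) (b.v.support.sup TEdge.lev + 1), fun α u hu => ?_⟩
  obtain ⟨h1, h2, -⟩ := far β _ α u hu
  have hbg : ∀ m, N + 1 ≤ m → b.g m = 1 := by
    intro m hm
    by_contra hc
    have := hN hc
    omega
  have hbe : ∀ e ∈ b.v.support, e.lev ≤ b.v.support.sup TEdge.lev := fun e he =>
    Finset.le_sup (f := TEdge.lev) he
  have h3 : tr b.g (Phi β u).v = (Phi β u).v := by
    refine comm_tr_eq _ _ fun e he => hbg _ ?_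
    exact (le_max_left _ _).trans (h1 e he).1
  have h4 : tr (Phi β u).g b.v = b.v := by
    refine comm_tr_eq _ _ fun e he => h2 _ ?_
    exact lt_of_lt_of_le (Nat.lt_succ_of_le (hbe e he)) (le_max_right _ _)
  have hne : ∀ e ∈ b.v.support, ∀ e' ∈ (Phi β u).v.support, e.lev ≠ e'.lev := by
    intro e he e' he' h
    have h5 := hbe e he
    have h6 := (le_max_right _ _).trans (h1 e' he').1
    omega
  have h5 : bil β.b b.v (Phi β u).v = 0 :=
    comm_bil_zero β _ _ fun e he e' he' => hβ e e' (hne e he e' he')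
  have h6 : bil β.b (Phi β u).v b.v = 0 :=
    comm_bil_zero β _ _ fun e he e' he' => hβ e e' (hne e' he' e he).symm
  change b * Phi β u = Phi β u * b
  refine Heis.ext ?_ ?_ ?_
  · rw [Heis.mul_v, Heis.mul_v, h3, h4, add_comm]
  · rw [Heis.mul_s, Heis.mul_s, h3, h4, h5, h6, add_comm b.s]
  · funext m
    rw [Heis.mul_g, Heis.mul_g, Pi.mul_apply, Pi.mul_apply]
    rcases lt_or_ge m (N + 1) with h | h
    · rw [h2 m (h.trans_le (le_max_left _ _)), mul_one, one_mul]
    · rw [hbg m h, mul_one, one_mul]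

theorem phi_mem_Lam (w : FreeGroup (ℕ × W)) : Phi β w ∈ Lam β := by
  have hof : ∀ y : ℕ × W, Phi β (FreeGroup.of y) ∈ Lam β := by
    intro y
    unfold Phi
    rw [FreeGroup.lift_apply_of]
    refine (Set.finite_singleton y.1).subset fun m hm => ?_
    by_contra hc
    exact hm (Pi.mulSingle_eq_of_ne hc _)
  induction w using FreeGroup.induction_on with
  | C1 =>
    rw [map_one]
    exact one_mem _
  | of x => exact hof x
  | inv_of x _ =>
    rw [map_inv]
    exact inv_mem (hof x)
  | mul x y hx hy =>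
    rw [map_mul]
    exact mul_mem hx hy

end

end Pool.Agent.ZM
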