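import Pool.Agent.Lib.MP_ff2384_gt.Base

/-!
# MP_ff2384_gt: products of locally compact z-minimal groups, definitions

The counterexample: groups `Λ k` (`k : ℕ`), images of one free group, and
`G k = (S₃^X × C) ⋊ Λ k`.
-/

set_option autoImplicit false

open Filter Topology

noncomputable section

namespace Pool.Agent.ZM

/-! ## The strong colouring -/

section
variable {W : Type} [LinearOrder W]

/-- A chain of functions, strictly increasing modulo finite sets, that is unbounded. -/
structure Scale (W : Type) [LinearOrder W] where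
  f : W → ℕ → ℕ
  mono : ∀ α, StrictMono (f α)
  lt : ∀ α β, α < β → ∀ᶠ n in atTop, f α n < f β n
  unb : ∀ g : ℕ → ℕ, ∃ α, ¬ ∀ᶠ n in atTop, f α n ≤ g n

/-- Every colour is the colour of all pairs between two members of any family of finite sets that
goes to infinity. -/
def Strong (c : W → W → ℕ) : Prop :=
  ∀ A : Set (Finset W), (∀ α, ∃ a ∈ A, ∀ x ∈ a, α < x) → ∀ N : ℕ,
    ∃ a ∈ A, ∃ b ∈ A, ∀ x ∈ a, ∀ y ∈ b, x < y ∧ c x y = N

/-- Countable sets are bounded. -/
def CofCount (W : Type) [LinearOrder W] : Prop := ∀ α : ℕ → W, ∃ β, ∀ n, α n < β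

end

/-- The number of times that `x` is overtaken by `y`. -/
def osc (x y : ℕ → ℕ) : ℕ := Set.ncard {n | y n < x n ∧ x (n + 1) ≤ y (n + 1)}

/-- The colour of a pair of functions. -/
def col (x y : ℕ → ℕ) : ℕ := (Nat.unpair (Nat.log 2 (osc x y))).1

/-! ## Heisenberg type groups -/

section
variable {M E : Type} [Group M] [MulAction M E]

/-- Translation of a chain. -/
def tr (g : M) (v : E →₀ ZMod 2) : E →₀ ZMod 2 := v.mapDomain (g • ·)

/-- The bilinear form with matrix `b`. -/
def bil (b : E → E → ZMod 2) (v w : E →₀ ZMod 2) : ZMod 2 :=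
  v.sum fun e x => w.sum fun e' y => x * y * b e e'

theorem tr_one (v : E →₀ ZMod 2) : tr (1 : M) v = v := by
  unfold tr
  simp only [one_smul]
  exact Finsupp.mapDomain_id

theorem tr_mul (g h : M) (v : E →₀ ZMod 2) : tr (g * h) v = tr g (tr h v) := by
  unfold tr
  rw [← Finsupp.mapDomain_comp]
  congr 1
  ext e
  simp [mul_smul]

theorem tr_add (g : M) (v w : E →₀ ZMod 2) : tr g (v + w) = tr g v + tr g w :=
  Finsupp.mapDomain_add

theorem tr_zero (g : M) : tr g (0 : E →₀ ZMod 2) = 0 := Finsupp.mapDomain_zero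

theorem tr_single (g : M) (e : E) (x : ZMod 2) :
    tr g (Finsupp.single e x) = Finsupp.single (g • e) x := Finsupp.mapDomain_single

theorem tr_apply (g : M) (v : E →₀ ZMod 2) (e : E) : tr g v e = v (g⁻¹ • e) := by
  unfold tr
  have h := Finsupp.mapDomain_apply (f := fun x : E => g • x) (MulAction.injective g) v (g⁻¹ • e)
  simpa using h

theorem bil_add_left (b : E → E → ZMod 2) (v v' w : E →₀ ZMod 2) :
    bil b (v + v') w = bil b v w + bil b v' w := by
  unfold bil
  refine Finsupp.sum_add_index' (fun e => ?_) fun e x y => ?_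
  · simp [Finsupp.sum]
  · rw [← Finsupp.sum_add]
    exact Finsupp.sum_congr fun e' _ => by ring

theorem bil_add_right (b : E → E → ZMod 2) (v w w' : E →₀ ZMod 2) :
    bil b v (w + w') = bil b v w + bil b v w' := by
  unfold bil
  rw [← Finsupp.sum_add]
  refine Finsupp.sum_congr fun e _ => ?_
  refine Finsupp.sum_add_index' (fun e' => ?_) fun e' x y => ?_
  · simp
  · ring

theorem bil_zero_left (b : E → E → ZMod 2) (w : E →₀ ZMod 2) : bil b 0 w = 0 := by
  unfold bil
  exact Finsupp.sum_zero_index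

theorem bil_zero_right (b : E → E → ZMod 2) (v : E →₀ ZMod 2) : bil b v 0 = 0 := by
  unfold bil
  simp [Finsupp.sum]

theorem bil_single (b : E → E → ZMod 2) (e e' : E) (x y : ZMod 2) :
    bil b (Finsupp.single e x) (Finsupp.single e' y) = x * y * b e e' := by
  unfold bil
  rw [Finsupp.sum_single_index, Finsupp.sum_single_index]
  · simp
  · simp [Finsupp.sum]

/-- Forms that are invariant under the group. -/
structure Form (M E : Type) [Group M] [MulAction M E] where
  b : E → E → ZMod 2
  inv : ∀ (g : M) (e e' : E), b (g • e) (g • e') = b e e'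

theorem Form.bil_tr (β : Form M E) (g : M) (v w : E →₀ ZMod 2) :
    bil β.b (tr g v) (tr g w) = bil β.b v w := by
  unfold bil tr
  rw [Finsupp.sum_mapDomain_index]
  · refine Finsupp.sum_congr fun e _ => ?_
    rw [Finsupp.sum_mapDomain_index]
    · refine Finsupp.sum_congr fun e' _ => ?_
      rw [β.inv]
    · simp
    · intros; ring
  · intro e
    simp [Finsupp.sum]
  · intro e x y
    rw [← Finsupp.sum_add]
    exact Finsupp.sum_congr fun e' _ => by ring

/-- The form zero. -/
def Form.zero (M E : Type) [Group M] [MulAction M E] : Form M E := ⟨fun _ _ => 0, fun _ _ _ => rfl⟩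

/-- Chains, a central coordinate, and a group element. -/
@[ext]
structure Heis (β : Form M E) where
  v : E →₀ ZMod 2
  s : ZMod 2
  g : M

instance (β : Form M E) : Mul (Heis β) :=
  ⟨fun a b => ⟨a.v + tr a.g b.v, a.s + b.s + bil β.b a.v (tr a.g b.v), a.g * b.g⟩⟩

instance (β : Form M E) : One (Heis β) := ⟨⟨0, 0, 1⟩⟩

instance (β : Form M E) : Inv (Heis β) :=
  ⟨fun a => ⟨tr a.g⁻¹ a.v, a.s + bil β.b a.v a.v, a.g⁻¹⟩⟩

section
variable {β : Form M E} (a b : Heis β)

@[simp] theorem Heis.mul_v : (a * b).v = a.v + tr a.g b.v := rfl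
@[simp] theorem Heis.mul_s : (a * b).s = a.s + b.s + bil β.b a.v (tr a.g b.v) := rfl
@[simp] theorem Heis.mul_g : (a * b).g = a.g * b.g := rfl
@[simp] theorem Heis.one_v : (1 : Heis β).v = 0 := rfl
@[simp] theorem Heis.one_s : (1 : Heis β).s = 0 := rfl
@[simp] theorem Heis.one_g : (1 : Heis β).g = 1 := rfl
@[simp] theorem Heis.inv_v : a⁻¹.v = tr a.g⁻¹ a.v := rfl
@[simp] theorem Heis.inv_s : a⁻¹.s = a.s + bil β.b a.v a.v := rfl
@[simp] theorem Heis.inv_g : a⁻¹.g = a.g⁻¹ := rfl

end

theorem add_self_chain (v : E →₀ ZMod 2) : v + v = 0 := by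
  ext e
  rw [Finsupp.add_apply, Finsupp.zero_apply]
  exact CharTwo.add_self_eq_zero _

instance (β : Form M E) : Group (Heis β) where
  mul_assoc a b c := by
    refine Heis.ext ?_ ?_ ?_
    · simp only [Heis.mul_v, Heis.mul_g, tr_add, tr_mul, add_assoc]
    · simp only [Heis.mul_v, Heis.mul_s, Heis.mul_g, tr_add, tr_mul, bil_add_left, bil_add_right,
        β.bil_tr]
      ring
    · simp only [Heis.mul_g, mul_assoc]
  one_mul a := by
    refine Heis.ext ?_ ?_ ?_
    · simp [tr_one]
    · simp [bil_zero_left]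
    · simp
  mul_one a := by
    refine Heis.ext ?_ ?_ ?_
    · simp [tr_zero]
    · simp [tr_zero, bil_zero_right]
    · simp
  inv_mul_cancel a := by
    refine Heis.ext ?_ ?_ ?_
    · simp only [Heis.mul_v, Heis.inv_v, Heis.inv_g, Heis.one_v]
      exact add_self_chain _
    · simp only [Heis.mul_s, Heis.inv_s, Heis.inv_v, Heis.inv_g, Heis.one_s, β.bil_tr]
      have h : ∀ x y : ZMod 2, x + y + x + y = 0 := by decide
      exact h _ _
    · simp

end

/-! ## The tower of subgroups of the free group -/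

section
variable {W : Type}

/-- The subgroup generated by the squares of the elements of `R`. -/
def sq {G : Type} [Group G] (R : Subgroup G) : Subgroup G :=
  Subgroup.closure {x | ∃ w ∈ R, x = w * w}

theorem sq_normal {G : Type} [Group G] (R : Subgroup G) (hR : R.Normal) : (sq R).Normal := by
  refine ⟨fun n hn g => ?_⟩
  unfold sq at hn ⊢
  induction hn using Subgroup.closure_induction with
  | mem x hx =>
    obtain ⟨w, hw, rfl⟩ := hx
    exact Subgroup.subset_closure ⟨g * w * g⁻¹, hR.conj_mem w hw g, by group⟩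
  | one => simp
  | mul x y _ _ hx hy =>
    have h : g * (x * y) * g⁻¹ = (g * x * g⁻¹) * (g * y * g⁻¹) := by group
    rw [h]
    exact mul_mem hx hy
  | inv x _ hx =>
    have h : g * x⁻¹ * g⁻¹ = (g * x * g⁻¹)⁻¹ := by group
    rw [h]
    exact inv_mem hx

/-- The tower: `stg W 0 = ⊤`, and `stg W (k + 1)` is generated by the squares of `stg W k`. -/
def stg (W : Type) : ℕ → Subgroup (FreeGroup W)
  | 0 => ⊤
  | k + 1 => sq (stg W k)

instance stg_normal (k : ℕ) : (stg W k).Normal := by
  induction k with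
  | zero => exact inferInstanceAs (⊤ : Subgroup (FreeGroup W)).Normal
  | succ k ih => exact sq_normal _ ih

/-- The quotients of the tower. -/
abbrev Mk (W : Type) (k : ℕ) : Type := FreeGroup W ⧸ stg W k

theorem stg_le_comap (φ : FreeGroup W →* FreeGroup W) (k : ℕ) :
    stg W k ≤ (stg W k).comap φ := by
  induction k with
  | zero => exact fun x _ => Subgroup.mem_top _
  | succ k ih =>
    change Subgroup.closure _ ≤ _
    rw [Subgroup.closure_le]
    rintro x ⟨w, hw, rfl⟩
    change φ (w * w) ∈ Subgroup.closure _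
    rw [map_mul]
    exact Subgroup.subset_closure ⟨φ w, ih hw, rfl⟩

open Classical in
/-- Kill one generator. -/
def ret (δ : W) : FreeGroup W →* FreeGroup W :=
  FreeGroup.lift fun α => if α = δ then 1 else FreeGroup.of α

/-- Kill one generator in the quotient. -/
def retq (k : ℕ) (δ : W) : Mk W k →* Mk W k :=
  QuotientGroup.map (stg W k) (stg W k) (ret δ) (stg_le_comap _ k)

/-- The generators that an element depends on. -/
def sup {k : ℕ} (h : Mk W k) : Set W := {δ | retq k δ h ≠ h}

/-- Edges: a level, a position and a direction. -/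
@[ext]
structure TEdge (W : Type) (k : ℕ) where
  lev : ℕ
  h : Mk W k
  x : W

instance (k : ℕ) : MulAction (ℕ → Mk W k) (TEdge W k) where
  smul g e := ⟨e.lev, g e.lev * e.h, e.x⟩
  one_smul e := by
    change (⟨e.lev, (1 : ℕ → Mk W k) e.lev * e.h, e.x⟩ : TEdge W k) = e
    rw [Pi.one_apply, one_mul]
  mul_smul g g' e := by
    change (⟨e.lev, (g * g') e.lev * e.h, e.x⟩ : TEdge W k) =
      ⟨e.lev, g e.lev * (g' e.lev * e.h), e.x⟩
    rw [Pi.mul_apply, mul_assoc]

section
variable {k : ℕ} (g : ℕ → Mk W k) (e : TEdge W k)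

@[simp] theorem smul_lev : (g • e).lev = e.lev := rfl
@[simp] theorem smul_h : (g • e).h = g e.lev * e.h := rfl
@[simp] theorem smul_x : (g • e).x = e.x := rfl

end

/-- The generators that occur in an edge. -/
def es {k : ℕ} (e : TEdge W k) : Set W := insert e.x (sup e.h)

/-- Good pairs of edges. -/
structure Good [LinearOrder W] {k : ℕ} (c : W → W → ℕ) (N : ℕ) (e e' : TEdge W k) : Prop where
  lev : e.lev = e'.lev
  lt : ∀ x ∈ es e, ∀ y ∈ es e', x < y ∧ c x y = N
  inl : ∀ x ∈ es e, ∀ y ∈ es e, x < y → c x y ≠ N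
  inr : ∀ x ∈ es e', ∀ y ∈ es e', x < y → c x y ≠ N

/-- A countable family that separates the points of every finite set. -/
def Sepr {E : Type} (P : ℕ → Set E) : Prop :=
  ∀ (T : Finset E) (e : E), e ∈ T → ∃ p, e ∈ P p ∧ ∀ e' ∈ T, e' ≠ e → e' ∉ P p

open Classical in
/-- The form. -/
def frm [LinearOrder W] {k : ℕ} (c : W → W → ℕ) (P : ℕ → Set (TEdge W k)) :
    Form (ℕ → Mk W k) (TEdge W k) where
  b e e' := if ∃ (g : ℕ → Mk W k) (N : ℕ), Good c N (g • e) (g • e') ∧
    g • e ∈ P N.unpair.1 ∧ g • e' ∈ P N.unpair.1 then 1 else 0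
  inv g e e' := by
    refine if_congr ⟨?_, ?_⟩ rfl rfl
    · rintro ⟨g', N, h⟩
      refine ⟨g' * g, N, ?_⟩
      simpa only [mul_smul] using h
    · rintro ⟨g', N, h⟩
      refine ⟨g' * g⁻¹, N, ?_⟩
      simpa only [mul_smul, inv_smul_smul] using h

/-- Forms for which edges of different levels are orthogonal. -/
def LevForm {k : ℕ} (β : Form (ℕ → Mk W k) (TEdge W k)) : Prop :=
  ∀ e e' : TEdge W k, e.lev ≠ e'.lev → β.b e e' = 0

/-- Projection to one level. -/
def pr (m : ℕ) : FreeGroup (ℕ × W) →* FreeGroup W :=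
  FreeGroup.lift fun y => if y.1 = m then FreeGroup.of y.2 else 1

/-- Inclusion of one level. -/
def inc (m : ℕ) : FreeGroup W →* FreeGroup (ℕ × W) :=
  FreeGroup.lift fun x => FreeGroup.of (m, x)

/-- All levels are in the tower. -/
def RT (W : Type) (k : ℕ) : Subgroup (FreeGroup (ℕ × W)) := ⨅ m, (stg W k).comap (pr m)

/-- The subgroup generated by far generators. -/
def FT [LinearOrder W] (n : ℕ) (α : W) : Subgroup (FreeGroup (ℕ × W)) :=
  Subgroup.closure {x | ∃ m γ, n ≤ m ∧ α < γ ∧ x = FreeGroup.of (m, γ)}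

/-- The homomorphism to the Heisenberg type group. -/
def Phi {k : ℕ} (β : Form (ℕ → Mk W k) (TEdge W k)) : FreeGroup (ℕ × W) →* Heis β :=
  FreeGroup.lift fun y => ⟨Finsupp.single ⟨y.1, 1, y.2⟩ 1, 0,
    Pi.mulSingle y.1 ((FreeGroup.of y.2 : FreeGroup W) : Mk W k)⟩

/-- Elements of finite support. -/
def Lam {k : ℕ} (β : Form (ℕ → Mk W k) (TEdge W k)) : Subgroup (Heis β) where
  carrier := {a | {m | a.g m ≠ 1}.Finite}
  one_mem' := by simp
  mul_mem' := by
    intro a b ha hb
    refine (ha.union hb).subset fun m hm => ?_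
    by_contra h
    rw [Set.mem_union, not_or] at h
    have h1 : a.g m = 1 := by
      by_contra h1
      exact h.1 h1
    have h2 : b.g m = 1 := by
      by_contra h2
      exact h.2 h2
    apply hm
    rw [Heis.mul_g, Pi.mul_apply, h1, h2, one_mul]
  inv_mem' := by
    intro a ha
    refine Set.Finite.subset ha fun m hm => ?_
    simpa using hm

end

/-! ## Gadgets -/

/-- Evaluation of a cochain on a chain. -/
def ev {E : Type} (φ : E → ZMod 2) (v : E →₀ ZMod 2) : ZMod 2 := v.sum fun e x => x * φ e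

section
variable {E : Type}

theorem ev_add_left (φ ψ : E → ZMod 2) (v : E →₀ ZMod 2) : ev (φ + ψ) v = ev φ v + ev ψ v := by
  unfold ev
  rw [← Finsupp.sum_add]
  exact Finsupp.sum_congr fun e _ => by rw [Pi.add_apply]; ring

theorem ev_add_right (φ : E → ZMod 2) (v w : E →₀ ZMod 2) : ev φ (v + w) = ev φ v + ev φ w := by
  unfold ev
  refine Finsupp.sum_add_index' (fun e => ?_) fun e x y => ?_
  · simp
  · ring

theorem ev_zero_right (φ : E → ZMod 2) : ev φ 0 = 0 := Finsupp.sum_zero_index

theorem ev_single (φ : E → ZMod 2) (e : E) (x : ZMod 2) : ev φ (Finsupp.single e x) = x * φ e := by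
  unfold ev
  rw [Finsupp.sum_single_index]
  simp

theorem ev_smul (φ : E → ZMod 2) (c : ZMod 2) (v : E →₀ ZMod 2) :
    ev (fun e => c * φ e) v = c * ev φ v := by
  unfold ev
  rw [Finsupp.mul_sum]
  exact Finsupp.sum_congr fun e _ => by ring

theorem bil_single_right (b : E → E → ZMod 2) (v : E →₀ ZMod 2) (e : E) (x : ZMod 2) :
    bil b v (Finsupp.single e x) = x * bil b v (Finsupp.single e 1) := by
  unfold bil
  rw [Finsupp.mul_sum]
  refine Finsupp.sum_congr fun e' _ => ?_
  rw [Finsupp.sum_single_index (by ring), Finsupp.sum_single_index (by ring)]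
  ring

theorem ev_bil (b : E → E → ZMod 2) (v w : E →₀ ZMod 2) :
    ev (fun e => bil b v (Finsupp.single e 1)) w = bil b v w := by
  induction w using Finsupp.induction_linear with
  | zero => rw [ev_zero_right, bil_zero_right]
  | add w w' h h' => rw [ev_add_right, bil_add_right, h, h']
  | single e x => rw [ev_single, bil_single_right b v e x]

end

section
variable {M E : Type} [Group M] [MulAction M E]

theorem ev_tr (φ : E → ZMod 2) (g : M) (v : E →₀ ZMod 2) :
    ev φ (tr g v) = ev (fun e => φ (g • e)) v := by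
  unfold ev tr
  rw [Finsupp.sum_mapDomain_index]
  · simp
  · intro e x y
    ring

/-- The compact group with the extra coordinate. -/
abbrev CC (E : Type) : Type := Multiplicative ((E → ZMod 2) × ZMod 2 × ZMod 2)

/-- The compact group without the extra coordinate. -/
abbrev CD (E : Type) : Type := Multiplicative ((E → ZMod 2) × ZMod 2)

/-- An action by automorphisms, as a homomorphism. -/
def mkAct {Λ U : Type} [Group Λ] [Group U] (f : Λ → U → U) (h1 : ∀ q, f 1 q = q)
    (hm : ∀ a b q, f (a * b) q = f a (f b q)) (hd : ∀ a q r, f a (q * r) = f a q * f a r) :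
    Λ →* MulAut U where
  toFun a :=
    { toFun := f a
      invFun := f a⁻¹
      left_inv := fun q => by rw [← hm, inv_mul_cancel, h1]
      right_inv := fun q => by rw [← hm, mul_inv_cancel, h1]
      map_mul' := hd a }
  map_one' := by
    ext q
    exact h1 q
  map_mul' a b := by
    ext q
    exact hm a b q

@[simp] theorem mkAct_apply {Λ U : Type} [Group Λ] [Group U] (f : Λ → U → U) (h1 : ∀ q, f 1 q = q)
    (hm : ∀ a b q, f (a * b) q = f a (f b q)) (hd : ∀ a q r, f a (q * r) = f a q * f a r)
    (a : Λ) (q : U) : mkAct f h1 hm hd a q = f a q := rfl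

/-- The action on `CD`. -/
def actDf (β : Form M E) (a : Heis β) (q : CD E) : CD E :=
  Multiplicative.ofAdd (fun e => q.toAdd.1 (a.g⁻¹ • e) +
    q.toAdd.2 * bil β.b a.v (Finsupp.single e 1), q.toAdd.2)

/-- The action on `CC`. -/
def actCf (β : Form M E) (a : Heis β) (q : CC E) : CC E :=
  Multiplicative.ofAdd (fun e => q.toAdd.1 (a.g⁻¹ • e) +
    q.toAdd.2.1 * bil β.b a.v (Finsupp.single e 1), q.toAdd.2.1,
    q.toAdd.2.2 + ev q.toAdd.1 (tr a.g⁻¹ a.v) + q.toAdd.2.1 * (bil β.b a.v a.v + a.s))

theorem bil_tr_single (β : Form M E) (g : M) (w : E →₀ ZMod 2) (e : E) :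
    bil β.b (tr g w) (Finsupp.single e 1) = bil β.b w (Finsupp.single (g⁻¹ • e) 1) := by
  rw [← β.bil_tr g⁻¹, ← tr_mul, inv_mul_cancel, tr_one, tr_single]

/-- The action on `CD`, as a homomorphism. -/
def actD (β : Form M E) : Heis β →* MulAut (CD E) :=
  mkAct (actDf β)
    (fun q => by
      unfold actDf
      simp [bil_zero_left])
    (fun a b q => by
      unfold actDf
      simp only [Heis.mul_v, Heis.mul_g, mul_inv_rev, mul_smul, bil_add_left, toAdd_ofAdd,
        bil_tr_single]
      congr 2
      ext e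
      ring)
    (fun a q r => by
      unfold actDf
      rw [← ofAdd_add]
      congr 1
      refine Prod.ext ?_ rfl
      ext e
      simp only [toAdd_mul, Prod.fst_add, Prod.snd_add, Pi.add_apply]
      ring)

/-- The action on `CC`, as a homomorphism. -/
def actC (β : Form M E) : Heis β →* MulAut (CC E) :=
  mkAct (actCf β)
    (fun q => by
      unfold actCf
      simp [bil_zero_left, tr_zero, ev_zero_right])
    (fun a b q => by
      unfold actCf
      simp only [Heis.mul_v, Heis.mul_s, Heis.mul_g, toAdd_ofAdd]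
      congr 1
      refine Prod.ext ?_ (Prod.ext rfl ?_)
      · ext e
        simp only [mul_inv_rev, mul_smul, bil_add_left, bil_tr_single]
        ring
      · simp only [mul_inv_rev, tr_add, tr_mul, ev_add_right, bil_add_left, bil_add_right,
          β.bil_tr]
        have h1 : tr a.g⁻¹ (tr a.g b.v) = b.v := by
          rw [← tr_mul, inv_mul_cancel, tr_one]
        have h2 : ev (fun e => q.toAdd.1 (b.g⁻¹ • e) +
            q.toAdd.2.1 * bil β.b b.v (Finsupp.single e 1)) (tr a.g⁻¹ a.v) =
            ev q.toAdd.1 (tr b.g⁻¹ (tr a.g⁻¹ a.v)) +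
            q.toAdd.2.1 * bil β.b (tr a.g b.v) a.v := by
          have h3 := ev_add_left (fun e => q.toAdd.1 (b.g⁻¹ • e))
            (fun e => q.toAdd.2.1 * bil β.b b.v (Finsupp.single e 1)) (tr a.g⁻¹ a.v)
          have h4 : bil β.b (tr a.g b.v) a.v = bil β.b b.v (tr a.g⁻¹ a.v) := by
            rw [← β.bil_tr a.g⁻¹ (tr a.g b.v) a.v, h1]
          rw [h4, ← ev_bil β.b b.v (tr a.g⁻¹ a.v), ← ev_smul, ev_tr _ b.g⁻¹]
          exact h3
        rw [h1, h2]
        have h5 : (2 : ZMod 2) = 0 := rfl
        linear_combination (q.toAdd.2.1 * bil β.b a.v (tr a.g b.v)) * h5)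
    (fun a q r => by
      unfold actCf
      rw [← ofAdd_add]
      congr 1
      refine Prod.ext ?_ (Prod.ext rfl ?_)
      · ext e
        simp only [toAdd_mul, Prod.fst_add, Prod.snd_add, Pi.add_apply]
        ring
      · simp only [toAdd_mul, Prod.fst_add, Prod.snd_add, ev_add_left]
        ring)

end

/-- The symmetric group, discrete. -/
def S3 : Type := Equiv.Perm (Fin 3)

instance : Group S3 := inferInstanceAs (Group (Equiv.Perm (Fin 3)))
instance : Fintype S3 := inferInstanceAs (Fintype (Equiv.Perm (Fin 3)))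
instance : DecidableEq S3 := inferInstanceAs (DecidableEq (Equiv.Perm (Fin 3)))
instance : TopologicalSpace S3 := ⊥
instance : DiscreteTopology S3 := ⟨rfl⟩

/-- The action on functions to the symmetric group. -/
def actX (Λ X : Type) [Group Λ] [MulAction Λ X] : Λ →* MulAut (X → S3) :=
  mkAct (fun a f x => f (a⁻¹ • x))
    (fun q => by
      ext x
      simp)
    (fun a b q => by
      ext x
      simp [mul_smul])
    (fun a q r => rfl)

/-- The product of two actions. -/
def prodAct {Λ A B : Type} [Group Λ] [Group A] [Group B] (φ : Λ →* MulAut A)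
    (ψ : Λ →* MulAut B) : Λ →* MulAut (A × B) :=
  mkAct (fun a q => (φ a q.1, ψ a q.2))
    (fun q => by simp)
    (fun a b q => by simp)
    (fun a q r => by simp)

/-- The topology on a semidirect product with a discrete group. -/
instance sdTop {U Λ : Type} [Group U] [Group Λ] [TopologicalSpace U] (φ : Λ →* MulAut U) :
    TopologicalSpace (U ⋊[φ] Λ) :=
  TopologicalSpace.induced (fun x => (x.left, x.right)) (@instTopologicalSpaceProd U Λ _ ⊥)

end Pool.Agent.ZM
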