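import Pool.Agent.Lib.MP_ff2384_gt.Supp

set_option autoImplicit false

open Filter Topology

noncomputable section

namespace Pool.Agent.ZM

section
variable {W : Type} {k : ℕ} (β : Form (ℕ → Mk W k) (TEdge W k))

/-- The far subgroup. -/
def far_sub [LinearOrder W] (n : ℕ) (α : W) : Subgroup (Heis β) where
  carrier := {a | (∀ e ∈ a.v.support, n ≤ e.lev ∧ ∀ x ∈ es e, α < x) ∧
      (∀ m < n, a.g m = 1) ∧ ∀ m, ∀ x ∈ sup (a.g m), α < x}
  one_mem' := by
    refine ⟨by simp, fun _ _ => rfl, fun m x hx => ?_⟩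
    rw [Heis.one_g, Pi.one_apply, sup_one] at hx
    exact absurd hx (Set.notMem_empty _)
  mul_mem' := by
    classical
    rintro a b ⟨h1, h2, h3⟩ ⟨h4, h5, h6⟩
    refine ⟨fun e he => ?_, fun m hm => ?_, fun m x hx => ?_⟩
    · rw [Heis.mul_v] at he
      rcases Finset.mem_union.1 (Finsupp.support_add he) with h | h
      · exact h1 e h
      · have h7 : e ∈ b.v.support.image (a.g • ·) := Finsupp.mapDomain_support h
        obtain ⟨e0, he0, rfl⟩ := Finset.mem_image.1 h7
        obtain ⟨h8, h9⟩ := h4 e0 he0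
        refine ⟨h8, fun x hx => ?_⟩
        rcases hx with hx | hx
        · exact h9 x (by rw [hx]; exact Set.mem_insert _ _)
        · rcases sup_mul _ _ hx with h | h
          · exact h3 _ x h
          · exact h9 x (Set.mem_insert_of_mem _ h)
    · rw [Heis.mul_g, Pi.mul_apply, h2 m hm, h5 m hm, one_mul]
    · rw [Heis.mul_g, Pi.mul_apply] at hx
      rcases sup_mul _ _ hx with h | h
      · exact h3 m x h
      · exact h6 m x h
  inv_mem' := by
    classical
    rintro a ⟨h1, h2, h3⟩
    refine ⟨fun e he => ?_, fun m hm => ?_, fun m x hx => ?_⟩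
    · rw [Heis.inv_v] at he
      have h7 : e ∈ a.v.support.image (a.g⁻¹ • ·) := Finsupp.mapDomain_support he
      obtain ⟨e0, he0, rfl⟩ := Finset.mem_image.1 h7
      obtain ⟨h8, h9⟩ := h1 e0 he0
      refine ⟨h8, fun x hx => ?_⟩
      rcases hx with hx | hx
      · exact h9 x (by rw [hx]; exact Set.mem_insert _ _)
      · rcases sup_mul _ _ hx with h | h
        · rw [Pi.inv_apply, sup_inv] at h
          exact h3 _ x h
        · exact h9 x (Set.mem_insert_of_mem _ h)
    · rw [Heis.inv_g, Pi.inv_apply, h2 m hm, inv_one]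
    · rw [Heis.inv_g, Pi.inv_apply, sup_inv] at hx
      exact h3 m x hx

theorem far [LinearOrder W] (n : ℕ) (α : W) (u : FreeGroup (ℕ × W)) (hu : u ∈ FT n α) :
    (∀ e ∈ (Phi β u).v.support, n ≤ e.lev ∧ ∀ x ∈ es e, α < x) ∧
      (∀ m < n, (Phi β u).g m = 1) ∧ ∀ m, ∀ x ∈ sup ((Phi β u).g m), α < x := by
  have h : FT n α ≤ (far_sub β n α).comap (Phi β) := by
    unfold FT
    rw [Subgroup.closure_le]
    rintro x ⟨m, γ, hm, hγ, rfl⟩
    rw [SetLike.mem_coe, Subgroup.mem_comap]
    unfold Phi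
    rw [FreeGroup.lift_apply_of]
    refine ⟨fun e he => ?_, fun m' hm' => ?_, fun m' x hx => ?_⟩
    · have h1 := Finsupp.support_single_subset he
      rw [Finset.mem_singleton] at h1
      subst h1
      refine ⟨hm, fun x hx => ?_⟩
      rcases hx with hx | hx
      · rw [hx]
        exact hγ
      · rw [sup_one] at hx
        exact absurd hx (Set.notMem_empty _)
    · exact Pi.mulSingle_eq_of_ne (by omega) _
    · change x ∈ sup ((Pi.mulSingle m ((FreeGroup.of γ : FreeGroup W) : Mk W k) :
        ℕ → Mk W k) m') at hx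
      by_cases h1 : m' = m
      · subst h1
        rw [Pi.mulSingle_eq_same] at hx
        rw [Set.mem_singleton_iff.1 (sup_of _ hx)]
        exact hγ
      · rw [Pi.mulSingle_eq_of_ne h1, sup_one] at hx
        exact absurd hx (Set.notMem_empty _)
  exact h hu

theorem far_pr [LinearOrder W] (n : ℕ) (α : W) (u : FreeGroup (ℕ × W)) (hu : u ∈ FT n α) (m : ℕ)
    (hm : m < n) : pr m u = 1 := by
  have h : FT n α ≤ (pr m : FreeGroup (ℕ × W) →* FreeGroup W).ker := by
    unfold FT
    rw [Subgroup.closure_le]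
    rintro x ⟨m', γ, hm', hγ, rfl⟩
    rw [SetLike.mem_coe, MonoidHom.mem_ker]
    unfold pr
    rw [FreeGroup.lift_apply_of, if_neg]
    change ¬ m' = m
    omega
  exact h hu

end

end Pool.Agent.ZM
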