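import Pool.Agent.Lib.MP_ff2384_gt.Defs

set_option autoImplicit false

open Filter Topology

noncomputable section

namespace Pool.Agent.ZM

section
variable {M E : Type} [Group M] [MulAction M E] (β : Form M E)

/-- Forget the last coordinate. -/
def drop (E : Type) : CC E →* CD E where
  toFun q := Multiplicative.ofAdd (q.toAdd.1, q.toAdd.2.1)
  map_one' := rfl
  map_mul' _ _ := rfl

theorem gadget_ev_continuous (v : E →₀ ZMod 2) : Continuous fun φ : E → ZMod 2 => ev φ v := by
  unfold ev Finsupp.sum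
  exact continuous_finsetSum _ fun e _ => (continuous_const.mul (continuous_apply e))

theorem actC_continuous (a : Heis β) : Continuous (actC β a) := by
  have h : Continuous fun q : (E → ZMod 2) × ZMod 2 × ZMod 2 =>
      (((fun e => q.1 (a.g⁻¹ • e) + q.2.1 * bil β.b a.v (Finsupp.single e 1)), q.2.1,
        q.2.2 + ev q.1 (tr a.g⁻¹ a.v) + q.2.1 * (bil β.b a.v a.v + a.s)) :
        (E → ZMod 2) × ZMod 2 × ZMod 2) := by
    refine Continuous.prodMk (continuous_pi fun e => ?_) (Continuous.prodMk ?_ ?_)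
    · exact ((continuous_apply _).comp continuous_fst).add
        ((continuous_fst.comp continuous_snd).mul continuous_const)
    · exact continuous_fst.comp continuous_snd
    · exact ((continuous_snd.comp continuous_snd).add
        ((gadget_ev_continuous _).comp continuous_fst)).add
        ((continuous_fst.comp continuous_snd).mul continuous_const)
  exact h

theorem actD_continuous (a : Heis β) : Continuous (actD β a) := by
  have h : Continuous fun q : (E → ZMod 2) × ZMod 2 =>
      (((fun e => q.1 (a.g⁻¹ • e) + q.2 * bil β.b a.v (Finsupp.single e 1)), q.2) :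
        (E → ZMod 2) × ZMod 2) := by
    refine Continuous.prodMk (continuous_pi fun e => ?_) continuous_snd
    exact ((continuous_apply _).comp continuous_fst).add
        (continuous_snd.mul continuous_const)
  exact h

theorem drop_act (a : Heis β) (q : CC E) : drop E (actC β a q) = actD β a (drop E q) := rfl

theorem drop_continuous : Continuous (drop E) := by
  have h : Continuous fun q : (E → ZMod 2) × ZMod 2 × ZMod 2 =>
      ((q.1, q.2.1) : (E → ZMod 2) × ZMod 2) :=
    continuous_fst.prodMk (continuous_fst.comp continuous_snd)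
  exact h

theorem drop_open : IsOpenMap (drop E) := by
  have h : IsOpenMap fun q : (E → ZMod 2) × ZMod 2 × ZMod 2 =>
      ((q.1, q.2.1) : (E → ZMod 2) × ZMod 2) :=
    IsOpenMap.prodMap IsOpenMap.id isOpenMap_fst
  exact h

theorem drop_surj : Function.Surjective (drop E) := fun q =>
  ⟨Multiplicative.ofAdd (q.toAdd.1, q.toAdd.2, 0), rfl⟩

theorem gadget_actC (a : Heis β) (φ : E → ZMod 2) (t s : ZMod 2) :
    actC β a (Multiplicative.ofAdd (φ, t, s)) =
      Multiplicative.ofAdd (fun e => φ (a.g⁻¹ • e) + t * bil β.b a.v (Finsupp.single e 1), t,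
        s + ev φ (tr a.g⁻¹ a.v) + t * (bil β.b a.v a.v + a.s)) := rfl

theorem gadget_ev_zero (v : E →₀ ZMod 2) : ev (0 : E → ZMod 2) v = 0 := by
  unfold ev Finsupp.sum
  simp

theorem gadget_fix (a : Heis β) (s : ZMod 2) :
    actC β a (Multiplicative.ofAdd (0, 0, s)) = Multiplicative.ofAdd (0, 0, s) := by
  rw [gadget_actC]
  congr 1
  refine Prod.ext ?_ (Prod.ext rfl ?_)
  · ext e
    change (0 : ZMod 2) + 0 * bil β.b a.v (Finsupp.single e 1) = 0
    rw [zero_mul, add_zero]
  · change s + ev 0 (tr a.g⁻¹ a.v) + 0 * (bil β.b a.v a.v + a.s) = s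
    rw [gadget_ev_zero, zero_mul, add_zero, add_zero]

theorem gadget_ev_ext (v : E →₀ ZMod 2) (h : ∀ φ : E → ZMod 2, ev φ v = 0) : v = 0 := by
  classical
  ext e
  have h1 := h (Pi.single e 1)
  unfold ev Finsupp.sum at h1
  rw [Finset.sum_eq_single e] at h1
  · simpa using h1
  · intro e' _ hne
    beta_reduce
    rw [Pi.single_eq_of_ne hne, mul_zero]
  · intro he
    beta_reduce
    rw [Finsupp.notMem_support_iff.1 he, zero_mul]

theorem actC_faithful (hM : ∀ g : M, (∀ e : E, g • e = e) → g = 1) (a : Heis β)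
    (h : ∀ q, actC β a q = q) : a = 1 := by
  classical
  have hg : a.g = 1 := by
    refine hM _ fun e => ?_
    have h1 := h (Multiplicative.ofAdd (Pi.single e 1, 0, 0))
    rw [gadget_actC] at h1
    have h2 := congrFun (congrArg Prod.fst (Multiplicative.ofAdd.injective h1)) (a.g • e)
    simp only [zero_mul, add_zero, inv_smul_smul, Pi.single_eq_same] at h2
    by_contra hne
    rw [Pi.single_eq_of_ne hne] at h2
    exact one_ne_zero h2
  have hv : a.v = 0 := by
    refine gadget_ev_ext _ fun φ => ?_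
    have h1 := h (Multiplicative.ofAdd (φ, 0, 0))
    rw [gadget_actC] at h1
    have h2 := congrArg (fun x => x.2.2) (Multiplicative.ofAdd.injective h1)
    simp only [zero_mul, add_zero, zero_add, hg, inv_one, tr_one] at h2
    exact h2
  have hs : a.s = 0 := by
    have h1 := h (Multiplicative.ofAdd (0, 1, 0))
    rw [gadget_actC] at h1
    have h2 := congrArg (fun x => x.2.2) (Multiplicative.ofAdd.injective h1)
    simp only [hv, tr_zero, ev_zero_right, bil_zero_left, one_mul, zero_add] at h2
    exact h2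
  exact Heis.ext hv hs hg

theorem actC_fix (q : CC E) : drop E q = 1 ↔ ∀ a : Heis β, a.g = 1 → actC β a q = q := by
  constructor
  · intro h a hg
    obtain ⟨φ, t, s⟩ : (E → ZMod 2) × ZMod 2 × ZMod 2 := q
    have h0 : ((φ, t) : (E → ZMod 2) × ZMod 2) = 0 := h
    have h1 : φ = 0 := congrArg Prod.fst h0
    have h2 : t = 0 := congrArg Prod.snd h0
    subst h1 h2
    exact gadget_fix β a s
  · intro h
    obtain ⟨φ, t, s⟩ : (E → ZMod 2) × ZMod 2 × ZMod 2 := q
    have ht : t = 0 := by
      have h1 := h ⟨0, 1, 1⟩ rfl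
      have h1' := (gadget_actC β ⟨0, 1, 1⟩ φ t s).symm.trans h1
      have h2 := congrArg (fun x => x.2.2) (Multiplicative.ofAdd.injective h1')
      simp only [tr_zero, ev_zero_right, bil_zero_left, zero_add, mul_one, add_zero] at h2
      exact left_eq_add.1 h2.symm
    have hφ : φ = 0 := by
      ext e
      have h1 := h ⟨Finsupp.single e 1, 0, 1⟩ rfl
      have h1' := (gadget_actC β ⟨Finsupp.single e 1, 0, 1⟩ φ t s).symm.trans h1
      have h2 := congrArg (fun x => x.2.2) (Multiplicative.ofAdd.injective h1')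
      simp only [inv_one, tr_one, ev_single, ht, zero_mul, add_zero, one_mul] at h2
      exact left_eq_add.1 h2.symm
    subst ht hφ
    rfl

theorem actC_fix' (q : CC E) (h : drop E q = 1) (a : Heis β) : actC β a q = q := by
  obtain ⟨φ, t, s⟩ : (E → ZMod 2) × ZMod 2 × ZMod 2 := q
  have h0 : ((φ, t) : (E → ZMod 2) × ZMod 2) = 0 := h
  have h1 : φ = 0 := congrArg Prod.fst h0
  have h2 : t = 0 := congrArg Prod.snd h0
  subst h1 h2
  exact gadget_fix β a s

theorem gadget_bil_single (v : E →₀ ZMod 2) (e : E) (h : ∀ e' ∈ v.support, β.b e' e = 0) :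
    bil β.b v (Finsupp.single e 1) = 0 := by
  unfold bil
  refine Finset.sum_eq_zero fun e' he' => ?_
  beta_reduce
  rw [Finsupp.sum_single_index (by ring), h e' he', mul_zero]

theorem actD_loc (O : Set (CD E)) (hO : O ∈ 𝓝 (1 : CD E)) : ∃ T : Finset E, ∀ a : Heis β,
    (∀ e ∈ T, a.g • e = e ∧ ∀ e' ∈ a.v.support, β.b e' e = 0) → ∀ u, actD β a u * u⁻¹ ∈ O := by
  classical
  have hO' : (show Set ((E → ZMod 2) × ZMod 2) from O) ∈ 𝓝 ((0, 0) : (E → ZMod 2) × ZMod 2) := hO
  rw [nhds_prod_eq, Filter.mem_prod_iff] at hO'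
  obtain ⟨A, hA, B, hB, hAB⟩ := hO'
  rw [nhds_pi, Filter.mem_pi] at hA
  obtain ⟨I, hI, t, ht, hIt⟩ := hA
  refine ⟨hI.toFinset, fun a ha u => ?_⟩
  obtain ⟨φ, s⟩ : (E → ZMod 2) × ZMod 2 := u
  refine hAB (Set.mk_mem_prod (hIt fun e he => ?_) ?_)
  · obtain ⟨h1, h2⟩ := ha e (hI.mem_toFinset.2 he)
    have h3 : a.g⁻¹ • e = e := by
      rw [inv_smul_eq_iff, h1]
    have h4 : (φ (a.g⁻¹ • e) + s * bil β.b a.v (Finsupp.single e 1)) + -(φ e) ∈ t e := by
      rw [h3, gadget_bil_single β a.v e h2, mul_zero, add_zero, add_neg_cancel]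
      exact mem_of_mem_nhds (ht e)
    exact h4
  · have h4 : s + -s ∈ B := by
      rw [add_neg_cancel]
      exact mem_of_mem_nhds hB
    exact h4

end

end Pool.Agent.ZM
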