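import Mathlib
import Pool.Agent.Lib.MP_ff2384_gt.Defs

/-!
# MP_ff2384_gt, module MIN: a minimality criterion
-/

set_option autoImplicit false

open Filter Topology

noncomputable section

namespace Pool.Agent.ZM

theorem min_key {L L' Λ J : Type} [Group L] [TopologicalSpace L] [IsTopologicalGroup L]
    [Group L'] [TopologicalSpace L'] [IsTopologicalGroup L'] [T2Space L'] [Group Λ]
    (e : L ≃* L') (he : Continuous e) (p : L →* Λ)
    (hK : IsCompact (p.ker : Set L)) (S : J → Subgroup Λ) (Z : Set Λ) (hZ : Z.Finite)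
    (hS : ∀ j, ∃ v ∈ p.ker, ∃ O : Set L, IsOpen O ∧ v ∈ O ∧ ∀ x, x * v * x⁻¹ ∈ O → p x ∈ S j)
    (hnt : ∀ B : ℕ → Set Λ, (∀ i, B (i + 1) ⊆ B i) →
      (∀ i, ∀ a ∈ B (i + 1), ∀ b ∈ B (i + 1), a * b * a⁻¹ * b⁻¹ ∈ B i) →
      (∀ i j, ∃ a ∈ B i, a ∈ S j ∧ a ∉ Z) → ∃ a ∈ B 0, a ∈ Z ∧ a ≠ 1) :
    Continuous e.symm := by
  -- images of closed parts of the kernel are closed
  have hcl : ∀ O : Set L, IsOpen O → IsClosed (e '' ((p.ker : Set L) \ O)) := fun O hO =>
    ((hK.diff hO).image he).isClosed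
  have hKcl : IsClosed (e '' (p.ker : Set L)) := (hK.image he).isClosed
  -- step 2
  by_cases hn : e '' (p.ker : Set L) ∈ 𝓝 (1 : L')
  · apply continuous_of_continuousAt_one e.symm
    intro N hN
    rw [map_one] at hN
    obtain ⟨O, hON, hO, h1⟩ := mem_nhds_iff.1 hN
    have h2 : (e '' ((p.ker : Set L) \ O))ᶜ ∈ 𝓝 (1 : L') := by
      refine (hcl O hO).isOpen_compl.mem_nhds ?_
      rintro ⟨x, hx, hx1⟩
      have : x = 1 := e.injective (by rw [hx1, map_one])
      subst this
      exact hx.2 h1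
    rw [Filter.mem_map]
    filter_upwards [hn, h2] with y hy hy2
    obtain ⟨x, hx, rfl⟩ := hy
    apply hON
    show e.symm (e x) ∈ O
    rw [e.symm_apply_apply]
    by_contra hxO
    exact hy2 ⟨x, ⟨hx, hxO⟩, rfl⟩
  · exfalso
    -- step 1
    have h1 : ∀ j, {y : L' | p (e.symm y) ∈ S j} ∈ 𝓝 (1 : L') := by
      intro j
      obtain ⟨v, hv, O, hO, hvO, hx⟩ := hS j
      have hc : Continuous fun y : L' => y * e v * y⁻¹ := by fun_prop
      have h2 : {y : L' | y * e v * y⁻¹ ∈ (e '' ((p.ker : Set L) \ O))ᶜ} ∈ 𝓝 (1 : L') := by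
        refine hc.continuousAt.preimage_mem_nhds ((hcl O hO).isOpen_compl.mem_nhds ?_)
        rintro ⟨x', hx', hx1⟩
        have : x' = v := e.injective (by rw [hx1]; simp)
        subst this
        exact hx'.2 hvO
      filter_upwards [h2] with y hy
      apply hx
      by_contra hcon
      apply hy
      refine ⟨e.symm y * v * (e.symm y)⁻¹, ⟨?_, hcon⟩, ?_⟩
      · exact (MonoidHom.normal_ker p).conj_mem v hv _
      · simp
    -- the first neighbourhood
    have h0 : {y : L' | p (e.symm y) ∈ Z → p (e.symm y) = 1} ∈ 𝓝 (1 : L') := by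
      have h2 : ∀ z ∈ Z, {y : L' | p (e.symm y) = z → z = 1} ∈ 𝓝 (1 : L') := by
        intro z _
        by_cases hz1 : z = 1
        · filter_upwards with y _ using hz1
        · have hfib : IsClosed {y : L' | p (e.symm y) = z} := by
            by_cases hne : ∃ y0 : L', p (e.symm y0) = z
            · obtain ⟨y0, hy0⟩ := hne
              have : {y : L' | p (e.symm y) = z} = (fun y => y0⁻¹ * y) ⁻¹' (e '' (p.ker : Set L)) := by
                ext y
                simp only [Set.mem_ofPred_eq, Set.mem_preimage, Set.mem_image]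
                constructor
                · intro h
                  refine ⟨e.symm (y0⁻¹ * y), ?_, by simp⟩
                  show _ ∈ p.ker
                  rw [MonoidHom.mem_ker, map_mul, map_mul, map_inv, map_inv, hy0, h,
                    inv_mul_cancel]
                · rintro ⟨x, hx, hxy⟩
                  have h3 : y = y0 * e x := by rw [hxy]; group
                  have h4 : p x = 1 := hx
                  rw [h3, map_mul, map_mul, e.symm_apply_apply, h4, mul_one, hy0]
              rw [this]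
              exact hKcl.preimage (by fun_prop)
            · have : {y : L' | p (e.symm y) = z} = ∅ := by
                ext y
                simp only [Set.mem_ofPred_eq, Set.mem_empty_iff_false, iff_false]
                exact fun h => hne ⟨y, h⟩
              rw [this]
              exact isClosed_empty
          have h3 : {y : L' | p (e.symm y) = z}ᶜ ∈ 𝓝 (1 : L') := by
            refine hfib.isOpen_compl.mem_nhds ?_
            intro h
            apply hz1
            have h' : p (e.symm 1) = z := h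
            rw [map_one, map_one] at h'
            exact h'.symm
          filter_upwards [h3] with y hy h
          exact absurd h hy
      have h3 := (Filter.biInter_mem hZ).2 h2
      filter_upwards [h3] with y hy hyZ
      have := Set.mem_iInter₂.1 hy (p (e.symm y)) hyZ
      exact this rfl
    -- commutators
    have hcomm : ∀ V : {V : Set L' // V ∈ 𝓝 (1 : L')}, ∃ V' : {V : Set L' // V ∈ 𝓝 (1 : L')},
        V'.1 ⊆ V.1 ∧ ∀ a ∈ V'.1, ∀ b ∈ V'.1, a * b * a⁻¹ * b⁻¹ ∈ V.1 := by
      rintro ⟨V, hV⟩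
      have hc : Continuous fun q : L' × L' => q.1 * q.2 * q.1⁻¹ * q.2⁻¹ := by fun_prop
      have h2 : (fun q : L' × L' => q.1 * q.2 * q.1⁻¹ * q.2⁻¹) ⁻¹' V ∈ 𝓝 ((1, 1) : L' × L') := by
        refine hc.continuousAt.preimage_mem_nhds ?_
        simpa using hV
      rw [nhds_prod_eq] at h2
      obtain ⟨A, hA, B, hB, hAB⟩ := Filter.mem_prod_iff.1 h2
      refine ⟨⟨A ∩ B ∩ V, Filter.inter_mem (Filter.inter_mem hA hB) hV⟩, Set.inter_subset_right, ?_⟩
      intro a ha b hb
      exact hAB (Set.mk_mem_prod ha.1.1 hb.1.2)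
    choose nxt hn1 hn2 using hcomm
    let V : ℕ → {V : Set L' // V ∈ 𝓝 (1 : L')} := fun i => Nat.rec ⟨_, h0⟩ (fun _ W => nxt W) i
    have hV0 : (V 0).1 = {y : L' | p (e.symm y) ∈ Z → p (e.symm y) = 1} := rfl
    have hVs : ∀ i, V (i + 1) = nxt (V i) := fun i => rfl
    have hVanti : ∀ i, (V i).1 ⊆ (V 0).1 := by
      intro i
      induction i with
      | zero => exact subset_rfl
      | succ i ih => rw [hVs]; exact (hn1 _).trans ih
    obtain ⟨a, ⟨y, hy, rfl⟩, haZ, ha1⟩ := hnt (fun i => (fun y => p (e.symm y)) '' (V i).1)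
      (fun i => by
        rw [hVs]
        exact Set.image_mono (hn1 _))
      (by
        rintro i a ⟨x, hx, rfl⟩ b ⟨y, hy, rfl⟩
        rw [hVs] at hx hy
        exact ⟨x * y * x⁻¹ * y⁻¹, hn2 _ x hx y hy, by simp⟩)
      (by
        intro i j
        have h2 : (V i).1 ∩ {y : L' | p (e.symm y) ∈ S j} ∈ 𝓝 (1 : L') :=
          Filter.inter_mem (V i).2 (h1 j)
        have h3 : ¬ ((V i).1 ∩ {y : L' | p (e.symm y) ∈ S j} ⊆ e '' (p.ker : Set L)) :=
          fun h => hn (Filter.mem_of_superset h2 h)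
        obtain ⟨y, hy, hyK⟩ := Set.not_subset.1 h3
        refine ⟨p (e.symm y), ⟨y, hy.1, rfl⟩, hy.2, ?_⟩
        intro hyZ
        have h4 : p (e.symm y) = 1 := by
          have h5 := hVanti i hy.1
          rw [hV0] at h5
          exact h5 hyZ
        exact hyK ⟨e.symm y, h4, by simp⟩)
    rw [hV0] at hy
    exact ha1 (hy haZ)

/-! ## Module MIN -/

theorem isMin_of_nt {L Λ J : Type} [Group L] [TopologicalSpace L] [IsTopologicalGroup L]
    [T2Space L] [Group Λ] (p : L →* Λ) (hU : IsOpen (p.ker : Set L))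
    (hK : IsCompact (p.ker : Set L)) (S : J → Subgroup Λ) (Z : Set Λ) (hZ : Z.Finite)
    (hS : ∀ j, ∃ v ∈ p.ker, ∃ O : Set L, IsOpen O ∧ v ∈ O ∧ ∀ x, x * v * x⁻¹ ∈ O → p x ∈ S j)
    (hnt : ∀ B : ℕ → Set Λ, (∀ i, B (i + 1) ⊆ B i) →
      (∀ i, ∀ a ∈ B (i + 1), ∀ b ∈ B (i + 1), a * b * a⁻¹ * b⁻¹ ∈ B i) →
      (∀ i j, ∃ a ∈ B i, a ∈ S j ∧ a ∉ Z) → ∃ a ∈ B 0, a ∈ Z ∧ a ≠ 1) : IsMin L := by
  let τ : TopologicalSpace L := inferInstance
  refine ⟨inferInstance, inferInstance, fun σ h1 h2 h3 s hs => ?_⟩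
  have key := @min_key L L Λ J _ τ _ _ σ h1 h2 _ (MulEquiv.refl L)
    (continuous_def.2 (fun s hs => h3 s hs)) p hK S Z hZ hS hnt
  exact @IsOpen.preimage L L σ τ _ key s hs

end Pool.Agent.ZM
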