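import Pool.Agent.Lib.MP_ff2384_gt.Defs

set_option autoImplicit false

open Filter Topology

noncomputable section

namespace Pool.Agent.ZM

section
variable {W : Type} {k : ℕ} (β : Form (ℕ → Mk W k) (TEdge W k))

theorem kill_phi_of (y : ℕ × W) : Phi β (FreeGroup.of y) = ⟨Finsupp.single ⟨y.1, 1, y.2⟩ 1, 0,
    Pi.mulSingle y.1 ((FreeGroup.of y.2 : FreeGroup W) : Mk W k)⟩ := by
  unfold Phi
  rw [FreeGroup.lift_apply_of]

theorem kill_gen_comm (hβ : LevForm β) (y z : ℕ × W) (h : y.1 ≠ z.1) :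
    Commute (Phi β (FreeGroup.of y)) (Phi β (FreeGroup.of z)) := by
  have key : ∀ y z : ℕ × W, y.1 ≠ z.1 →
      tr (Pi.mulSingle y.1 ((FreeGroup.of y.2 : FreeGroup W) : Mk W k) : ℕ → Mk W k)
        (Finsupp.single (⟨z.1, 1, z.2⟩ : TEdge W k) 1) = Finsupp.single ⟨z.1, 1, z.2⟩ 1 := by
    intro y z h
    rw [tr_single]
    congr 1
    refine TEdge.ext rfl ?_ rfl
    rw [smul_h]
    change (Pi.mulSingle y.1 ((FreeGroup.of y.2 : FreeGroup W) : Mk W k) : ℕ → Mk W k) z.1 * 1 = 1
    rw [Pi.mulSingle_eq_of_ne h.symm, mul_one]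
  rw [kill_phi_of, kill_phi_of]
  refine Heis.ext ?_ ?_ ?_
  · rw [Heis.mul_v, Heis.mul_v, key y z h, key z y h.symm, add_comm]
  · rw [Heis.mul_s, Heis.mul_s, key y z h, key z y h.symm, bil_single, bil_single,
      hβ _ _ h, hβ _ _ h.symm]
  · exact Pi.mulSingle_commute h _ _

/-- Kill the levels from `n` on. -/
def kill_rt (n : ℕ) : FreeGroup (ℕ × W) →* FreeGroup (ℕ × W) :=
  FreeGroup.lift fun y => if y.1 < n then FreeGroup.of y else 1

theorem kill_rt_of (n : ℕ) (y : ℕ × W) :
    kill_rt n (FreeGroup.of y) = if y.1 < n then FreeGroup.of y else 1 := by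
  unfold kill_rt
  rw [FreeGroup.lift_apply_of]

theorem kill_inc_of (n : ℕ) (x : W) : inc n (FreeGroup.of x) = FreeGroup.of (n, x) := by
  unfold inc
  rw [FreeGroup.lift_apply_of]

theorem kill_pr_of (n : ℕ) (y : ℕ × W) :
    pr n (FreeGroup.of y) = if y.1 = n then FreeGroup.of y.2 else 1 := by
  unfold pr
  rw [FreeGroup.lift_apply_of]

theorem kill_rt_eq (w : FreeGroup (ℕ × W)) : ∃ n, ∀ n', n ≤ n' → kill_rt n' w = w := by
  induction w using FreeGroup.induction_on with
  | C1 => exact ⟨0, fun n' _ => map_one _⟩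
  | of x => exact ⟨x.1 + 1, fun n' h => by rw [kill_rt_of, if_pos (by omega)]⟩
  | inv_of x _ => exact ⟨x.1 + 1, fun n' h => by rw [map_inv, kill_rt_of, if_pos (by omega)]⟩
  | mul x y hx hy =>
    obtain ⟨n1, h1⟩ := hx
    obtain ⟨n2, h2⟩ := hy
    refine ⟨max n1 n2, fun n' h => ?_⟩
    rw [map_mul, h1 n' ((le_max_left _ _).trans h), h2 n' ((le_max_right _ _).trans h)]

theorem kill_comm (hβ : LevForm β) (n : ℕ) (w : FreeGroup (ℕ × W)) (x : FreeGroup W) :
    Commute (Phi β (kill_rt n w)) (Phi β (inc n x)) := by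
  induction w using FreeGroup.induction_on with
  | C1 =>
    rw [map_one, map_one]
    exact Commute.one_left _
  | of y =>
    rw [kill_rt_of]
    split_ifs with hy
    · induction x using FreeGroup.induction_on with
      | C1 =>
        rw [map_one, map_one]
        exact Commute.one_right _
      | of z =>
        rw [kill_inc_of]
        exact kill_gen_comm β hβ _ _ (by change y.1 ≠ n; omega)
      | inv_of z h =>
        rw [map_inv, map_inv]
        exact h.inv_right
      | mul z z' h h' =>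
        rw [map_mul, map_mul]
        exact h.mul_right h'
    · rw [map_one]
      exact Commute.one_left _
  | inv_of y h =>
    rw [map_inv, map_inv]
    exact h.inv_left
  | mul y z h h' =>
    rw [map_mul, map_mul]
    exact h.mul_left h'

theorem kill_step (hβ : LevForm β) (n : ℕ) (w : FreeGroup (ℕ × W)) :
    Phi β (kill_rt (n + 1) w) = Phi β (kill_rt n w) * Phi β (inc n (pr n w)) := by
  induction w using FreeGroup.induction_on with
  | C1 => simp only [map_one, mul_one]
  | of y =>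
    rw [kill_rt_of, kill_rt_of, kill_pr_of]
    rcases lt_trichotomy y.1 n with h | h | h
    · rw [if_pos (by omega), if_pos h, if_neg (by omega), map_one, map_one, mul_one]
    · rw [if_pos (by omega), if_neg (by omega), if_pos h, kill_inc_of, map_one, one_mul, ← h]
    · rw [if_neg (by omega), if_neg (by omega), if_neg (by omega), map_one, map_one, map_one,
        mul_one]
  | inv_of y h =>
    simp only [map_inv]
    rw [h, mul_inv_rev]
    exact ((kill_comm β hβ n _ _).inv_inv.eq).symm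
  | mul x y hx hy =>
    simp only [map_mul]
    rw [hx, hy]
    have h := (kill_comm β hβ n y (pr n x)).eq
    rw [mul_assoc, ← mul_assoc (Phi β (inc n (pr n x))), ← h]
    simp only [mul_assoc]

theorem kill_dec (hβ : LevForm β) (K : Subgroup (Heis β)) (w : FreeGroup (ℕ × W))
    (h : ∀ m, Phi β (inc m (pr m w)) ∈ K) : Phi β w ∈ K := by
  have h1 : ∀ n, Phi β (kill_rt n w) ∈ K := by
    intro n
    induction n with
    | zero =>
      have h2 : (kill_rt 0 : FreeGroup (ℕ × W) →* FreeGroup (ℕ × W)) = 1 := by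
        refine FreeGroup.ext_hom _ _ fun y => ?_
        rw [kill_rt_of, if_neg (Nat.not_lt_zero _), MonoidHom.one_apply]
      rw [h2, MonoidHom.one_apply, map_one]
      exact one_mem _
    | succ n ih =>
      rw [kill_step β hβ]
      exact mul_mem ih (h n)
  obtain ⟨n, hn⟩ := kill_rt_eq w
  have h2 := h1 n
  rw [hn n le_rfl] at h2
  exact h2

theorem kill_inc_g (m : ℕ) (x : FreeGroup W) (m' : ℕ) : (Phi β (inc m x)).g m' =
    if m' = m then (x : Mk W k) else 1 := by
  induction x using FreeGroup.induction_on with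
  | C1 =>
    rw [map_one, map_one, Heis.one_g, Pi.one_apply]
    split_ifs <;> rfl
  | of y =>
    rw [kill_inc_of, kill_phi_of]
    change (Pi.mulSingle m ((FreeGroup.of y : FreeGroup W) : Mk W k) : ℕ → Mk W k) m' = _
    split_ifs with h
    · rw [h, Pi.mulSingle_eq_same]
    · rw [Pi.mulSingle_eq_of_ne h]
  | inv_of y h =>
    rw [map_inv, map_inv, Heis.inv_g, Pi.inv_apply, h]
    split_ifs
    · rfl
    · exact inv_one
  | mul x y hx hy =>
    rw [map_mul, map_mul, Heis.mul_g, Pi.mul_apply, hx, hy]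
    split_ifs
    · rfl
    · exact one_mul _

theorem kill_inc_g_one (m : ℕ) (x : FreeGroup W) (hx : x ∈ stg W k) :
    (Phi β (inc m x)).g = 1 := by
  funext m'
  rw [kill_inc_g, Pi.one_apply]
  split_ifs
  · exact (QuotientGroup.eq_one_iff x).2 hx
  · rfl

/-- The central part. -/
def kill_cen : Subgroup (Heis β) where
  carrier := {a | a.v = 0 ∧ a.g = 1}
  one_mem' := ⟨rfl, rfl⟩
  mul_mem' := by
    rintro a b ⟨h1, h2⟩ ⟨h3, h4⟩
    refine ⟨?_, ?_⟩
    · rw [Heis.mul_v, h1, h3, tr_zero, add_zero]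
    · rw [Heis.mul_g, h2, h4, one_mul]
  inv_mem' := by
    rintro a ⟨h1, h2⟩
    refine ⟨?_, ?_⟩
    · rw [Heis.inv_v, h1, tr_zero]
    · rw [Heis.inv_g, h2, inv_one]

theorem kill_sq_cen (m : ℕ) (x : FreeGroup W) (hx : x ∈ stg W (k + 1)) :
    Phi β (inc m x) ∈ kill_cen β := by
  have h : stg W (k + 1) ≤ (kill_cen β).comap ((Phi β).comp (inc m)) := by
    change Subgroup.closure _ ≤ _
    rw [Subgroup.closure_le]
    rintro y ⟨u, hu, rfl⟩
    rw [SetLike.mem_coe, Subgroup.mem_comap, MonoidHom.comp_apply, map_mul, map_mul]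
    have h1 := kill_inc_g_one β m u hu
    refine ⟨?_, ?_⟩
    · rw [Heis.mul_v, h1, tr_one]
      exact add_self_chain _
    · rw [Heis.mul_g, h1, one_mul]
  exact h hx

theorem phi_cen (hβ : LevForm β) (w : FreeGroup (ℕ × W)) (hw : w ∈ RT W (k + 1)) :
    (Phi β w).v = 0 ∧ (Phi β w).g = 1 := by
  have h : Phi β w ∈ kill_cen β := by
    refine kill_dec β hβ _ w fun m => kill_sq_cen β m _ ?_
    exact (Subgroup.mem_iInf.1 hw m)
  exact h

theorem phi_kill (hβ : LevForm β) (w : FreeGroup (ℕ × W)) (hw : w ∈ RT W (k + 2)) :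
    Phi β w = 1 := by
  have h : Phi β w ∈ (⊥ : Subgroup (Heis β)) := by
    refine kill_dec β hβ _ w fun m => ?_
    have h1 : stg W (k + 2) ≤ (⊥ : Subgroup (Heis β)).comap ((Phi β).comp (inc m)) := by
      change Subgroup.closure _ ≤ _
      rw [Subgroup.closure_le]
      rintro y ⟨u, hu, rfl⟩
      rw [SetLike.mem_coe, Subgroup.mem_comap, MonoidHom.comp_apply, map_mul, map_mul,
        Subgroup.mem_bot]
      obtain ⟨h2, h3⟩ := kill_sq_cen β m u hu
      refine Heis.ext ?_ ?_ ?_
      · rw [Heis.mul_v, h2, tr_zero, add_zero, Heis.one_v]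
      · rw [Heis.mul_s, h2, tr_zero, bil_zero_left, add_zero, Heis.one_s]
        exact CharTwo.add_self_eq_zero _
      · rw [Heis.mul_g, h3, one_mul, Heis.one_g]
    exact h1 (Subgroup.mem_iInf.1 hw m)
  exact h

end

end Pool.Agent.ZM
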