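import Pool.Agent.Lib.MP_ff2384_gt.Noniso
import Pool.Agent.Lib.MP_ff2384_gt.Kill

set_option autoImplicit false

open Filter Topology

noncomputable section

namespace Pool.Agent.ZM

theorem nt_RT_anti (W : Type) {l m : ℕ} (h : l ≤ m) : RT W m ≤ RT W l :=
  antitone_nat_of_succ_le (f := RT W) (fun k => RT_succ_le k) h

theorem nt_FT_anti {W : Type} [LinearOrder W] {n n' : ℕ} {α α' : W} (hn : n ≤ n') (hα : α ≤ α') :
    FT n' α' ≤ FT n α := by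
  unfold FT
  rw [Subgroup.closure_le]
  rintro x ⟨m, γ, hm, hγ, rfl⟩
  exact Subgroup.subset_closure ⟨m, γ, hn.trans hm, hα.trans_lt hγ, rfl⟩

theorem nt_claim {W : Type} [LinearOrder W] {c : W → W → ℕ} (hc : Strong c) (hW : CofCount W)
    (P : ∀ k, ℕ → Set (TEdge W k)) (hP : ∀ k, Sepr (P k)) (k : ℕ)
    (B : ℕ → Set (Heis (frm c (P k)))) (hB : ∀ i, B (i + 1) ⊆ B i)
    (hcom : ∀ i, ∀ a ∈ B (i + 1), ∀ b ∈ B (i + 1), a * b * a⁻¹ * b⁻¹ ∈ B i)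
    (hbig : ∀ i n, ∀ α : W, ∃ w ∈ FT n α, w ∉ RT W (k + 1) ∧ Phi (frm c (P k)) w ∈ B i) (l : ℕ) :
    l ≤ k → ∀ i n, ∀ α : W, ∃ w ∈ FT n α, w ∈ RT W l ∧ w ∉ RT W (k + 1) ∧
      Phi (frm c (P k)) w ∈ B i := by
  induction l with
  | zero =>
    intro _ i n α
    obtain ⟨w, h1, h2, h3⟩ := hbig i n α
    exact ⟨w, h1, (mem_RT w).2 fun m => Subgroup.mem_top _, h2, h3⟩
  | succ l ih =>
    intro hl i n α
    by_contra hcon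
    push Not at hcon
    have hnl : ∀ w ∈ FT n α, w ∉ RT W (k + 1) → Phi (frm c (P k)) w ∈ B i → w ∉ RT W (l + 1) :=
      fun w h1 h2 h3 h4 => hcon w h1 h4 h2 h3
    obtain ⟨u, hu, v, hv, huv⟩ := noniso hc hW (hP l)
      {w | w ∈ FT n α ∧ w ∈ RT W l ∧ w ∉ RT W (k + 1) ∧ Phi (frm c (P k)) w ∈ B (i + 1)}
      (fun w hw => hw.2.1) (fun α' => by
        obtain ⟨w, h1, h2, h3, h4⟩ := ih (by omega) (i + 1) n (max α α')
        have h5 : w ∈ FT n α := nt_FT_anti le_rfl (le_max_left _ _) h1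
        exact ⟨w, ⟨h5, h2, h3, h4⟩, nt_FT_anti (Nat.zero_le _) (le_max_right _ _) h1,
          hnl w h5 h3 (hB i h4)⟩)
    have hx1 : u * v * u⁻¹ * v⁻¹ ∈ FT n α :=
      mul_mem (mul_mem (mul_mem hu.1 hv.1) (inv_mem hu.1)) (inv_mem hv.1)
    have hx2 : u * v * u⁻¹ * v⁻¹ ∈ RT W (l + 1) := comm_mem_RT u v hu.2.1 hv.2.1
    have hx3 : u * v * u⁻¹ * v⁻¹ ∉ RT W (k + 1) := fun h =>
      huv (phi_kill (frm c (P l)) (levForm_frm c (P l)) _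
        (nt_RT_anti W (show l + 2 ≤ k + 1 by omega) h))
    have hx4 : Phi (frm c (P k)) (u * v * u⁻¹ * v⁻¹) ∈ B i := by
      rw [map_mul, map_mul, map_mul, map_inv, map_inv]
      exact hcom i _ hu.2.2.2 _ hv.2.2.2
    exact hnl _ hx1 hx3 hx4 hx2

theorem nt {W : Type} [LinearOrder W] {c : W → W → ℕ} (hc : Strong c) (hW : CofCount W)
    (P : ∀ k, ℕ → Set (TEdge W k)) (hP : ∀ k, Sepr (P k)) (k : ℕ)
    (B : ℕ → Set (Heis (frm c (P k)))) (hB : ∀ i, B (i + 1) ⊆ B i)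
    (hcom : ∀ i, ∀ a ∈ B (i + 1), ∀ b ∈ B (i + 1), a * b * a⁻¹ * b⁻¹ ∈ B i)
    (hbig : ∀ i n, ∀ α : W, ∃ w ∈ FT n α, w ∉ RT W (k + 1) ∧ Phi (frm c (P k)) w ∈ B i) :
    ∃ a ∈ B 0, a ≠ 1 ∧ a.v = 0 ∧ a.g = 1 := by
  obtain ⟨u, hu, v, hv, huv⟩ := noniso hc hW (hP k)
    {w | w ∈ RT W k ∧ w ∉ RT W (k + 1) ∧ Phi (frm c (P k)) w ∈ B 1}
    (fun w hw => hw.1) (fun α' => by
      obtain ⟨w, h1, h2, h3, h4⟩ := nt_claim hc hW P hP k B hB hcom hbig k le_rfl 1 0 α'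
      exact ⟨w, ⟨h2, h3, h4⟩, h1, h3⟩)
  have hx2 : u * v * u⁻¹ * v⁻¹ ∈ RT W (k + 1) := comm_mem_RT u v hu.1 hv.1
  have hx4 : Phi (frm c (P k)) (u * v * u⁻¹ * v⁻¹) ∈ B 0 := by
    rw [map_mul, map_mul, map_mul, map_inv, map_inv]
    exact hcom 0 _ hu.2.2 _ hv.2.2
  obtain ⟨h1, h2⟩ := phi_cen (frm c (P k)) (levForm_frm c (P k)) _ hx2
  exact ⟨_, hx4, huv, h1, h2⟩

end Pool.Agent.ZM
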