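import Pool.Agent.Lib.MP_ff2384_gt.Defs

/-!
# MP_ff2384_gt: the product is not minimal
-/

set_option autoImplicit false

open Filter Topology

noncomputable section

namespace Pool.Agent.ZM

section
variable {U Λ : Type} [Group U] [Group Λ] [TopologicalSpace U] (φ : Λ →* MulAut U)

theorem prod_sd_left : Continuous fun x : U ⋊[φ] Λ => x.left := by
  let _ : TopologicalSpace Λ := ⊥
  exact continuous_fst.comp (continuous_induced_dom (f := fun x : U ⋊[φ] Λ => (x.left, x.right)))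

theorem prod_sd_right (s : Set Λ) : IsOpen {x : U ⋊[φ] Λ | x.right ∈ s} := by
  let _ : TopologicalSpace Λ := ⊥
  have _ : DiscreteTopology Λ := ⟨rfl⟩
  have h : Continuous fun x : U ⋊[φ] Λ => x.right :=
    continuous_snd.comp (continuous_induced_dom (f := fun x : U ⋊[φ] Λ => (x.left, x.right)))
  exact (isOpen_discrete s).preimage h

end

/-- Finitely many members of a directed family. -/
theorem prod_dir {F J : Type} [Group F] [Nonempty J] (S : J → Subgroup F)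
    (hdir : ∀ i j, ∃ l, S l ≤ S i ∧ S l ≤ S j) (f : ℕ → J) (n : ℕ) :
    ∃ l, ∀ k ≤ n, S l ≤ S (f k) := by
  induction n with
  | zero =>
    refine ⟨f 0, fun k hk => ?_⟩
    rw [Nat.le_zero.1 hk]
  | succ n ih =>
    obtain ⟨l, hl⟩ := ih
    obtain ⟨m, h1, h2⟩ := hdir l (f (n + 1))
    refine ⟨m, fun k hk => ?_⟩
    rcases Nat.lt_or_ge n k with h | h
    · have : k = n + 1 := by omega
      rw [this]
      exact h2
    · exact h1.trans (hl k h)

section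
variable {F J : Type} [Group F] {S : J → Subgroup F} {U Λ : ℕ → Type} [∀ k, Group (U k)]
  [∀ k, Group (Λ k)] {φ : ∀ k, Λ k →* MulAut (U k)} (Φ : ∀ k, F →* Λ k)

/-- Basic neighbourhoods. -/
def prod_V (S : J → Subgroup F) (φ : ∀ k, Λ k →* MulAut (U k)) (Φ : ∀ k, F →* Λ k) (n : ℕ)
    (O : ∀ k, Set (U k)) (j : J) : Set (∀ k, U k ⋊[φ k] Λ k) :=
  {x | (∀ k ≤ n, (x k).left ∈ O k) ∧ ∃ w ∈ S j, ∀ k ≤ n, (x k).right = Φ k w}

theorem prod_V_sub {n n' : ℕ} {O O' : ∀ k, Set (U k)} {j j' : J} (hn : n ≤ n')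
    (hO : ∀ k, O' k ⊆ O k) (hj : S j' ≤ S j) :
    prod_V S φ Φ n' O' j' ⊆ prod_V S φ Φ n O j := by
  rintro x ⟨h1, w, hw, h2⟩
  exact ⟨fun k hk => hO k (h1 k (hk.trans hn)), w, hj hw, fun k hk => h2 k (hk.trans hn)⟩

end

/-- The filter basis. -/
@[reducible]
def prod_basis {F J : Type} [Group F] [Nonempty J] (S : J → Subgroup F)
    (hdir : ∀ i j, ∃ l, S l ≤ S i ∧ S l ≤ S j) (U Λ : ℕ → Type) [∀ k, Group (U k)]
    [∀ k, Group (Λ k)] [∀ k, TopologicalSpace (U k)] [∀ k, IsTopologicalGroup (U k)]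
    (φ : ∀ k, Λ k →* MulAut (U k)) (hφ : ∀ k a, Continuous (φ k a))
    (Φ : ∀ k, F →* Λ k) (comm : ∀ k (b : Λ k), ∃ j, ∀ w ∈ S j, Commute b (Φ k w))
    (loc : ∀ k, ∀ O ∈ 𝓝 (1 : U k), ∃ j, ∀ w ∈ S j, ∀ u, φ k (Φ k w) u * u⁻¹ ∈ O) :
    GroupFilterBasis (∀ k, U k ⋊[φ k] Λ k) where
  sets := {V | ∃ (n : ℕ) (O : ∀ k, Set (U k)) (j : J), (∀ k, O k ∈ 𝓝 1) ∧
    V = prod_V S φ Φ n O j}
  nonempty := by
    obtain ⟨j⟩ := ‹Nonempty J›
    exact ⟨_, 0, fun _ => Set.univ, j, fun _ => univ_mem, rfl⟩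
  inter_sets := by
    rintro _ _ ⟨n, O, j, hO, rfl⟩ ⟨n', O', j', hO', rfl⟩
    obtain ⟨l, h1, h2⟩ := hdir j j'
    refine ⟨_, ⟨max n n', fun k => O k ∩ O' k, l, fun k => inter_mem (hO k) (hO' k), rfl⟩, ?_⟩
    exact Set.subset_inter (prod_V_sub Φ (le_max_left _ _) (fun k => Set.inter_subset_left) h1)
      (prod_V_sub Φ (le_max_right _ _) (fun k => Set.inter_subset_right) h2)
  one' := by
    rintro _ ⟨n, O, j, hO, rfl⟩
    refine ⟨fun k _ => mem_of_mem_nhds (hO k), 1, one_mem _, fun k _ => ?_⟩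
    rw [map_one]
    rfl
  mul' := by
    rintro _ ⟨n, O, j, hO, rfl⟩
    have h1 : ∀ k, ∃ O' ∈ 𝓝 (1 : U k), ∀ a ∈ O', ∀ b ∈ O', ∀ c ∈ O', a * b * c ∈ O k := by
      intro k
      obtain ⟨V1, hV1, h1⟩ := exists_nhds_one_split (hO k)
      obtain ⟨V2, hV2, h2⟩ := exists_nhds_one_split hV1
      exact ⟨V1 ∩ V2, inter_mem hV1 hV2, fun a ha b hb c hc => h1 _ (h2 a ha.2 b hb.2) c hc.1⟩
    choose O' hO' h1 using h1
    choose f hf using fun k => loc k (O' k) (hO' k)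
    obtain ⟨l, hl⟩ := prod_dir S hdir f n
    obtain ⟨j', hj1, hj2⟩ := hdir j l
    refine ⟨_, ⟨n, O', j', hO', rfl⟩, ?_⟩
    rintro _ ⟨x, ⟨hx1, w, hw, hx2⟩, y, ⟨hy1, w', hw', hy2⟩, rfl⟩
    refine ⟨fun k hk => ?_, w * w', mul_mem (hj1 hw) (hj1 hw'), fun k hk => ?_⟩
    · have h2 : ((x * y) k).left = (x k).left * (φ k (Φ k w) (y k).left * (y k).left⁻¹) *
          (y k).left := by
        show (x k).left * φ k (x k).right (y k).left = _
        rw [hx2 k hk]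
        group
      show ((x * y) k).left ∈ O k
      rw [h2]
      exact h1 k _ (hx1 k hk) _ (hf k w (hl k hk (hj2 hw)) _) _ (hy1 k hk)
    · show (x k).right * (y k).right = _
      rw [hx2 k hk, hy2 k hk, map_mul]
  inv' := by
    rintro _ ⟨n, O, j, hO, rfl⟩
    have h1 : ∀ k, ∃ O' ∈ 𝓝 (1 : U k), ∀ a ∈ O', ∀ b ∈ O', a * b⁻¹ ∈ O k := by
      intro k
      obtain ⟨V1, hV1, h1⟩ := exists_nhds_one_split (hO k)
      refine ⟨V1 ∩ V1⁻¹, inter_mem hV1 (inv_mem_nhds_one _ hV1), fun a ha b hb => ?_⟩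
      exact h1 a ha.1 b⁻¹ hb.2
    choose O' hO' h1 using h1
    choose f hf using fun k => loc k (O' k) (hO' k)
    obtain ⟨l, hl⟩ := prod_dir S hdir f n
    obtain ⟨j', hj1, hj2⟩ := hdir j l
    refine ⟨_, ⟨n, O', j', hO', rfl⟩, ?_⟩
    rintro x ⟨hx1, w, hw, hx2⟩
    refine ⟨fun k hk => ?_, w⁻¹, inv_mem (hj1 hw), fun k hk => ?_⟩
    · have h2 : ((x⁻¹) k).left = (φ k (Φ k w⁻¹) ((x k).left⁻¹) * ((x k).left⁻¹)⁻¹) *
          (x k).left⁻¹ := by
        show φ k ((x k).right)⁻¹ ((x k).left⁻¹) = _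
        rw [hx2 k hk, map_inv (Φ k)]
        group
      show ((x⁻¹) k).left ∈ O k
      rw [h2]
      exact h1 k _ (hf k w⁻¹ (hl k hk (hj2 (inv_mem hw))) _) _ (hx1 k hk)
    · show ((x k).right)⁻¹ = _
      rw [hx2 k hk, map_inv]
  conj' := by
    rintro x₀ _ ⟨n, O, j, hO, rfl⟩
    have h1 : ∀ k, ∃ V ∈ 𝓝 (1 : U k), ∀ a ∈ V, ∀ b ∈ V, a * b ∈ O k :=
      fun k => exists_nhds_one_split (hO k)
    choose V hV h1 using h1
    have h2 : ∀ k, {u : U k | (x₀ k).left * φ k (x₀ k).right u * ((x₀ k).left)⁻¹ ∈ V k} ∈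
        𝓝 (1 : U k) := by
      intro k
      have hc : Continuous fun u : U k => (x₀ k).left * φ k (x₀ k).right u * ((x₀ k).left)⁻¹ := by
        have := hφ k (x₀ k).right
        fun_prop
      have ht := hc.tendsto 1
      rw [map_one, mul_one, mul_inv_cancel] at ht
      exact ht (hV k)
    have h3 : ∀ k, {u : U k | (x₀ k).left * u * ((x₀ k).left)⁻¹ ∈ V k} ∈ 𝓝 (1 : U k) := by
      intro k
      have hc : Continuous fun u : U k => (x₀ k).left * u * ((x₀ k).left)⁻¹ := by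
        fun_prop
      have ht := hc.tendsto 1
      rw [mul_one, mul_inv_cancel] at ht
      exact ht (hV k)
    choose f hf using fun k => loc k _ (h3 k)
    choose g hg using fun k => comm k (x₀ k).right
    obtain ⟨l, hl⟩ := prod_dir S hdir f n
    obtain ⟨m, hm⟩ := prod_dir S hdir g n
    obtain ⟨j₁, hj1, hj2⟩ := hdir j l
    obtain ⟨j', hj3, hj4⟩ := hdir j₁ m
    refine ⟨_, ⟨n, _, j', h2, rfl⟩, ?_⟩
    rintro x ⟨hx1, w, hw, hx2⟩
    have hcomm : ∀ k ≤ n, (x₀ k).right * Φ k w * ((x₀ k).right)⁻¹ = Φ k w := by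
      intro k hk
      have := hg k w (hm k hk (hj4 hw))
      rw [this.eq, mul_assoc, mul_inv_cancel, mul_one]
    refine ⟨fun k hk => ?_, w, hj1 (hj3 hw), fun k hk => ?_⟩
    · have h4 : ((x₀ * x * x₀⁻¹) k).left =
          ((x₀ k).left * φ k (x₀ k).right (x k).left * ((x₀ k).left)⁻¹) *
          ((x₀ k).left * (φ k (Φ k w) ((x₀ k).left⁻¹) * ((x₀ k).left⁻¹)⁻¹) *
            ((x₀ k).left)⁻¹) := by
        show (x₀ k).left * φ k (x₀ k).right (x k).left *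
          φ k ((x₀ k).right * (x k).right) (φ k ((x₀ k).right)⁻¹ ((x₀ k).left⁻¹)) = _
        rw [hx2 k hk, ← MulAut.mul_apply, ← map_mul, hcomm k hk]
        group
      show ((x₀ * x * x₀⁻¹) k).left ∈ O k
      rw [h4]
      exact h1 k _ (hx1 k hk) _ (hf k w (hl k hk (hj2 (hj3 hw))) _)
    · show (x₀ k).right * (x k).right * ((x₀ k).right)⁻¹ = _
      rw [hx2 k hk]
      exact hcomm k hk

theorem prod_not_min {F J : Type} [Group F] [Nonempty J] (S : J → Subgroup F)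
    (hdir : ∀ i j, ∃ l, S l ≤ S i ∧ S l ≤ S j) (U Λ : ℕ → Type) [∀ k, Group (U k)]
    [∀ k, Group (Λ k)] [∀ k, TopologicalSpace (U k)] [∀ k, IsTopologicalGroup (U k)]
    [∀ k, T2Space (U k)] (φ : ∀ k, Λ k →* MulAut (U k)) (hφ : ∀ k a, Continuous (φ k a))
    (Φ : ∀ k, F →* Λ k) (comm : ∀ k (b : Λ k), ∃ j, ∀ w ∈ S j, Commute b (Φ k w))
    (sep : ∀ x : ∀ k, Λ k, (∀ n j, ∃ w ∈ S j, ∀ k ≤ n, x k = Φ k w) → x = 1)
    (loc : ∀ k, ∀ O ∈ 𝓝 (1 : U k), ∃ j, ∀ w ∈ S j, ∀ u, φ k (Φ k w) u * u⁻¹ ∈ O)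
    (ns : ∀ j, ∃ w ∈ S j, Φ 0 w ≠ 1) : ¬ IsMin (∀ k, U k ⋊[φ k] Λ k) := by
  rintro ⟨htg, -, hmin⟩
  set B := prod_basis S hdir U Λ φ hφ Φ comm loc with hB
  have hproj : ∀ k, Continuous fun x : (∀ k, U k ⋊[φ k] Λ k) => x k :=
    fun k => continuous_apply k
  have hmem : ∀ (n : ℕ) (O : ∀ k, Set (U k)) (j : J), (∀ k, O k ∈ 𝓝 1) →
      prod_V S φ Φ n O j ∈ @nhds _ B.topology 1 :=
    fun n O j hO => B.mem_nhds_one ⟨n, O, j, hO, rfl⟩
  have hT2 : @T2Space _ B.topology := by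
    refine @IsTopologicalGroup.t2Space_of_one_sep _ B.topology _ B.isTopologicalGroup ?_
    intro x hx
    by_cases hr : (fun k => (x k).right) = 1
    · have hl : ∃ k, (x k).left ≠ 1 := by
        by_contra hcon
        push Not at hcon
        apply hx
        funext k
        exact SemidirectProduct.ext (hcon k) (congrFun hr k)
      obtain ⟨k, hk⟩ := hl
      obtain ⟨j⟩ := ‹Nonempty J›
      classical
      refine ⟨_, hmem k (fun i => if i = k then {u | ∀ h : i = k, u ≠ (x i).left} else Set.univ) j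
        (fun i => ?_), ?_⟩
      · by_cases h : i = k
        · subst h
          rw [if_pos rfl]
          have : {u : U i | ∀ h : i = i, u ≠ (x i).left} = {(x i).left}ᶜ := by
            ext u
            simp
          rw [this]
          exact compl_singleton_mem_nhds hk.symm
        · rw [if_neg h]
          exact univ_mem
      · rintro ⟨h1, -⟩
        have := h1 k le_rfl
        change (x k).left ∈ (if k = k then {u | ∀ h : k = k, u ≠ (x k).left} else Set.univ) at this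
        rw [if_pos rfl] at this
        exact this rfl rfl
    · have h1 : ¬ ∀ n j, ∃ w ∈ S j, ∀ k ≤ n, (fun k => (x k).right) k = Φ k w :=
        fun h => hr (sep _ h)
      push Not at h1
      obtain ⟨n, j, h1⟩ := h1
      refine ⟨_, hmem n (fun _ => Set.univ) j (fun _ => univ_mem), ?_⟩
      rintro ⟨-, w, hw, h2⟩
      obtain ⟨k, hk, h3⟩ := h1 w hw
      exact h3 (h2 k hk)
  have hnhds : ∀ s : Set (∀ k, U k ⋊[φ k] Λ k), s ∈ @nhds _ B.topology 1 → s ∈ 𝓝 1 := by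
    intro s hs
    rw [B.nhds_one_hasBasis.mem_iff] at hs
    obtain ⟨_, ⟨n, O, j, hO, rfl⟩, hV⟩ := hs
    refine mem_of_superset ?_ hV
    have h1 : ∀ k, {x : ∀ k, U k ⋊[φ k] Λ k | (x k).left ∈ O k ∧ (x k).right ∈ ({1} : Set _)} ∈
        𝓝 (1 : ∀ k, U k ⋊[φ k] Λ k) := by
      intro k
      have hc : Continuous fun x : ∀ k, U k ⋊[φ k] Λ k => (x k).left :=
        (prod_sd_left (φ k)).comp (hproj k)
      have ho : IsOpen {x : ∀ k, U k ⋊[φ k] Λ k | (x k).right ∈ ({1} : Set (Λ k))} :=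
        (prod_sd_right (φ k) {1}).preimage (hproj k)
      exact inter_mem (hc.tendsto 1 (hO k)) (ho.mem_nhds rfl)
    have h2 : (⋂ k ∈ Finset.range (n + 1), {x : ∀ k, U k ⋊[φ k] Λ k | (x k).left ∈ O k ∧
        (x k).right ∈ ({1} : Set _)}) ∈ 𝓝 (1 : ∀ k, U k ⋊[φ k] Λ k) :=
      (Filter.biInter_finset_mem _).2 fun k _ => h1 k
    refine mem_of_superset h2 ?_
    intro x hx
    rw [Set.mem_iInter₂] at hx
    have hx' : ∀ k ≤ n, (x k).left ∈ O k ∧ (x k).right = 1 :=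
      fun k hk => hx k (Finset.mem_range.2 (by omega))
    refine ⟨fun k hk => (hx' k hk).1, 1, one_mem _, fun k hk => ?_⟩
    rw [(hx' k hk).2, map_one]
  have hcoarse : ∀ s : Set (∀ k, U k ⋊[φ k] Λ k), IsOpen[B.topology] s → IsOpen s := by
    intro s hs
    rw [isOpen_iff_mem_nhds]
    intro x hx
    have h1 : s ∈ @nhds _ B.topology x := @IsOpen.mem_nhds _ B.topology x s hs hx
    have h2 : (fun y => x * y) ⁻¹' s ∈ @nhds _ B.topology 1 := by
      rw [B.nhds_eq] at h1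
      rw [B.nhds_one_eq]
      exact h1
    have h3 := hnhds _ h2
    have h4 : Tendsto (fun y => x⁻¹ * y) (𝓝 x) (𝓝 1) := by
      have h5 : Continuous fun y : ∀ k, U k ⋊[φ k] Λ k => x⁻¹ * y := continuous_const_mul _
      have h6 := h5.tendsto x
      rwa [inv_mul_cancel] at h6
    have h7 := h4 h3
    refine mem_of_superset h7 ?_
    intro y hy
    have : x * (x⁻¹ * y) ∈ s := hy
    rwa [mul_inv_cancel_left] at this
  have hopen : IsOpen {x : ∀ k, U k ⋊[φ k] Λ k | (x 0).right ∈ ({1} : Set (Λ 0))} :=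
    (prod_sd_right (φ 0) {1}).preimage (hproj 0)
  have h1 := hmin B.topology B.isTopologicalGroup hT2 hcoarse _ hopen
  have h2 : {x : ∀ k, U k ⋊[φ k] Λ k | (x 0).right ∈ ({1} : Set (Λ 0))} ∈
      @nhds _ B.topology 1 := @IsOpen.mem_nhds _ B.topology 1 _ h1 rfl
  rw [B.nhds_one_hasBasis.mem_iff] at h2
  obtain ⟨_, ⟨n, O, j, hO, rfl⟩, hV⟩ := h2
  obtain ⟨w, hw, hne⟩ := ns j
  have h3 : (fun k => (⟨1, Φ k w⟩ : U k ⋊[φ k] Λ k)) ∈ prod_V S φ Φ n O j :=
    ⟨fun k _ => mem_of_mem_nhds (hO k), w, hw, fun k _ => rfl⟩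
  exact hne (hV h3)

end Pool.Agent.ZM
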