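import Pool.Agent.Lib.MP_ff2384_gt.Defs

set_option autoImplicit false

open Filter Topology

noncomputable section

namespace Pool.Agent.ZM

theorem quot_ind_group {G H : Type} [Group G] [Group H] (σ : TopologicalSpace H)
    (hσ : IsTopologicalGroup H) (e : G ≃* H) :
    @IsTopologicalGroup G (TopologicalSpace.induced e σ) _ := topologicalGroup_induced e

theorem quot_ind_t2 {G H : Type} [Group G] [Group H] (σ : TopologicalSpace H)
    (hσ : T2Space H) (e : G ≃* H) :
    @T2Space G (TopologicalSpace.induced e σ) := by
  let τ : TopologicalSpace G := TopologicalSpace.induced e σ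
  exact T2Space.of_injective_continuous e.injective continuous_induced_dom

theorem IsMin.congr {G H : Type} [Group G] [Group H] [TopologicalSpace G] [TopologicalSpace H]
    (e : G ≃* H) (h1 : Continuous e) (h2 : Continuous e.symm) (h : IsMin G) : IsMin H := by
  obtain ⟨hg, ht, hm⟩ := h
  have hpre : ∀ u : Set H, IsOpen u → IsOpen (e ⁻¹' u) := fun u hu => hu.preimage h1
  refine ⟨?_, ?_, ?_⟩
  · have hmul : Continuous fun p : H × H => p.1 * p.2 := by
      have h3 : (fun p : H × H => p.1 * p.2) = fun p => e (e.symm p.1 * e.symm p.2) := by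
        funext p
        simp
      rw [h3]
      exact h1.comp ((h2.comp continuous_fst).mul (h2.comp continuous_snd))
    have hinv : Continuous fun p : H => p⁻¹ := by
      have h3 : (fun p : H => p⁻¹) = fun p => e (e.symm p)⁻¹ := by
        funext p
        simp
      rw [h3]
      exact h1.comp h2.inv
    exact { continuous_mul := hmul, continuous_inv := hinv }
  · exact T2Space.of_injective_continuous e.symm.injective h2
  · intro σ hσg hσt hσ s hs
    have hcont : ∀ t : Set G, IsOpen[TopologicalSpace.induced e σ] t → IsOpen t := by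
      intro t ht'
      obtain ⟨u, hu, rfl⟩ := isOpen_induced_iff.1 ht'
      exact hpre u (hσ u hu)
    have h3 := hm (TopologicalSpace.induced e σ) (quot_ind_group σ hσg e) (quot_ind_t2 σ hσt e)
      hcont (e ⁻¹' s) (hpre s hs)
    obtain ⟨u, hu, hu'⟩ := isOpen_induced_iff.1 h3
    have h4 : u = s := by
      ext x
      have h5 := congrArg (fun t : Set G => e.symm x ∈ t) hu'
      simp only [Set.mem_preimage, MulEquiv.apply_symm_apply, eq_iff_iff] at h5
      exact h5
    rw [← h4]
    exact hu

/-- The quotient by the kernel. -/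
theorem quot_iff_ker {G H : Type} [Group G] [Group H] [TopologicalSpace G] [TopologicalSpace H]
    [IsTopologicalGroup G] [IsTopologicalGroup H] (π : G →* H) (h1 : Continuous π)
    (h2 : IsOpenMap π) (h3 : Function.Surjective π) :
    IsMin (G ⧸ π.ker) ↔ IsMin H := by
  have hc : Continuous (QuotientGroup.quotientKerEquivOfSurjective π h3) := by
    rw [QuotientGroup.isOpenQuotientMap_mk.isQuotientMap.continuous_iff]
    exact h1
  have hc' : Continuous (QuotientGroup.quotientKerEquivOfSurjective π h3).symm := by
    have hq : IsQuotientMap π := h2.isQuotientMap h1 h3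
    rw [hq.continuous_iff]
    have h4 : (QuotientGroup.quotientKerEquivOfSurjective π h3).symm ∘ π =
        (QuotientGroup.mk : G → G ⧸ π.ker) := by
      funext x
      rw [Function.comp_apply, MulEquiv.symm_apply_eq]
      rfl
    rw [h4]
    exact QuotientGroup.isOpenQuotientMap_mk.continuous
  exact ⟨IsMin.congr _ hc hc', IsMin.congr (QuotientGroup.quotientKerEquivOfSurjective π h3).symm
    hc' hc⟩

theorem isMin_quot_iff {G H : Type} [Group G] [Group H] [TopologicalSpace G] [TopologicalSpace H]
    [IsTopologicalGroup G] [IsTopologicalGroup H] (π : G →* H) (h1 : Continuous π)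
    (h2 : IsOpenMap π) (h3 : Function.Surjective π) (h4 : π.ker = Subgroup.center G) :
    IsMin (G ⧸ Subgroup.center G) ↔ IsMin H := by
  have key : ∀ (K : Subgroup G) [K.Normal], π.ker = K → (IsMin (G ⧸ K) ↔ IsMin H) := by
    intro K hK hK'
    subst hK'
    exact quot_iff_ker π h1 h2 h3
  exact key _ h4

theorem isMin_quot_pi_iff {G H : ℕ → Type} [∀ k, Group (G k)] [∀ k, Group (H k)]
    [∀ k, TopologicalSpace (G k)] [∀ k, TopologicalSpace (H k)]
    [∀ k, IsTopologicalGroup (G k)] [∀ k, IsTopologicalGroup (H k)] (π : ∀ k, G k →* H k)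
    (h1 : ∀ k, Continuous (π k)) (h2 : ∀ k, IsOpenMap (π k))
    (h3 : ∀ k, Function.Surjective (π k)) (h4 : ∀ k, (π k).ker = Subgroup.center (G k)) :
    IsMin ((∀ k, G k) ⧸ Subgroup.center (∀ k, G k)) ↔ IsMin (∀ k, H k) := by
  let pk : (∀ k, G k) →* (∀ k, H k) :=
    { toFun := fun x k => π k (x k)
      map_one' := by
        funext k
        exact map_one _
      map_mul' := fun x y => by
        funext k
        exact map_mul _ _ _ }
  refine isMin_quot_iff pk ?_ ?_ ?_ ?_
  · exact continuous_pi fun k => (h1 k).comp (continuous_apply k)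
  · exact IsOpenMap.piMap (f := fun k => (π k : G k → H k)) h2 (Eventually.of_forall h3)
  · intro y
    choose x hx using fun k => h3 k (y k)
    exact ⟨x, funext hx⟩
  · ext x
    rw [MonoidHom.mem_ker, Subgroup.mem_center_iff]
    constructor
    · intro h y
      funext k
      have h5 : x k ∈ Subgroup.center (G k) := by
        rw [← h4 k, MonoidHom.mem_ker]
        exact congrFun h k
      exact Subgroup.mem_center_iff.1 h5 (y k)
    · intro h
      funext k
      have h5 : x k ∈ (π k).ker := by
        rw [h4 k, Subgroup.mem_center_iff]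
        intro g
        have h6 := congrFun (h (Pi.mulSingle k g)) k
        rw [Pi.mul_apply, Pi.mul_apply, Pi.mulSingle_eq_same] at h6
        exact h6
      exact h5

end Pool.Agent.ZM
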