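import Pool.Agent.Lib.MP_ff2384_gt.Defs

set_option autoImplicit false

open Filter Topology Cardinal

noncomputable section

namespace Pool.Agent.ZM

theorem sepr_inj {W : Type} (f : W → ℕ → ℕ) (hf : Function.Injective f) (k : ℕ) :
    ∃ ρ : TEdge W k → ℕ → Bool, Function.Injective ρ := by
  have h0 : #(ℕ → ℕ) ≤ continuum := by
    rw [← Cardinal.power_def, Cardinal.mk_nat, Cardinal.aleph0_power_aleph0]
  have h1 : #W ≤ continuum := (Cardinal.mk_le_of_injective hf).trans h0
  have hF : #(FreeGroup W) ≤ continuum := by
    have h2 : #(FreeGroup W) ≤ #(List (W × Bool)) :=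
      Cardinal.mk_le_of_injective (f := fun w : FreeGroup W => (Quot.out w : List (W × Bool)))
        (fun a b h => by
          have h3 := congrArg (Quot.mk (FreeGroup.Red.Step)) h
          rw [← Quot.out_eq a, ← Quot.out_eq b]
          exact h3)
    refine h2.trans ((Cardinal.mk_list_le_max _).trans (max_le aleph0_le_continuum ?_))
    rw [Cardinal.mk_prod, Cardinal.lift_id, Cardinal.lift_id]
    exact Cardinal.mul_le_of_le aleph0_le_continuum h1
      (Cardinal.mk_le_aleph0.trans aleph0_le_continuum)
  have hM : #(Mk W k) ≤ continuum := Cardinal.mk_quotient_le.trans hF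
  have hE : #(TEdge W k) ≤ #(ℕ × Mk W k × W) :=
    Cardinal.mk_le_of_injective (f := fun e : TEdge W k => (e.lev, e.h, e.x)) (fun a b h => by
      simp only [Prod.mk.injEq] at h
      exact TEdge.ext h.1 h.2.1 h.2.2)
  have h2 : #(TEdge W k) ≤ #(ℕ → Bool) := by
    rw [← Cardinal.power_def, Cardinal.mk_nat, Cardinal.mk_bool, Cardinal.two_power_aleph0]
    refine hE.trans ?_
    rw [Cardinal.mk_prod, Cardinal.mk_prod]
    simp only [Cardinal.lift_id, Cardinal.mk_nat]
    calc ℵ₀ * (#(Mk W k) * #W) ≤ continuum * (continuum * continuum) :=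
          mul_le_mul' aleph0_le_continuum (mul_le_mul' hM h1)
      _ = continuum := by rw [continuum_mul_self, continuum_mul_self]
  obtain ⟨ρ⟩ := h2
  exact ⟨ρ, ρ.injective⟩

theorem exists_sepr {W : Type} (f : W → ℕ → ℕ) (hf : Function.Injective f) (k : ℕ) :
    ∃ P : ℕ → Set (TEdge W k), Sepr P := by
  classical
  obtain ⟨ρ, hρ⟩ := sepr_inj f hf k
  refine ⟨fun p => {e | ((Encodable.decode p : Option (List Bool)).getD []) =
    (List.range ((Encodable.decode p : Option (List Bool)).getD []).length).map (ρ e)}, ?_⟩
  intro T e he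
  have h1 : ∀ e' : TEdge W k, ∃ n, e' ≠ e → ρ e' n ≠ ρ e n := by
    intro e'
    by_cases h : e' = e
    · exact ⟨0, fun h' => absurd h h'⟩
    · have h2 : ρ e' ≠ ρ e := fun h3 => h (hρ h3)
      obtain ⟨n, hn⟩ := Function.ne_iff.1 h2
      exact ⟨n, fun _ => hn⟩
  choose n hn using h1
  set L := T.sup n + 1 with hL
  set s : List Bool := (List.range L).map (ρ e) with hs
  refine ⟨Encodable.encode s, ?_, ?_⟩
  · change ((Encodable.decode (Encodable.encode s) : Option (List Bool)).getD []) = _
    rw [Encodable.encodek, Option.getD_some, hs, List.length_map, List.length_range]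
  · intro e' he' hne h2
    change ((Encodable.decode (Encodable.encode s) : Option (List Bool)).getD []) = _ at h2
    rw [Encodable.encodek, Option.getD_some, hs, List.length_map, List.length_range] at h2
    have h3 : n e' < L := Nat.lt_succ_of_le (Finset.le_sup he')
    have h4 := congrArg (fun l => l[n e']?) h2
    simp only [List.getElem?_map, List.getElem?_range h3, Option.map_some, Option.some.injEq] at h4
    exact hn e' hne h4.symm

end Pool.Agent.ZM
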