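import Pool.Agent.Lib.MP_ff2384_gt.Strong
import Pool.Agent.Lib.MP_ff2384_gt.Sepr
import Pool.Agent.Lib.MP_ff2384_gt.Nt
import Pool.Agent.Lib.MP_ff2384_gt.Comm
import Pool.Agent.Lib.MP_ff2384_gt.Min
import Pool.Agent.Lib.MP_ff2384_gt.Quot
import Pool.Agent.Lib.MP_ff2384_gt.Prod
import Pool.Agent.Lib.MP_ff2384_gt.Gadget
import Pool.Agent.Lib.MP_ff2384_gt.Actx
import Pool.Agent.Lib.MP_ff2384_gt.Center

set_option autoImplicit false

open Filter Topology

noncomputable section

namespace Pool.Agent.ZM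

section
variable {W : Type} [LinearOrder W] (c : W → W → ℕ) (P : ∀ k, ℕ → Set (TEdge W k))

/-- The discrete groups. -/
abbrev LK (k : ℕ) : Type := Lam (frm c (P k))

/-- The homomorphisms from the free group to the discrete groups. -/
def PK (k : ℕ) : FreeGroup (ℕ × W) →* LK c P k :=
  (Phi (frm c (P k))).codRestrict (Lam _) (phi_mem_Lam _)

theorem PK_val (k : ℕ) (w : FreeGroup (ℕ × W)) : (PK c P k w).1 = Phi (frm c (P k)) w := rfl

/-- The homogeneous spaces. -/
abbrev XK (k : ℕ) : Type := Σ j : ℕ × W, LK c P k ⧸ (FT j.1 j.2).map (PK c P k)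

/-- The compact groups, first kind. -/
abbrev UK (k : ℕ) : Type := (XK c P k → S3) × CC (TEdge W k)

/-- The compact groups, second kind. -/
abbrev VK (k : ℕ) : Type := (XK c P k → S3) × CD (TEdge W k)

/-- The action on the first kind. -/
def aK (k : ℕ) : LK c P k →* MulAut (UK c P k) :=
  prodAct (actX (LK c P k) (XK c P k)) ((actC (frm c (P k))).comp (Lam _).subtype)

/-- The action on the second kind. -/
def bK (k : ℕ) : LK c P k →* MulAut (VK c P k) :=
  prodAct (actX (LK c P k) (XK c P k)) ((actD (frm c (P k))).comp (Lam _).subtype)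

/-- The groups `G k`. -/
abbrev GK (k : ℕ) : Type := UK c P k ⋊[aK c P k] LK c P k

/-- The groups `H k`. -/
abbrev HK (k : ℕ) : Type := VK c P k ⋊[bK c P k] LK c P k

theorem stab_XK (k : ℕ) (j : ℕ × W) (a : LK c P k)
    (ha : a ∈ MulAction.stabilizer (LK c P k) (⟨j, (1 : LK c P k)⟩ : XK c P k)) :
    a ∈ (FT j.1 j.2).map (PK c P k) := by
  rw [MulAction.mem_stabilizer_iff] at ha
  have h1 : (⟨j, ((a * 1 : LK c P k) : LK c P k ⧸ (FT j.1 j.2).map (PK c P k))⟩ : XK c P k) =
      ⟨j, (1 : LK c P k)⟩ := ha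
  rw [Sigma.mk.injEq] at h1
  have h2 := (QuotientGroup.eq (s := (FT j.1 j.2).map (PK c P k))).1 (eq_of_heq h1.2)
  simpa using h2

/-- The exceptional set. -/
def ZK (k : ℕ) : Set (LK c P k) := {a | a.1.v = 0 ∧ a.1.g = 1}

theorem ZK_finite (k : ℕ) : (ZK c P k).Finite := by
  refine Set.Finite.of_finite_image (f := fun a : LK c P k => a.1.s) (Set.toFinite _) ?_
  intro a ha b hb h
  exact Subtype.ext (Heis.ext (ha.1.trans hb.1.symm) h (ha.2.trans hb.2.symm))

variable {c P}

theorem nt_LK (hc : Strong c) (hW : CofCount W) (hP : ∀ k, Sepr (P k)) (k : ℕ)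
    (B : ℕ → Set (LK c P k)) (hB : ∀ i, B (i + 1) ⊆ B i)
    (hcom : ∀ i, ∀ a ∈ B (i + 1), ∀ b ∈ B (i + 1), a * b * a⁻¹ * b⁻¹ ∈ B i)
    (hbig : ∀ i (j : ℕ × W), ∃ a ∈ B i, a ∈ (FT j.1 j.2).map (PK c P k) ∧ a ∉ ZK c P k) :
    ∃ a ∈ B 0, a ∈ ZK c P k ∧ a ≠ 1 := by
  obtain ⟨a, ⟨a', ha', rfl⟩, h1, h2, h3⟩ := nt hc hW P hP k (fun i => Subtype.val '' B i)
    (fun i => Set.image_mono (hB i))
    (by
      rintro i _ ⟨a, ha, rfl⟩ _ ⟨b, hb, rfl⟩
      exact ⟨_, hcom i a ha b hb, rfl⟩)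
    (by
      intro i n α
      obtain ⟨a, ha, ⟨w, hw, rfl⟩, h⟩ := hbig i (n, α)
      refine ⟨w, hw, fun hw' => h ?_, ⟨_, ha, rfl⟩⟩
      exact phi_cen _ (levForm_frm _ _) w hw')
  refine ⟨a', ha', ⟨h2, h3⟩, fun h => h1 ?_⟩
  rw [h]
  rfl

instance compactCC (E : Type) : CompactSpace (CC E) :=
  inferInstanceAs (CompactSpace ((E → ZMod 2) × ZMod 2 × ZMod 2))

instance compactCD (E : Type) : CompactSpace (CD E) :=
  inferInstanceAs (CompactSpace ((E → ZMod 2) × ZMod 2))

theorem aK_continuous (k : ℕ) (a : LK c P k) : Continuous (aK c P k a) :=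
  ((actX_continuous a).comp continuous_fst).prodMk
    ((actC_continuous _ a.1).comp continuous_snd)

theorem bK_continuous (k : ℕ) (a : LK c P k) : Continuous (bK c P k a) :=
  ((actX_continuous a).comp continuous_fst).prodMk
    ((actD_continuous _ a.1).comp continuous_snd)

instance GK_group (k : ℕ) : IsTopologicalGroup (GK c P k) := sd_group _ (aK_continuous k)

instance HK_group (k : ℕ) : IsTopologicalGroup (HK c P k) := sd_group _ (bK_continuous k)

instance GK_t2 (k : ℕ) : T2Space (GK c P k) := sd_t2 _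

instance HK_t2 (k : ℕ) : T2Space (HK c P k) := sd_t2 _

theorem GK_min (hc : Strong c) (hW : CofCount W) (hP : ∀ k, Sepr (P k)) (k : ℕ) :
    IsMin (GK c P k) := by
  refine isMin_of_nt (L := GK c P k) (Λ := LK c P k) (J := ℕ × W) SemidirectProduct.rightHom
    (sd_ker_open _) (sd_ker_compact _) (fun j => (FT j.1 j.2).map (PK c P k)) (ZK c P k)
    (ZK_finite c P k) ?_ (nt_LK hc hW hP k)
  intro j
  obtain ⟨v, hv, O, h1, h2, h3⟩ := actX_stab (Λ := LK c P k)
    ((actC (frm c (P k))).comp (Lam _).subtype) (⟨j, (1 : LK c P k)⟩ : XK c P k)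
  exact ⟨v, hv, O, h1, h2, fun y hy => stab_XK c P k j _ (h3 y hy)⟩

theorem HK_min (hc : Strong c) (hW : CofCount W) (hP : ∀ k, Sepr (P k)) (k : ℕ) :
    IsMin (HK c P k) := by
  refine isMin_of_nt (L := HK c P k) (Λ := LK c P k) (J := ℕ × W) SemidirectProduct.rightHom
    (sd_ker_open _) (sd_ker_compact _) (fun j => (FT j.1 j.2).map (PK c P k)) (ZK c P k)
    (ZK_finite c P k) ?_ (nt_LK hc hW hP k)
  intro j
  obtain ⟨v, hv, O, h1, h2, h3⟩ := actX_stab (Λ := LK c P k)
    ((actD (frm c (P k))).comp (Lam _).subtype) (⟨j, (1 : LK c P k)⟩ : XK c P k)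
  exact ⟨v, hv, O, h1, h2, fun y hy => stab_XK c P k j _ (h3 y hy)⟩

/-- The map of the compact parts. -/
def dK (c : W → W → ℕ) (P : ∀ k, ℕ → Set (TEdge W k)) (k : ℕ) : UK c P k →* VK c P k :=
  (MonoidHom.id _).prodMap (drop _)

theorem dK_equiv (k : ℕ) (a : LK c P k) (u : UK c P k) :
    dK c P k (aK c P k a u) = bK c P k a (dK c P k u) :=
  Prod.ext rfl (drop_act _ a.1 u.2)

/-- The quotient map. -/
def qK (c : W → W → ℕ) (P : ∀ k, ℕ → Set (TEdge W k)) (k : ℕ) : GK c P k →* HK c P k :=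
  sdMap (dK c P k) (dK_equiv k)

theorem qK_continuous (k : ℕ) : Continuous (qK c P k) :=
  sdMap_continuous _ _ (continuous_id.prodMap drop_continuous)

theorem qK_open (k : ℕ) : IsOpenMap (qK c P k) :=
  sdMap_open _ _ (IsOpenMap.id.prodMap drop_open)

theorem qK_surj (k : ℕ) : Function.Surjective (qK c P k) :=
  sdMap_surj _ _ (Function.surjective_id.prodMap drop_surj)

omit [LinearOrder W] in
theorem faithful_edges (k : ℕ) [Nonempty W] (g : ℕ → Mk W k) (h : ∀ e : TEdge W k, g • e = e) :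
    g = 1 := by
  ext m
  have h1 := congrArg TEdge.h (h ⟨m, 1, Classical.arbitrary W⟩)
  simpa using h1

theorem qK_ker (k : ℕ) [Nonempty W] : (qK c P k).ker = Subgroup.center (GK c P k) := by
  ext y
  have h1 := mem_center_sd (Λ := LK c P k) (X := XK c P k)
    ((actC (frm c (P k))).comp (Lam _).subtype)
    (by
      intro a ha
      refine Subtype.ext (actC_faithful _ (faithful_edges k) a.1 ha)) y
  have h2 : y ∈ (qK c P k).ker ↔ y.right = 1 ∧ y.left.1 = 1 ∧ drop _ y.left.2 = 1 := by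
    rw [MonoidHom.mem_ker]
    constructor
    · intro h
      have h3 := congrArg SemidirectProduct.left h
      exact ⟨congrArg SemidirectProduct.right h, congrArg Prod.fst h3, congrArg Prod.snd h3⟩
    · rintro ⟨h3, h4, h5⟩
      exact SemidirectProduct.ext (Prod.ext h4 h5) h3
  rw [h2]
  refine Iff.trans ?_ h1.symm
  refine and_congr_right fun _ => and_congr_right fun _ => ?_
  constructor
  · intro h a
    exact actC_fix' _ _ h a.1
  · intro h
    refine (actC_fix (frm c (P k)) _).2 fun a ha => ?_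
    exact h ⟨a, by
      change {m | a.g m ≠ 1}.Finite
      rw [ha]
      simp⟩

theorem FT_anti {n n' : ℕ} {α α' : W} (hn : n ≤ n') (hα : α ≤ α') : FT n' α' ≤ FT n α := by
  unfold FT
  refine Subgroup.closure_mono ?_
  rintro x ⟨m, γ, h1, h2, h3⟩
  exact ⟨m, γ, hn.trans h1, hα.trans_lt h2, h3⟩

theorem prod_HK (hW : CofCount W) [Nonempty W] : ¬ IsMin (∀ k, HK c P k) := by
  have hgt : ∀ α : W, ∃ γ, α < γ := fun α => by
    obtain ⟨β, hβ⟩ := hW fun _ => α
    exact ⟨β, hβ 0⟩
  refine prod_not_min (F := FreeGroup (ℕ × W)) (J := ℕ × W) (fun j => FT j.1 j.2) ?_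
    (fun k => VK c P k) (fun k => LK c P k) (fun k => bK c P k) (fun k a => bK_continuous k a)
    (fun k => PK c P k) ?_ ?_ ?_ ?_
  · intro i j
    exact ⟨(max i.1 j.1, max i.2 j.2), FT_anti (le_max_left _ _) (le_max_left _ _),
      FT_anti (le_max_right _ _) (le_max_right _ _)⟩
  · intro k b
    obtain ⟨n, hn⟩ := phi_comm (frm c (P k)) (levForm_frm _ _) b.1 b.2
    refine ⟨(n, Classical.arbitrary W), fun w hw => ?_⟩
    exact Subtype.ext (hn _ w hw)
  · intro x hx
    ext1 k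
    obtain ⟨w, -, hw⟩ := hx (k + 1) (0, Classical.arbitrary W)
    have h1 : w ∈ RT W (k + 2) := by
      have h2 : ∀ m, pr m w ∈ stg W (k + 2) := by
        intro m
        obtain ⟨u, hu, hu'⟩ := hx (k + 1) (m + 1, Classical.arbitrary W)
        have h3 : Phi (frm c (P (k + 1))) (w * u⁻¹) = 1 := by
          have h4 := (hw (k + 1) le_rfl).symm.trans (hu' (k + 1) le_rfl)
          have h5 := congrArg Subtype.val h4
          rw [PK_val, PK_val] at h5
          rw [map_mul, map_inv, h5, mul_inv_cancel]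
        have h4 : w * u⁻¹ ∈ RT W (k + 1) := by
          rw [← phi_g_eq_one (frm c (P (k + 1))), h3]
          rfl
        have h5 : w * u⁻¹ ∈ RT W (k + 2) := by
          refine mem_RT_succ (frm c (P (k + 1))) _ h4 ?_
          rw [h3]
          rfl
        have h6 := (mem_RT _).1 h5 m
        rw [map_mul, map_inv, far_pr _ _ u hu m (Nat.lt_succ_self m), inv_one, mul_one] at h6
        exact h6
      exact (mem_RT _).2 h2
    have h2 := hw k (Nat.le_succ k)
    rw [h2, Pi.one_apply]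
    exact Subtype.ext (phi_kill (frm c (P k)) (levForm_frm _ _) w h1)
  · intro k O hO
    obtain ⟨O1, hO1, O2, hO2, hO3⟩ := mem_nhds_prod_iff.1 hO
    obtain ⟨T1, hT1⟩ := actX_loc (Λ := LK c P k) (X := XK c P k) O1 hO1
    obtain ⟨T2, hT2⟩ := actD_loc (frm c (P k)) O2 hO2
    have hX : ∀ x : XK c P k, ∃ j : ℕ × W, ∀ w ∈ FT j.1 j.2, PK c P k w • x = x := by
      rintro ⟨j, q⟩
      obtain ⟨b, rfl⟩ := QuotientGroup.mk_surjective q
      obtain ⟨n, hn⟩ := phi_comm (frm c (P k)) (levForm_frm _ _) b.1 b.2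
      refine ⟨(max n j.1, j.2), fun w hw => ?_⟩
      have h1 : Commute b (PK c P k w) :=
        Subtype.ext (hn j.2 w (FT_anti (le_max_left _ _) le_rfl hw))
      have h2 : PK c P k w ∈ (FT j.1 j.2).map (PK c P k) :=
        ⟨w, FT_anti (le_max_right _ _) le_rfl hw, rfl⟩
      change (⟨j, ((PK c P k w * b : LK c P k) : LK c P k ⧸ (FT j.1 j.2).map (PK c P k))⟩ :
        XK c P k) = ⟨j, b⟩
      rw [← h1.eq]
      congr 1
      exact (QuotientGroup.eq).2 (by simpa using h2)
    have hmax : ∃ j : ℕ × W, (∀ w ∈ FT j.1 j.2, ∀ x ∈ T1, PK c P k w • x = x) ∧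
        ∀ e ∈ T2, e.lev < j.1 := by
      classical
      have h1 : ∀ T : Finset (XK c P k), ∃ j : ℕ × W,
          ∀ w ∈ FT j.1 j.2, ∀ x ∈ T, PK c P k w • x = x := by
        intro T
        induction T using Finset.induction_on with
        | empty => exact ⟨(0, Classical.arbitrary W), by simp⟩
        | insert x T _ ih =>
          obtain ⟨j, hj⟩ := ih
          obtain ⟨i, hi⟩ := hX x
          refine ⟨(max j.1 i.1, max j.2 i.2), fun w hw y hy => ?_⟩
          rcases Finset.mem_insert.1 hy with rfl | hy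
          · exact hi w (FT_anti (le_max_right _ _) (le_max_right _ _) hw)
          · exact hj w (FT_anti (le_max_left _ _) (le_max_left _ _) hw) y hy
      obtain ⟨j, hj⟩ := h1 T1
      refine ⟨(max j.1 (T2.sup TEdge.lev + 1), j.2), fun w hw => hj w
        (FT_anti (le_max_left _ _) le_rfl hw), fun e he => ?_⟩
      have h2 : e.lev ≤ T2.sup TEdge.lev := Finset.le_sup he
      exact lt_of_lt_of_le (Nat.lt_succ_of_le h2) (le_max_right _ _)
    obtain ⟨j, hj1, hj2⟩ := hmax
    refine ⟨j, fun w hw u => hO3 ?_⟩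
    refine ⟨hT1 _ (hj1 w hw) u.1, hT2 (PK c P k w).1 ?_ u.2⟩
    intro e he
    obtain ⟨h1, h2, -⟩ := far (frm c (P k)) j.1 j.2 w hw
    have h3 := hj2 e he
    constructor
    · ext1
      · rfl
      · rw [smul_h, PK_val, h2 _ h3, one_mul]
      · rfl
    · intro e' he'
      rw [PK_val] at he'
      exact levForm_frm _ _ _ _ (by have := (h1 e' he').1; omega)
  · intro j
    obtain ⟨γ, hγ⟩ := hgt j.2
    refine ⟨FreeGroup.of (j.1, γ), Subgroup.subset_closure ⟨j.1, γ, le_rfl, hγ, rfl⟩, fun h => ?_⟩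
    have h1 := congrArg (fun a : LK c P 0 => a.1.v) h
    rw [show (PK c P 0 (FreeGroup.of (j.1, γ))).1.v = Finsupp.single ⟨j.1, 1, γ⟩ 1 by
      rw [PK_val]
      unfold Phi
      rw [FreeGroup.lift_apply_of]] at h1
    have h2 := DFunLike.congr_fun h1 (⟨j.1, 1, γ⟩ : TEdge W 0)
    rw [Finsupp.single_eq_same] at h2
    exact one_ne_zero h2

end

/-- There is a sequence of locally compact z-minimal groups whose product is not z-minimal. -/
theorem main : ∃ (G : ℕ → Type) (_ : ∀ i, Group (G i)) (_ : ∀ i, TopologicalSpace (G i)),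
    (∀ i, LocallyCompactSpace (G i)) ∧ (∀ i, IsZMin (G i)) ∧ ¬ IsZMin (∀ i, G i) := by
  obtain ⟨W, hW, ⟨S⟩⟩ := exists_scale
  have hcof := S.cof
  have hc := strong_col S
  choose P hP using exists_sepr S.f S.inj
  have : Nonempty W := ⟨(S.unb 0).choose⟩
  set c : W → W → ℕ := fun α β => col (S.f α) (S.f β) with hcdef
  refine ⟨fun k => GK c P k, fun k => inferInstance, fun k => inferInstance,
    fun k => sd_lc _, fun k => ⟨GK_min hc hcof hP k, ?_⟩, fun h => ?_⟩
  · exact (isMin_quot_iff (qK c P k) (qK_continuous k) (qK_open k) (qK_surj k) (qK_ker k)).2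
      (HK_min hc hcof hP k)
  · exact prod_HK hcof ((isMin_quot_pi_iff (G := fun k => GK c P k) (H := fun k => HK c P k)
      (fun k => qK c P k) (fun k => qK_continuous k) (fun k => qK_open k) (fun k => qK_surj k)
      (fun k => qK_ker k)).1 h.2)

end Pool.Agent.ZM
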