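import Pool.Agent.Lib.MP_ff2384_gt.Supp

set_option autoImplicit false

open Filter Topology

noncomputable section

namespace Pool.Agent.ZM

section
variable {W : Type} {k : ℕ}

theorem good_x_mem (e : TEdge W k) : e.x ∈ es e := Set.mem_insert _ _

theorem good_sup_mem (e : TEdge W k) {δ : W} (h : δ ∈ sup e.h) : δ ∈ es e :=
  Set.mem_insert_of_mem _ h

/-- The support of the moving element is in the union of the two edges. -/
theorem good_sup_sub (u : Mk W k) (e : TEdge W k) (g : ℕ → Mk W k) (hg : g e.lev = u) :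
    sup u ⊆ es (g • e) ∪ es e := by
  intro δ hδ
  have h1 : u = (u * e.h) * e.h⁻¹ := by group
  rw [h1] at hδ
  rcases sup_mul _ _ hδ with h | h
  · left
    refine good_sup_mem _ ?_
    rw [smul_h, hg]
    exact h
  · right
    rw [sup_inv] at h
    exact good_sup_mem _ h

theorem good_unique [LinearOrder W] {c : W → W → ℕ} {N N' : ℕ} {e e' : TEdge W k}
    (g : ℕ → Mk W k) (h : Good c N e e') (h' : Good c N' (g • e) (g • e')) :
    g • e = e ∧ g • e' = e' ∧ N = N' := by
  have hN : N = N' := by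
    have h1 := (h.lt _ (good_x_mem e) _ (good_x_mem e')).2
    have h2 := (h'.lt _ (good_x_mem (g • e)) _ (good_x_mem (g • e'))).2
    rw [smul_x, smul_x] at h2
    exact h1.symm.trans h2
  have hu : g e.lev = 1 := by
    refine eq_one_of_sup _ (Set.eq_empty_iff_forall_notMem.2 fun δ hδ => ?_)
    have h1 := good_sup_sub _ e g rfl hδ
    have h2 := good_sup_sub _ e' g (by rw [h.lev]) hδ
    rcases h1 with h1 | h1 <;> rcases h2 with h2 | h2
    · exact lt_irrefl _ (h'.lt _ h1 _ h2).1
    · have h3 := h.lt _ (good_x_mem e) _ h2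
      refine h'.inl e.x (good_x_mem (g • e)) δ h1 h3.1 ?_
      rw [h3.2, hN]
    · have h3 := h.lt _ h1 _ (good_x_mem e')
      refine h'.inr δ h2 e'.x (good_x_mem (g • e')) h3.1 ?_
      rw [h3.2, hN]
    · exact lt_irrefl _ (h.lt _ h1 _ h2).1
  refine ⟨?_, ?_, hN⟩
  · exact TEdge.ext rfl (by rw [smul_h, hu, one_mul]) rfl
  · exact TEdge.ext rfl (by rw [smul_h, ← h.lev, hu, one_mul]) rfl

theorem good_asymm [LinearOrder W] {c : W → W → ℕ} {N N' : ℕ} {e e' : TEdge W k}
    (g : ℕ → Mk W k) (h : Good c N e e') (h' : Good c N' (g • e') (g • e)) : False := by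
  have h1 := (h.lt _ (good_x_mem e) _ (good_x_mem e')).1
  have h2 := (h'.lt _ (good_x_mem (g • e')) _ (good_x_mem (g • e))).1
  rw [smul_x, smul_x] at h2
  exact lt_asymm h1 h2

theorem levForm_frm [LinearOrder W] (c : W → W → ℕ) (P : ℕ → Set (TEdge W k)) :
    LevForm (frm c P) := by
  intro e e' h
  unfold frm
  refine if_neg ?_
  rintro ⟨g, N, h1, -⟩
  exact h h1.lev

end

end Pool.Agent.ZM
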