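import Pool.Agent.Lib.MP_ff2384_gt.Node

set_option autoImplicit false

open Filter Topology

noncomputable section

namespace Pool.Agent.ZM

/-- A crossing. -/
def leap_cr (x y : ℕ → ℕ) (n : ℕ) : Prop := y n < x n ∧ x (n + 1) ≤ y (n + 1)

/-- A common bound for finitely many values. -/
theorem leap_bound {r : ℕ} (y : Fin r → ℕ → ℕ) (M : ℕ) : ∃ l, ∀ j, ∀ n < M, y j n ≤ l := by
  refine ⟨Finset.univ.sup fun j => (Finset.range M).sup (y j), fun j n hn => ?_⟩
  calc y j n ≤ (Finset.range M).sup (y j) := Finset.le_sup (Finset.mem_range.2 hn)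
    _ ≤ _ := Finset.le_sup (f := fun j => (Finset.range M).sup (y j)) (Finset.mem_univ j)

theorem leap_max {r : ℕ} (e : Fin r → ℕ) : ∃ M, ∀ i, e i < M := by
  refine ⟨Finset.univ.sup e + 1, fun i => Nat.lt_succ_of_le (Finset.le_sup (Finset.mem_univ i))⟩

section
variable {r : ℕ} {A D : Set (Fin r → ℕ → ℕ)}

/-- One jump and extension. -/
theorem leap_step (mA : ∀ a ∈ A, ∀ i, StrictMono (a i))
    (hj : ∀ a ∈ A, ∀ M : ℕ, ∃ x ∈ A, ∃ e, Jump A x e ∧ ∀ i, M ≤ e i ∧ ∀ n < M, x i n = a i n)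
    (x y : Fin r → ℕ → ℕ) (e e' : Fin r → ℕ) (hx : Jump A x e) :
    ∃ x' ∈ A, ∃ e1, Jump A x' e1 ∧ (∀ i j, e i < e1 i ∧ e' j < e1 i) ∧
      (∀ i, ∀ n < e i, x' i n = x i n) ∧ ∀ i j, ∀ n, e i ≤ n → n < e' j → y j n < x' i n := by
  obtain ⟨M0, hM0⟩ := leap_max e
  obtain ⟨M1, hM1⟩ := leap_max e'
  obtain ⟨l, hl⟩ := leap_bound y M1
  obtain ⟨a, ha, ha'⟩ := hx l
  obtain ⟨x', hx', e1, h1, h2⟩ := hj a ha (max M0 M1)
  refine ⟨x', hx', e1, h1, fun i j => ⟨?_, ?_⟩, fun i n hn => ?_, fun i j n hn hn' => ?_⟩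
  · exact (hM0 i).trans_le ((le_max_left _ _).trans (h2 i).1)
  · exact (hM1 j).trans_le ((le_max_right _ _).trans (h2 i).1)
  · rw [(h2 i).2 n (hn.trans ((hM0 i).trans_le (le_max_left _ _))), (ha' i).1 n hn]
  · have h3 : x' i (e i) = a i (e i) := (h2 i).2 _ ((hM0 i).trans_le (le_max_left _ _))
    have h4 : x' i (e i) ≤ x' i n := (mA x' hx' i).monotone hn
    have h5 := hl j n (hn'.trans (hM1 j))
    have h6 := (ha' i).2
    omega

/-- The main lemma. -/
theorem leap_main (mA : ∀ a ∈ A, ∀ i, StrictMono (a i)) (mD : ∀ d ∈ D, ∀ i, StrictMono (d i))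
    (hj : ∀ a ∈ A, ∀ M : ℕ, ∃ x ∈ A, ∃ e, Jump A x e ∧ ∀ i, M ≤ e i ∧ ∀ n < M, x i n = a i n)
    (hD : ∀ a ∈ A, ∀ L : ℕ, ∃ d ∈ D, ∀ i, ∀ n < L, d i n = a i n)
    (γ : ℕ → ℕ) (m : ℕ) (h1 : ∀ d ∈ D, ∀ i, ∀ᶠ n in atTop, d i n < γ n)
    (h2 : ∀ a ∈ A, ∀ i, ∀ n, m ≤ n → γ n < a i n) (q : ℕ) :
    ∀ (x y : Fin r → ℕ → ℕ) (e e' : Fin r → ℕ), Jump A x e → Jump A y e' →
      (∀ i j, e i < e' j) → ∃ d ∈ D, ∃ b ∈ A, (∀ i, ∀ n < e i, d i n = x i n) ∧
      (∀ j, ∀ n < e' j, b j n = y j n) ∧ ∀ i j, b j (e i) < d i (e i) ∧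
      {n | e i ≤ n ∧ leap_cr (d i) (b j) n}.Finite ∧
      {n | e i ≤ n ∧ leap_cr (d i) (b j) n}.ncard = q + 1 := by
  induction q with
  | zero =>
    intro x y e e' hx hy he
    obtain ⟨M0, hM0⟩ := leap_max e
    obtain ⟨M1, hM1⟩ := leap_max e'
    obtain ⟨l, hl⟩ := leap_bound y M1
    obtain ⟨a, ha, ha'⟩ := hx l
    obtain ⟨d, hd, hd'⟩ := hD a ha M0
    have hL : ∀ᶠ n in atTop, ∀ i, d i n < γ n := eventually_all.2 fun i => h1 d hd i
    obtain ⟨L0, hL0⟩ := eventually_atTop.1 hL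
    set L := max (max L0 m) (max M0 M1) with hLdef
    obtain ⟨l', hl'⟩ := leap_bound d (L + 1)
    obtain ⟨b, hb, hb'⟩ := hy l'
    have hdx : ∀ i, ∀ n < e i, d i n = x i n := fun i n hn => by
      rw [hd' i n (hn.trans (hM0 i)), (ha' i).1 n hn]
    have hlow : ∀ i j, ∀ n, e i ≤ n → n < e' j → b j n < d i n := by
      intro i j n hn hn'
      have h3 : d i (e i) = a i (e i) := hd' i _ (hM0 i)
      have h4 : d i (e i) ≤ d i n := (mD d hd i).monotone hn
      have h5 := hl j n (hn'.trans (hM1 j))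
      have h6 := (ha' i).2
      have h7 := (hb' j).1 n hn'
      omega
    have hhigh : ∀ i j, ∀ n, e' j ≤ n → d i n < b j n := by
      intro i j n hn
      rcases le_total n L with h | h
      · have h3 := hl' i n (Nat.lt_succ_of_le h)
        have h4 := (hb' j).2
        have h5 : b j (e' j) ≤ b j n := (mA b hb j).monotone hn
        omega
      · have h3 := h2 b hb j n (le_trans (by simp [hLdef]) h)
        have h4 := hL0 n (le_trans (by simp [hLdef]) h) i
        omega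
    refine ⟨d, hd, b, hb, hdx, fun j => (hb' j).1, fun i j => ⟨hlow i j _ le_rfl (he i j), ?_⟩⟩
    have h3 : {n | e i ≤ n ∧ leap_cr (d i) (b j) n} = {e' j - 1} := by
      ext n
      rw [Set.mem_singleton_iff]
      have h4 := he i j
      constructor
      · rintro ⟨h5, h6, h7⟩
        by_contra h8
        rcases lt_or_ge n (e' j) with h9 | h9
        · have := hlow i j (n + 1) (by omega) (by omega)
          omega
        · have := hhigh i j n h9
          omega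
      · rintro rfl
        refine ⟨by omega, hlow i j _ (by omega) (by omega), ?_⟩
        exact (hhigh i j _ (by omega)).le
    rw [h3]
    exact ⟨Set.finite_singleton _, Set.ncard_singleton _⟩
  | succ q ih =>
    intro x y e e' hx hy he
    obtain ⟨x', hx', e1, hj1, h3, h4, h5⟩ := leap_step mA hj x y e e' hx
    obtain ⟨y', hy', e2, hj2, h6, h7, h8⟩ := leap_step mA hj y x' e' e1 hy
    obtain ⟨d, hd, b, hb, h9, h10, h11⟩ := ih x' y' e1 e2 hj1 hj2 fun i j => (h6 j i).2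
    have hdx : ∀ i, ∀ n < e i, d i n = x i n := fun i n hn => by
      rw [h9 i n (hn.trans (h3 i i).1), h4 i n hn]
    have hby : ∀ j, ∀ n < e' j, b j n = y j n := fun j n hn => by
      rw [h10 j n (hn.trans (h6 j j).1), h7 j n hn]
    have hlow : ∀ i j, ∀ n, e i ≤ n → n < e' j → b j n < d i n := by
      intro i j n hn hn'
      rw [hby j n hn', h9 i n (hn'.trans (h3 i j).2)]
      exact h5 i j n hn hn'
    have hhigh : ∀ i j, ∀ n, e' j ≤ n → n < e1 i → d i n < b j n := by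
      intro i j n hn hn'
      rw [h9 i n hn', h10 j n (hn'.trans (h6 j i).2)]
      exact h8 j i n hn hn'
    refine ⟨d, hd, b, hb, hdx, hby, fun i j => ⟨hlow i j _ le_rfl (he i j), ?_⟩⟩
    obtain ⟨h12, h13, h14⟩ := h11 i j
    have h15 : {n | e i ≤ n ∧ leap_cr (d i) (b j) n} =
        insert (e' j - 1) {n | e1 i ≤ n ∧ leap_cr (d i) (b j) n} := by
      ext n
      rw [Set.mem_insert_iff]
      have h16 := he i j
      have h17 := (h3 i j).2
      constructor
      · rintro ⟨h18, h19, h20⟩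
        by_cases h21 : e1 i ≤ n
        · exact Or.inr ⟨h21, h19, h20⟩
        · left
          by_contra h22
          rcases lt_or_ge n (e' j) with h23 | h23
          · have := hlow i j (n + 1) (by omega) (by omega)
            omega
          · have := hhigh i j n h23 (by omega)
            omega
      · rintro (rfl | ⟨h18, h19⟩)
        · refine ⟨by omega, hlow i j _ (by omega) (by omega), ?_⟩
          exact (hhigh i j _ (by omega) (by omega)).le
        · exact ⟨by omega, h19⟩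
    rw [h15]
    refine ⟨h13.insert _, ?_⟩
    rw [Set.ncard_insert_of_notMem _ h13, h14]
    rintro ⟨h16, -⟩
    have := (h3 i j).2
    omega

theorem leap (A D : Set (Fin r → ℕ → ℕ)) (hA : A.Nonempty)
    (mA : ∀ a ∈ A, ∀ i, StrictMono (a i)) (mD : ∀ d ∈ D, ∀ i, StrictMono (d i))
    (hj : ∀ a ∈ A, ∀ M : ℕ, ∃ x ∈ A, ∃ e, Jump A x e ∧ ∀ i, M ≤ e i ∧ ∀ n < M, x i n = a i n)
    (hD : ∀ a ∈ A, ∀ L : ℕ, ∃ d ∈ D, ∀ i, ∀ n < L, d i n = a i n)
    (γ : ℕ → ℕ) (m : ℕ) (h1 : ∀ d ∈ D, ∀ i, ∀ᶠ n in atTop, d i n < γ n)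
    (h2 : ∀ a ∈ A, ∀ i, ∀ n, m ≤ n → γ n < a i n) :
    ∃ o : Fin r → Fin r → ℕ, ∀ q : ℕ, ∃ d ∈ D, ∃ b ∈ A, ∀ i j,
      osc (d i) (b j) = o i j + (q + 1) := by
  obtain ⟨a, ha⟩ := hA
  obtain ⟨x, hx, e, hxe, -⟩ := hj a ha 0
  obtain ⟨M, hM⟩ := leap_max e
  obtain ⟨y, hy, e', hye, hy'⟩ := hj a ha M
  have he : ∀ i j, e i < e' j := fun i j => (hM i).trans_le (hy' j).1
  refine ⟨fun i j => {n | n + 1 < e i ∧ leap_cr (x i) (y j) n}.ncard, fun q => ?_⟩
  obtain ⟨d, hd, b, hb, h3, h4, h5⟩ := leap_main mA mD hj hD γ m h1 h2 q x y e e' hxe hye he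
  refine ⟨d, hd, b, hb, fun i j => ?_⟩
  obtain ⟨h6, h7, h8⟩ := h5 i j
  have h9 := he i j
  have h10 : {n | b j n < d i n ∧ d i (n + 1) ≤ b j (n + 1)} =
      {n | n + 1 < e i ∧ leap_cr (x i) (y j) n} ∪ {n | e i ≤ n ∧ leap_cr (d i) (b j) n} := by
    ext n
    constructor
    · rintro ⟨h11, h12⟩
      by_cases h13 : e i ≤ n
      · exact Or.inr ⟨h13, h11, h12⟩
      · left
        have h14 : n + 1 ≠ e i := by
          rintro h15
          rw [h15] at h12
          omega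
        refine ⟨by omega, ?_⟩
        unfold leap_cr
        rw [← h3 i n (by omega), ← h3 i (n + 1) (by omega), ← h4 j n (by omega),
          ← h4 j (n + 1) (by omega)]
        exact ⟨h11, h12⟩
    · rintro (⟨h11, h12⟩ | ⟨h11, h12⟩)
      · unfold leap_cr at h12
        rw [← h3 i n (by omega), ← h3 i (n + 1) (by omega), ← h4 j n (by omega),
          ← h4 j (n + 1) (by omega)] at h12
        exact h12
      · exact h12
  unfold osc
  rw [h10, Set.ncard_union_eq ?_ ?_ h7, h8]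
  · rw [Set.disjoint_left]
    rintro n ⟨h11, -⟩ ⟨h12, -⟩
    omega
  · exact (Set.finite_Iio (e i)).subset fun n hn => by
      have := hn.1
      exact Set.mem_Iio.2 (by omega)

end

end Pool.Agent.ZM
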