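import Pool.Agent.Lib.MP_ff2384_gt.Defs

set_option autoImplicit false

open Filter Topology

noncomputable section

namespace Pool.Agent.ZM

section
variable {W : Type} {k : ℕ} (β : Form (ℕ → Mk W k) (TEdge W k))

theorem mag_phi_of (y : ℕ × W) : Phi β (FreeGroup.of y) = ⟨Finsupp.single ⟨y.1, 1, y.2⟩ 1, 0,
    Pi.mulSingle y.1 ((FreeGroup.of y.2 : FreeGroup W) : Mk W k)⟩ := by
  unfold Phi
  rw [FreeGroup.lift_apply_of]

theorem mag_pr_of (n : ℕ) (y : ℕ × W) :
    pr n (FreeGroup.of y) = if y.1 = n then FreeGroup.of y.2 else 1 := by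
  unfold pr
  rw [FreeGroup.lift_apply_of]

theorem phi_g (w : FreeGroup (ℕ × W)) (m : ℕ) :
    (Phi β w).g m = ((pr m w : FreeGroup W) : Mk W k) := by
  have hof : ∀ y : ℕ × W, (Phi β (FreeGroup.of y)).g m =
      ((pr m (FreeGroup.of y) : FreeGroup W) : Mk W k) := by
    intro y
    rw [mag_phi_of, mag_pr_of]
    change (Pi.mulSingle y.1 ((FreeGroup.of y.2 : FreeGroup W) : Mk W k) : ℕ → Mk W k) m = _
    split_ifs with h
    · rw [h, Pi.mulSingle_eq_same]
    · rw [Pi.mulSingle_eq_of_ne (Ne.symm h)]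
      rfl
  induction w using FreeGroup.induction_on with
  | C1 =>
    rw [map_one, map_one]
    rfl
  | of y => exact hof y
  | inv_of y _ =>
    rw [map_inv, map_inv, Heis.inv_g, Pi.inv_apply, hof]
    rfl
  | mul x y hx hy =>
    rw [map_mul, map_mul, Heis.mul_g, Pi.mul_apply, hx, hy]
    rfl

theorem mem_RT {W : Type} {k : ℕ} (w : FreeGroup (ℕ × W)) :
    w ∈ RT W k ↔ ∀ m, pr m w ∈ stg W k := by
  unfold RT
  rw [Subgroup.mem_iInf]
  exact Iff.rfl

theorem phi_g_eq_one (w : FreeGroup (ℕ × W)) : (Phi β w).g = 1 ↔ w ∈ RT W k := by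
  rw [mem_RT]
  constructor
  · intro h m
    rw [← QuotientGroup.eq_one_iff, ← phi_g β, h]
    rfl
  · intro h
    funext m
    rw [phi_g]
    exact (QuotientGroup.eq_one_iff _).2 (h m)

theorem mag_sq_mem {G : Type} [Group G] (R : Subgroup G) (u : G) (hu : u ∈ R) :
    u * u ∈ sq R := Subgroup.subset_closure ⟨u, hu, rfl⟩

theorem mag_comm_mem {G : Type} [Group G] (R : Subgroup G) (u v : G) (hu : u ∈ R) (hv : v ∈ R) :
    u * v * u⁻¹ * v⁻¹ ∈ sq R := by
  have h : u * v * u⁻¹ * v⁻¹ = ((u * v) * (u * v)) * ((v⁻¹ * u⁻¹ * v) * (v⁻¹ * u⁻¹ * v)) *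
      (v⁻¹ * v⁻¹) := by group
  rw [h]
  refine mul_mem (mul_mem (mag_sq_mem R _ (mul_mem hu hv)) (mag_sq_mem R _ ?_))
    (mag_sq_mem R _ (inv_mem hv))
  exact mul_mem (mul_mem (inv_mem hv) (inv_mem hu)) hv

theorem mag_sq_le {G : Type} [Group G] (R : Subgroup G) : sq R ≤ R := by
  unfold sq
  rw [Subgroup.closure_le]
  rintro x ⟨w, hw, rfl⟩
  exact mul_mem hw hw

theorem comm_mem_RT {W : Type} {k : ℕ} (u v : FreeGroup (ℕ × W)) (hu : u ∈ RT W k)
    (hv : v ∈ RT W k) : u * v * u⁻¹ * v⁻¹ ∈ RT W (k + 1) := by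
  rw [mem_RT] at *
  intro m
  rw [map_mul, map_mul, map_mul, map_inv, map_inv]
  exact mag_comm_mem _ _ _ (hu m) (hv m)

theorem RT_succ_le {W : Type} (k : ℕ) : RT W (k + 1) ≤ RT W k := by
  intro w hw
  rw [mem_RT] at *
  exact fun m => mag_sq_le _ (hw m)

/-- The image of `R` in the quotient by the squares. -/
abbrev mag_A (W : Type) (k : ℕ) : Subgroup (Mk W (k + 1)) :=
  (stg W k).map (QuotientGroup.mk' (stg W (k + 1)))

theorem mag_A_sq (a : mag_A W k) : a * a = 1 := by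
  obtain ⟨_, ⟨w, hw, rfl⟩⟩ := a
  refine Subtype.ext ?_
  exact (QuotientGroup.eq_one_iff (w * w)).2 (mag_sq_mem _ _ hw)

instance mag_comm : CommGroup (mag_A W k) :=
  { (inferInstance : Group (mag_A W k)) with
    mul_comm := fun a b => by
      have h1 := mag_A_sq a
      have h2 := mag_A_sq b
      have h3 := mag_A_sq (a * b)
      have h4 : a⁻¹ = a := inv_eq_of_mul_eq_one_left h1
      have h5 : b⁻¹ = b := inv_eq_of_mul_eq_one_left h2
      have h6 : (a * b)⁻¹ = a * b := inv_eq_of_mul_eq_one_left h3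
      rw [← h6, mul_inv_rev, h4, h5] }

/-- The section. -/
def mag_s (h : Mk W k) : FreeGroup W := Quotient.out h

theorem mag_s_mk (h : Mk W k) : ((mag_s h : FreeGroup W) : Mk W k) = h := Quotient.out_eq' h

/-- The value of an edge. -/
def mag_l (m : ℕ) (e : TEdge W k) : mag_A W k := if e.lev = m then
  ⟨QuotientGroup.mk' (stg W (k + 1)) (mag_s e.h * FreeGroup.of e.x *
    (mag_s (e.h * ((FreeGroup.of e.x : FreeGroup W) : Mk W k)))⁻¹), ⟨_, by
      rw [SetLike.mem_coe, ← QuotientGroup.eq_one_iff, QuotientGroup.mk_mul, QuotientGroup.mk_mul,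
        QuotientGroup.mk_inv, mag_s_mk, mag_s_mk, mul_inv_cancel], rfl⟩⟩ else 1

/-- The value of a chain. -/
def mag_L (m : ℕ) (v : TEdge W k →₀ ZMod 2) : mag_A W k := v.prod fun e x => mag_l m e ^ x.val

theorem mag_L_add (m : ℕ) (v w : TEdge W k →₀ ZMod 2) :
    mag_L m (v + w) = mag_L m v * mag_L m w := by
  unfold mag_L
  refine Finsupp.prod_add_index' (fun e => ?_) fun e x y => ?_
  · rw [ZMod.val_zero, pow_zero]
  · have h1 : mag_l m e ^ 2 = 1 := by
      rw [pow_two]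
      exact mag_A_sq _
    have h2 : ∀ x y : ZMod 2, x.val + y.val = (x + y).val ∨
      x.val + y.val = (x + y).val + 2 := by decide
    rcases h2 x y with h | h
    · rw [← pow_add, h]
    · rw [← pow_add, h, pow_add, h1, mul_one]

theorem mag_L_single (m : ℕ) (e : TEdge W k) :
    mag_L m (Finsupp.single e 1) = mag_l m e := by
  unfold mag_L
  rw [Finsupp.prod_single_index]
  · exact pow_one _
  · exact pow_zero _

/-- The left side of the identity. -/
def mag_lhs (m : ℕ) (w : FreeGroup (ℕ × W)) : Mk W (k + 1) :=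
  QuotientGroup.mk' (stg W (k + 1)) (mag_s (1 : Mk W k) * pr m w *
    (mag_s ((pr m w : FreeGroup W) : Mk W k))⁻¹)

theorem mag_lhs_step (m : ℕ) (w : FreeGroup (ℕ × W)) (y : ℕ × W) :
    mag_lhs (k := k) m (w * FreeGroup.of y) = mag_lhs m w *
      (mag_l m ⟨y.1, (Phi β w).g y.1, y.2⟩ : mag_A W k).1 := by
  unfold mag_lhs mag_l
  rw [map_mul (pr m), mag_pr_of]
  by_cases h : y.1 = m
  · rw [if_pos h, if_pos h]
    change _ = _ * QuotientGroup.mk' (stg W (k + 1)) _
    rw [← map_mul, phi_g β, h, QuotientGroup.mk_mul]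
    congr 1
    group
  · rw [if_neg h, if_neg h, mul_one]
    change _ = _ * (1 : Mk W (k + 1))
    rw [mul_one]

theorem mag_rhs_step (m : ℕ) (w : FreeGroup (ℕ × W)) (y : ℕ × W) :
    mag_L m (Phi β (w * FreeGroup.of y)).v =
      mag_L m (Phi β w).v * mag_l m ⟨y.1, (Phi β w).g y.1, y.2⟩ := by
  rw [map_mul, Heis.mul_v, mag_L_add, mag_phi_of, tr_single, mag_L_single]
  congr 2
  refine TEdge.ext rfl ?_ rfl
  rw [smul_h, mul_one]

theorem mag_iff (m : ℕ) (w w0 : FreeGroup (ℕ × W)) :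
    mag_lhs m w0 = (mag_L m (Phi β w0).v : mag_A W k).1 ↔
      mag_lhs m (w0 * w) = (mag_L m (Phi β (w0 * w)).v : mag_A W k).1 := by
  have hof : ∀ (w0 : FreeGroup (ℕ × W)) (y : ℕ × W),
      mag_lhs m w0 = (mag_L m (Phi β w0).v : mag_A W k).1 ↔
      mag_lhs m (w0 * FreeGroup.of y) =
        (mag_L m (Phi β (w0 * FreeGroup.of y)).v : mag_A W k).1 := by
    intro w0 y
    rw [mag_lhs_step β, mag_rhs_step]
    change _ ↔ _ = (mag_L m (Phi β w0).v : mag_A W k).1 * _
    rw [mul_left_inj]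
  induction w using FreeGroup.induction_on generalizing w0 with
  | C1 => rw [mul_one]
  | of y => exact hof w0 y
  | inv_of y _ =>
    have h := hof (w0 * (FreeGroup.of y)⁻¹) y
    rw [inv_mul_cancel_right] at h
    exact h.symm
  | mul x y hx hy =>
    rw [← mul_assoc]
    exact (hx w0).trans (hy (w0 * x))

theorem mem_RT_succ (w : FreeGroup (ℕ × W)) (hw : w ∈ RT W k) (hv : (Phi β w).v = 0) :
    w ∈ RT W (k + 1) := by
  rw [mem_RT] at *
  intro m
  have h1 := (mag_iff β m w 1).1 (by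
    unfold mag_lhs mag_L
    rw [map_one, map_one, mul_one, QuotientGroup.mk_one, mul_inv_cancel, map_one,
      Heis.one_v, Finsupp.prod_zero_index]
    rfl)
  rw [one_mul, hv] at h1
  have h2 : mag_L m (0 : TEdge W k →₀ ZMod 2) = 1 := Finsupp.prod_zero_index
  rw [h2] at h1
  unfold mag_lhs at h1
  rw [(QuotientGroup.eq_one_iff (pr m w)).2 (hw m)] at h1
  have h3 : (mag_s (1 : Mk W k) * pr m w * (mag_s (1 : Mk W k))⁻¹) ∈ stg W (k + 1) :=
    (QuotientGroup.eq_one_iff _).1 h1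
  have h4 := (stg_normal (W := W) (k + 1)).conj_mem _ h3 (mag_s (1 : Mk W k))⁻¹
  have h5 : (mag_s (1 : Mk W k))⁻¹ * (mag_s (1 : Mk W k) * pr m w * (mag_s (1 : Mk W k))⁻¹) *
      (mag_s (1 : Mk W k))⁻¹⁻¹ = pr m w := by group
  rw [h5] at h4
  exact h4

end

end Pool.Agent.ZM
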