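import Pool.Agent.Lib.MP_ff2384_gt.Defs

set_option autoImplicit false

open Filter Topology

noncomputable section

namespace Pool.Agent.ZM

/-- Nodes at which members of `A` jump arbitrarily high. -/
def Jump {r : ℕ} (A : Set (Fin r → ℕ → ℕ)) (x : Fin r → ℕ → ℕ) (e : Fin r → ℕ) : Prop :=
  ∀ l : ℕ, ∃ a ∈ A, ∀ i, (∀ n < e i, a i n = x i n) ∧ l < a i (e i)

/-- There is a coordinate at which all functions of a member are large. -/
theorem node_level {r : ℕ} (A : Set (Fin r → ℕ → ℕ))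
    (h : ∀ g : ℕ → ℕ, ∃ a ∈ A, ∃ n, ∀ i, g n < a i n) :
    ∃ N, ∀ l : ℕ, ∃ a ∈ A, ∀ i, l < a i N := by
  by_contra hc
  push Not at hc
  choose g hg using hc
  obtain ⟨a, ha, n, hn⟩ := h g
  obtain ⟨i, hi⟩ := hg n a ha
  exact absurd (hn i) (not_lt.2 hi)

/-- Induction on the distance to the level `N`. -/
theorem node_ind {r : ℕ} (A : Set (Fin r → ℕ → ℕ)) (N : ℕ) (s : ℕ) :
    ∀ (x : Fin r → ℕ → ℕ) (e : Fin r → ℕ), x ∈ A → (∀ i, e i ≤ N) → ∑ i, (N - e i) = s →
      (∀ l : ℕ, ∃ a ∈ A, ∀ i, (∀ n < e i, a i n = x i n) ∧ l < a i N) →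
      ∃ x ∈ A, ∃ e, Jump A x e := by
  induction s using Nat.strong_induction_on with
  | _ s ih =>
    intro x e hx he hs hl
    by_contra hc
    push Not at hc
    have h1 : ¬ Jump A x e := hc x hx e
    unfold Jump at h1
    push Not at h1
    obtain ⟨l0, hl0⟩ := h1
    -- the bad coordinate and value, for every l
    have h2 : ∀ l : ℕ, ∃ a ∈ A, (∀ i, (∀ n < e i, a i n = x i n) ∧ l < a i N) ∧
        ∃ i, a i (e i) ≤ l0 := by
      intro l
      obtain ⟨a, ha, ha'⟩ := hl l
      obtain ⟨i, hi⟩ := hl0 a ha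
      exact ⟨a, ha, ha', i, hi (fun n hn => (ha' i).1 n hn)⟩
    choose a ha ha' i hi using h2
    -- pigeonhole
    obtain ⟨⟨i0, v⟩, hiv⟩ := Finite.exists_infinite_fiber
      (fun l => (i l, (⟨a l (i l) (e (i l)), Nat.lt_succ_of_le (hi l)⟩ : Fin (l0 + 1))))
    have hinf : ∀ L, ∃ l, L ≤ l ∧ i l = i0 ∧ a l i0 (e i0) = v := by
      intro L
      rw [Set.infinite_coe_iff] at hiv
      obtain ⟨l, hl1, hl2⟩ := hiv.exists_gt L
      have h3 : (i l, (⟨a l (i l) (e (i l)), Nat.lt_succ_of_le (hi l)⟩ : Fin (l0 + 1))) =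
        (i0, v) := hl1
      rw [Prod.mk.injEq] at h3
      obtain ⟨h4, h5⟩ := h3
      refine ⟨l, hl2.le, h4, ?_⟩
      have h6 := congrArg Fin.val h5
      simp only at h6
      rw [← h6, h4]
    obtain ⟨l1, h11, h12, h13⟩ := hinf (l0 + 1)
    have hne : e i0 < N := by
      refine lt_of_le_of_ne (he i0) fun h => ?_
      have h7 := (ha' l1 i0).2
      have h8 := hi l1
      rw [h12, h] at h8
      omega
    refine absurd (ih (∑ j, (N - Function.update e i0 (e i0 + 1) j)) ?_ (a l1)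
      (Function.update e i0 (e i0 + 1)) (ha l1) ?_ rfl ?_) ?_
    · rw [← hs]
      refine Finset.sum_lt_sum (fun j _ => ?_) ⟨i0, Finset.mem_univ _, ?_⟩
      · by_cases hj : j = i0
        · subst hj
          rw [Function.update_self]
          omega
        · rw [Function.update_of_ne hj]
      · rw [Function.update_self]
        omega
    · intro j
      by_cases hj : j = i0
      · subst hj
        rw [Function.update_self]
        omega
      · rw [Function.update_of_ne hj]
        exact he j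
    · intro l
      obtain ⟨l2, h21, h22, h23⟩ := hinf l
      refine ⟨a l2, ha l2, fun j => ⟨fun n hn => ?_, h21.trans_lt (ha' l2 j).2⟩⟩
      by_cases hn' : n < e j
      · rw [(ha' l2 j).1 n hn', (ha' l1 j).1 n hn']
      · by_cases hj : j = i0
        · subst hj
          rw [Function.update_self] at hn
          have h9 : n = e j := by omega
          rw [h9, h23, h13]
        · rw [Function.update_of_ne hj] at hn
          exact absurd hn hn'
    · rintro ⟨x', hx', e', hj⟩
      exact hc x' hx' e' hj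

theorem exists_node {r : ℕ} (A : Set (Fin r → ℕ → ℕ))
    (h : ∀ g : ℕ → ℕ, ∃ a ∈ A, ∃ n, ∀ i, g n < a i n) : ∃ x ∈ A, ∃ e, Jump A x e := by
  obtain ⟨N, hN⟩ := node_level A h
  obtain ⟨x, hx, -⟩ := hN 0
  refine node_ind A N _ x (fun _ => 0) hx (fun _ => Nat.zero_le _) rfl fun l => ?_
  obtain ⟨a, ha, ha'⟩ := hN l
  exact ⟨a, ha, fun i => ⟨fun n hn => absurd hn (Nat.not_lt_zero _), ha' i⟩⟩

end Pool.Agent.ZM
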