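import Pool.Agent.Lib.MP_ff2384_gt.Good
import Pool.Agent.Lib.MP_ff2384_gt.Mag
import Pool.Agent.Lib.MP_ff2384_gt.Far

set_option autoImplicit false

open Filter Topology

noncomputable section

namespace Pool.Agent.ZM

section
variable {W : Type} {k : ℕ}

theorem noniso_es_finite (e : TEdge W k) : (es e).Finite :=
  (sup_finite e.h).insert e.x

theorem noniso_zmod {x : ZMod 2} (h : x ≠ 0) : x = 1 := by
  revert x
  decide

theorem noniso_cof [LinearOrder W] (hW : CofCount W) {T : Type} [Countable T] [Nonempty T]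
    (τ : W → T) : ∃ t, ∀ α, ∃ α', α ≤ α' ∧ τ α' = t := by
  by_contra hcon
  push Not at hcon
  obtain ⟨f, hf⟩ := exists_surjective_nat T
  choose B hB using hcon
  obtain ⟨β, hβ⟩ := hW fun n => B (f n)
  obtain ⟨n, hn⟩ := hf (τ β)
  exact hB (f n) β (hβ n).le hn.symm

theorem noniso [LinearOrder W] {c : W → W → ℕ} (hc : Strong c) (hW : CofCount W)
    {P : ℕ → Set (TEdge W k)} (hP : Sepr P) (D : Set (FreeGroup (ℕ × W)))
    (hD : ∀ w ∈ D, w ∈ RT W k)
    (hl : ∀ α : W, ∃ w ∈ D, w ∈ FT 0 α ∧ w ∉ RT W (k + 1)) :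
    ∃ u ∈ D, ∃ v ∈ D, Phi (frm c P) (u * v * u⁻¹ * v⁻¹) ≠ 1 := by
  classical
  choose w hwD hwF hwR using hl
  have hv0 : ∀ α, (Phi (frm c P) (w α)).v ≠ 0 := fun α h =>
    hwR α (mem_RT_succ (frm c P) (w α) (hD _ (hwD α)) h)
  have hg1 : ∀ α, (Phi (frm c P) (w α)).g = 1 := fun α =>
    (phi_g_eq_one (frm c P) (w α)).2 (hD _ (hwD α))
  have hfar : ∀ α, ∀ e ∈ (Phi (frm c P) (w α)).v.support, ∀ x ∈ es e, α < x := fun α e he =>
    ((far (frm c P) 0 α (w α) (hwF α)).1 e he).2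
  have hex : ∀ α, ∃ e, e ∈ (Phi (frm c P) (w α)).v.support := fun α =>
    Finsupp.support_nonempty_iff.2 (hv0 α)
  choose e he using hex
  choose p hp hp' using fun α => hP (Phi (frm c P) (w α)).v.support (e α) (he α)
  let a : W → Finset W := fun α =>
    (Phi (frm c P) (w α)).v.support.biUnion fun e => (noniso_es_finite e).toFinset
  have ha : ∀ α, ∀ e ∈ (Phi (frm c P) (w α)).v.support, ∀ x ∈ es e, x ∈ a α := by
    intro α e he x hx
    exact Finset.mem_biUnion.2 ⟨e, he, (noniso_es_finite e).mem_toFinset.2 hx⟩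
  have ha' : ∀ α, ∀ x ∈ a α, α < x := by
    intro α x hx
    obtain ⟨e, he, hx⟩ := Finset.mem_biUnion.1 hx
    exact hfar α e he x ((noniso_es_finite e).mem_toFinset.1 hx)
  let I : W → Finset ℕ := fun α => (a α ×ˢ a α).image fun q => c q.1 q.2
  have hI : ∀ α, ∀ x ∈ a α, ∀ y ∈ a α, c x y ∈ I α := by
    intro α x hx y hy
    exact Finset.mem_image.2 ⟨(x, y), Finset.mem_product.2 ⟨hx, hy⟩, rfl⟩
  obtain ⟨⟨p0, m0, I0⟩, ht⟩ := noniso_cof hW fun α => (p α, (e α).lev, I α)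
  obtain ⟨s, hs⟩ : ∃ s, ∀ n ∈ I0, n < s := ⟨I0.sup id + 1, fun n hn =>
    Nat.lt_succ_of_le (Finset.le_sup (f := id) hn)⟩
  have hN1 : (Nat.pair p0 s).unpair.1 = p0 := by rw [Nat.unpair_pair]
  have hN2 : Nat.pair p0 s ∉ I0 := fun h =>
    absurd (hs _ h) (not_lt.2 (Nat.right_le_pair p0 s))
  generalize Nat.pair p0 s = N at hN1 hN2
  obtain ⟨a1, ⟨α1, h1, rfl⟩, a2, ⟨α2, h2, rfl⟩, h12⟩ := hc
    {b | ∃ α, (p α, (e α).lev, I α) = (p0, m0, I0) ∧ b = a α}
    (fun α => by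
      obtain ⟨α', h, h'⟩ := ht α
      exact ⟨a α', ⟨α', h', rfl⟩, fun x hx => h.trans_lt (ha' α' x hx)⟩) N
  simp only [Prod.mk.injEq] at h1 h2
  obtain ⟨hp1, hm1, hI1⟩ := h1
  obtain ⟨hp2, hm2, hI2⟩ := h2
  have hgood : ∀ e1 ∈ (Phi (frm c P) (w α1)).v.support,
      ∀ e2 ∈ (Phi (frm c P) (w α2)).v.support, e1.lev = e2.lev → Good c N e1 e2 := by
    intro e1 he1 e2 he2 hlev
    refine ⟨hlev, fun x hx y hy => h12 x (ha α1 e1 he1 x hx) y (ha α2 e2 he2 y hy),
      fun x hx y hy _ h => hN2 ?_, fun x hx y hy _ h => hN2 ?_⟩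
    · rw [← h, ← hI1]
      exact hI α1 x (ha α1 e1 he1 x hx) y (ha α1 e1 he1 y hy)
    · rw [← h, ← hI2]
      exact hI α2 x (ha α2 e2 he2 x hx) y (ha α2 e2 he2 y hy)
  have hb0 : ∀ e1 ∈ (Phi (frm c P) (w α1)).v.support,
      ∀ e2 ∈ (Phi (frm c P) (w α2)).v.support, ¬ (e1 = e α1 ∧ e2 = e α2) →
      (frm c P).b e1 e2 = 0 := by
    intro e1 he1 e2 he2 hne
    refine if_neg ?_
    rintro ⟨g, N', hG, hP1, hP2⟩
    have hlev : e1.lev = e2.lev := by
      have := hG.lev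
      simpa using this
    obtain ⟨hg1, hg2, hNN⟩ := good_unique g (hgood e1 he1 e2 he2 hlev) hG
    rw [hg1, ← hNN, hN1] at hP1
    rw [hg2, ← hNN, hN1] at hP2
    refine hne ⟨?_, ?_⟩
    · by_contra hcon
      exact hp' α1 e1 he1 hcon (hp1 ▸ hP1)
    · by_contra hcon
      exact hp' α2 e2 he2 hcon (hp2 ▸ hP2)
  have hb1 : (frm c P).b (e α1) (e α2) = 1 := by
    refine if_pos ⟨1, N, ?_, ?_, ?_⟩
    · rw [one_smul, one_smul]
      exact hgood _ (he α1) _ (he α2) (hm1.trans hm2.symm)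
    · rw [one_smul, hN1, ← hp1]
      exact hp α1
    · rw [one_smul, hN1, ← hp2]
      exact hp α2
  have hb2 : ∀ e1 ∈ (Phi (frm c P) (w α1)).v.support,
      ∀ e2 ∈ (Phi (frm c P) (w α2)).v.support, (frm c P).b e2 e1 = 0 := by
    intro e1 he1 e2 he2
    refine if_neg ?_
    rintro ⟨g, N', hG, -, -⟩
    have hlev : e1.lev = e2.lev := by
      have := hG.lev
      simpa using this.symm
    exact good_asymm g (hgood e1 he1 e2 he2 hlev) hG
  have hB12 : bil (frm c P).b (Phi (frm c P) (w α1)).v (Phi (frm c P) (w α2)).v = 1 := by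
    unfold bil Finsupp.sum
    rw [Finset.sum_eq_single (e α1)]
    beta_reduce
    rw [Finset.sum_eq_single (e α2)]
    · rw [hb1, noniso_zmod (Finsupp.mem_support_iff.1 (he α1)),
        noniso_zmod (Finsupp.mem_support_iff.1 (he α2))]
      rfl
    · intro e2 he2 hne
      rw [hb0 _ (he α1) e2 he2 (fun h => hne h.2), mul_zero]
    · intro h
      exact absurd (he α2) h
    · intro e1 he1 hne
      refine Finset.sum_eq_zero fun e2 he2 => ?_
      beta_reduce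
      rw [hb0 e1 he1 e2 he2 (fun h => hne h.1), mul_zero]
    · intro h
      exact absurd (he α1) h
  have hB21 : bil (frm c P).b (Phi (frm c P) (w α2)).v (Phi (frm c P) (w α1)).v = 0 := by
    unfold bil Finsupp.sum
    refine Finset.sum_eq_zero fun e2 he2 => Finset.sum_eq_zero fun e1 he1 => ?_
    beta_reduce
    rw [hb2 e1 he1 e2 he2, mul_zero]
  refine ⟨w α1, hwD α1, w α2, hwD α2, fun hone => ?_⟩
  rw [map_mul, map_mul, map_mul, map_inv, map_inv] at hone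
  have hcomm : Phi (frm c P) (w α1) * Phi (frm c P) (w α2) =
      Phi (frm c P) (w α2) * Phi (frm c P) (w α1) := by
    rw [mul_inv_eq_one, mul_inv_eq_iff_eq_mul] at hone
    exact hone
  have hs := congrArg Heis.s hcomm
  rw [Heis.mul_s, Heis.mul_s, hg1 α1, hg1 α2, tr_one, tr_one, hB12, hB21] at hs
  have hfin : ∀ x y : ZMod 2, x + y + 1 = y + x + 0 → False := by decide
  exact hfin _ _ hs

end

end Pool.Agent.ZM
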