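import Pool.Agent.Lib.MP_ff2384_gt.Defs

set_option autoImplicit false

open Filter Topology

noncomputable section

namespace Pool.Agent.ZM

/-- Strictly increasing functions. -/
abbrev scale_F : Type := {x : ℕ → ℕ // StrictMono x}

/-- Eventual strict domination. -/
def scale_R (x y : scale_F) : Prop := ∀ᶠ n in atTop, x.1 n < y.1 n

theorem scale_trans {x y z : scale_F} (h : scale_R x y) (h' : scale_R y z) : scale_R x z := by
  filter_upwards [h, h'] with n h1 h2
  exact h1.trans h2

theorem scale_irrefl (x : scale_F) : ¬ scale_R x x := by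
  intro h
  obtain ⟨n, hn⟩ := h.exists
  exact lt_irrefl _ hn

/-- The maximal chain. -/
abbrev scale_W : Type := {x : scale_F // x ∈ maxChain scale_R}

theorem scale_tri (x y : scale_W) : x = y ∨ scale_R x.1 y.1 ∨ scale_R y.1 x.1 := by
  by_cases h : x = y
  · exact Or.inl h
  · exact Or.inr (maxChain_spec.1 x.2 y.2 fun h' => h (Subtype.ext h'))

open Classical in
instance : LinearOrder scale_W where
  le x y := x = y ∨ scale_R x.1 y.1
  lt x y := scale_R x.1 y.1
  le_refl x := Or.inl rfl
  le_trans x y z h h' := by
    rcases h with rfl | h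
    · exact h'
    · rcases h' with rfl | h'
      · exact Or.inr h
      · exact Or.inr (scale_trans h h')
  le_antisymm x y h h' := by
    rcases h with rfl | h
    · rfl
    · rcases h' with h' | h'
      · exact h'.symm
      · exact absurd (scale_trans h h') (scale_irrefl _)
  le_total x y := by
    rcases scale_tri x y with h | h | h
    · exact Or.inl (Or.inl h)
    · exact Or.inl (Or.inr h)
    · exact Or.inr (Or.inr h)
  lt_iff_le_not_ge x y := by
    constructor
    · intro h
      refine ⟨Or.inr h, ?_⟩
      rintro (h' | h')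
      · rw [h'] at h
        exact scale_irrefl _ h
      · exact scale_irrefl _ (scale_trans h h')
    · rintro ⟨h | h, h'⟩
      · exact absurd (Or.inl h.symm) h'
      · exact h
  toDecidableLE := inferInstance

/-- A strictly increasing function above a given function. -/
def scale_up (g : ℕ → ℕ) (n : ℕ) : ℕ := n + 1 + ∑ m ∈ Finset.range (n + 1), g m

theorem scale_up_lt (g : ℕ → ℕ) (n : ℕ) : g n < scale_up g n := by
  unfold scale_up
  have h := Finset.single_le_sum (f := g) (fun i _ => Nat.zero_le _)
    (Finset.mem_range.2 (Nat.lt_add_one n))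
  omega

theorem scale_up_mono (g : ℕ → ℕ) : StrictMono (scale_up g) := by
  refine strictMono_nat_of_lt_succ fun n => ?_
  unfold scale_up
  rw [Finset.sum_range_succ g (n + 1)]
  omega

theorem exists_scale : ∃ (W : Type) (_ : LinearOrder W), Nonempty (Scale W) := by
  refine ⟨scale_W, inferInstance, ⟨⟨fun x => x.1.1, fun x => x.1.2, fun x y h => h, ?_⟩⟩⟩
  intro g
  by_contra hc
  push Not at hc
  have hup : ∀ x ∈ maxChain scale_R, scale_R x ⟨scale_up g, scale_up_mono g⟩ := by
    intro x hx
    filter_upwards [hc ⟨x, hx⟩] with n hn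
    exact hn.trans_lt (scale_up_lt g n)
  have h1 : IsChain scale_R (insert ⟨scale_up g, scale_up_mono g⟩ (maxChain scale_R)) := by
    refine maxChain_spec.1.insert fun x hx _ => Or.inr (hup x hx)
  have h2 := maxChain_spec.2 h1 (Set.subset_insert _ _)
  have h3 : (⟨scale_up g, scale_up_mono g⟩ : scale_F) ∈ maxChain scale_R := by
    rw [h2]
    exact Set.mem_insert _ _
  exact scale_irrefl _ (hup _ h3)

theorem Scale.cof {W : Type} [LinearOrder W] (S : Scale W) : CofCount W := by
  intro α
  by_contra hc
  push Not at hc
  obtain ⟨β, hβ⟩ := S.unb fun m => ∑ n ∈ Finset.range (m + 1), S.f (α n) m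
  apply hβ
  obtain ⟨n, hn⟩ := hc β
  have h1 : ∀ᶠ m in atTop, S.f β m ≤ S.f (α n) m := by
    rcases hn.eq_or_lt with h | h
    · rw [h]
      exact Eventually.of_forall fun m => le_rfl
    · filter_upwards [S.lt _ _ h] with m hm
      exact hm.le
  filter_upwards [h1, eventually_ge_atTop n] with m h2 h3
  refine h2.trans ?_
  exact Finset.single_le_sum (f := fun n => S.f (α n) m) (fun i _ => Nat.zero_le _)
    (Finset.mem_range.2 (Nat.lt_succ_of_le h3))

theorem Scale.inj {W : Type} [LinearOrder W] (S : Scale W) : Function.Injective S.f := by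
  intro α β h
  rcases lt_trichotomy α β with h' | h' | h'
  · obtain ⟨n, hn⟩ := (S.lt _ _ h').exists
    rw [h] at hn
    exact absurd hn (lt_irrefl _)
  · exact h'
  · obtain ⟨n, hn⟩ := (S.lt _ _ h').exists
    rw [h] at hn
    exact absurd hn (lt_irrefl _)

end Pool.Agent.ZM
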