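import Mathlib
import Pool.Agent.Lib.MP_ff2384_gt.Defs

/-!
# MP_ff2384_gt, module SD: topology of semidirect products
-/

set_option autoImplicit false

open Filter Topology

noncomputable section

namespace Pool.Agent.ZM

/-! ## Module SD -/

section
variable {U U' Λ : Type} [Group U] [Group U'] [Group Λ] [TopologicalSpace U] [TopologicalSpace U']
  (φ : Λ →* MulAut U) (φ' : Λ →* MulAut U')

theorem sd_left : Continuous fun x : U ⋊[φ] Λ => x.left := by
  let _ : TopologicalSpace Λ := ⊥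
  have h : Continuous fun x : U ⋊[φ] Λ => (x.left, x.right) := continuous_induced_dom
  exact continuous_fst.comp h

theorem sd_right (s : Set Λ) : IsOpen {x : U ⋊[φ] Λ | x.right ∈ s} := by
  let _ : TopologicalSpace Λ := ⊥
  have : DiscreteTopology Λ := ⟨rfl⟩
  have h : Continuous fun x : U ⋊[φ] Λ => (x.left, x.right) := continuous_induced_dom
  exact (isOpen_discrete s).preimage (continuous_snd.comp h)

theorem sd_mk (a : Λ) : Continuous fun u : U => (⟨u, a⟩ : U ⋊[φ] Λ) := by
  let _ : TopologicalSpace Λ := ⊥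
  have : DiscreteTopology Λ := ⟨rfl⟩
  exact continuous_induced_rng.2 (continuous_id.prodMk continuous_const)

theorem sd_open_iff (s : Set (U ⋊[φ] Λ)) :
    IsOpen s ↔ ∀ a : Λ, IsOpen ((fun u : U => (⟨u, a⟩ : U ⋊[φ] Λ)) ⁻¹' s) := by
  constructor
  · intro h a
    exact h.preimage (sd_mk φ a)
  · intro h
    have h1 : s = ⋃ a : Λ, ((fun x : U ⋊[φ] Λ => x.left) ⁻¹'
        ((fun u : U => (⟨u, a⟩ : U ⋊[φ] Λ)) ⁻¹' s)) ∩ {x : U ⋊[φ] Λ | x.right ∈ ({a} : Set Λ)} := by
      ext x
      constructor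
      · intro hx
        exact Set.mem_iUnion.2 ⟨x.right, hx, rfl⟩
      · intro hx
        obtain ⟨a, hx1, hx2⟩ := Set.mem_iUnion.1 hx
        have h2 : x.right = a := hx2
        subst h2
        exact hx1
    rw [h1]
    exact isOpen_iUnion fun a => ((h a).preimage (sd_left φ)).inter (sd_right φ {a})

theorem sd_cont_to {A : Type} [TopologicalSpace A] (f : A → U ⋊[φ] Λ)
    (h1 : Continuous fun x => (f x).left) (h2 : ∀ a, IsOpen {x | (f x).right = a}) :
    Continuous f := by
  let _ : TopologicalSpace Λ := ⊥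
  have : DiscreteTopology Λ := ⟨rfl⟩
  refine continuous_induced_rng.2 (h1.prodMk ?_)
  rw [continuous_discrete_rng]
  exact h2

theorem sd_cont_act {A : Type} [TopologicalSpace A] (h : ∀ a, Continuous (φ a)) (f : A → U)
    (g : A → Λ) (hf : Continuous f) (hg : ∀ a, IsOpen {x | g x = a}) :
    Continuous fun x => φ (g x) (f x) := by
  rw [continuous_iff_continuousAt]
  intro x0
  have h1 : ContinuousAt (fun x => φ (g x0) (f x)) x0 := ((h (g x0)).comp hf).continuousAt
  refine h1.congr ?_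
  filter_upwards [(hg (g x0)).mem_nhds rfl] with x hx
  have h2 : g x = g x0 := hx
  rw [h2]

theorem sd_group [IsTopologicalGroup U] (h : ∀ a, Continuous (φ a)) :
    IsTopologicalGroup (U ⋊[φ] Λ) := by
  have hr : ∀ a, IsOpen {x : U ⋊[φ] Λ | x.right = a} := fun a => sd_right φ {a}
  refine { continuous_mul := ?_, continuous_inv := ?_ }
  · refine sd_cont_to φ _ ?_ ?_
    · have h1 : Continuous fun q : (U ⋊[φ] Λ) × (U ⋊[φ] Λ) => q.1.left :=
        (sd_left φ).comp continuous_fst
      have h2 : Continuous fun q : (U ⋊[φ] Λ) × (U ⋊[φ] Λ) => φ q.1.right q.2.left :=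
        sd_cont_act φ h _ _ ((sd_left φ).comp continuous_snd)
          (fun a => (hr a).preimage continuous_fst)
      exact h1.mul h2
    · intro a
      have : {x : (U ⋊[φ] Λ) × (U ⋊[φ] Λ) | (x.1 * x.2).right = a} =
          ⋃ b : Λ, {x : (U ⋊[φ] Λ) × (U ⋊[φ] Λ) | x.1.right = b} ∩
            {x : (U ⋊[φ] Λ) × (U ⋊[φ] Λ) | x.2.right = b⁻¹ * a} := by
        ext x
        rw [Set.mem_iUnion]
        constructor
        · intro hx
          have hx' : x.1.right * x.2.right = a := hx
          refine ⟨x.1.right, rfl, ?_⟩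
          show x.2.right = x.1.right⁻¹ * a
          rw [← hx', inv_mul_cancel_left]
        · rintro ⟨b, hx1, hx2⟩
          have h1 : x.1.right = b := hx1
          have h2 : x.2.right = b⁻¹ * a := hx2
          show x.1.right * x.2.right = a
          rw [h1, h2, mul_inv_cancel_left]
      rw [this]
      exact isOpen_iUnion fun b => ((hr b).preimage continuous_fst).inter
        ((hr (b⁻¹ * a)).preimage continuous_snd)
  · refine sd_cont_to φ _ ?_ ?_
    · show Continuous fun x : U ⋊[φ] Λ => φ x.right⁻¹ x.left⁻¹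
      refine sd_cont_act φ h _ _ (sd_left φ).inv ?_
      intro a
      have : {x : U ⋊[φ] Λ | x.right⁻¹ = a} = {x : U ⋊[φ] Λ | x.right = a⁻¹} := by
        ext x
        exact inv_eq_iff_eq_inv
      rw [this]
      exact hr _
    · intro a
      have : {x : U ⋊[φ] Λ | x⁻¹.right = a} = {x : U ⋊[φ] Λ | x.right = a⁻¹} := by
        ext x
        exact inv_eq_iff_eq_inv
      rw [this]
      exact hr _

omit [TopologicalSpace U] in
theorem sd_inj : Function.Injective fun x : U ⋊[φ] Λ => (x.left, x.right) := by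
  intro x y h
  exact SemidirectProduct.ext (congrArg Prod.fst h) (congrArg Prod.snd h)

theorem sd_t2 [T2Space U] : T2Space (U ⋊[φ] Λ) := by
  let _ : TopologicalSpace Λ := ⊥
  have : DiscreteTopology Λ := ⟨rfl⟩
  exact T2Space.of_injective_continuous (f := fun x : U ⋊[φ] Λ => (x.left, x.right))
    (sd_inj φ) continuous_induced_dom

theorem sd_lc [CompactSpace U] [T2Space U] : LocallyCompactSpace (U ⋊[φ] Λ) := by
  let _ : TopologicalSpace Λ := ⊥
  have : DiscreteTopology Λ := ⟨rfl⟩
  have h : Topology.IsInducing fun x : U ⋊[φ] Λ => (x.left, x.right) := ⟨rfl⟩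
  have hr : Set.range (fun x : U ⋊[φ] Λ => (x.left, x.right)) = Set.univ :=
    Set.range_eq_univ.2 fun q => ⟨⟨q.1, q.2⟩, rfl⟩
  have h2 : Topology.IsClosedEmbedding fun x : U ⋊[φ] Λ => (x.left, x.right) :=
    ⟨⟨h, sd_inj φ⟩, by rw [hr]; exact isClosed_univ⟩
  exact h2.locallyCompactSpace

theorem sd_ker_open : IsOpen ((SemidirectProduct.rightHom : U ⋊[φ] Λ →* Λ).ker : Set (U ⋊[φ] Λ)) :=
  sd_right φ {1}

theorem sd_ker_compact [CompactSpace U] :
    IsCompact ((SemidirectProduct.rightHom : U ⋊[φ] Λ →* Λ).ker : Set (U ⋊[φ] Λ)) := by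
  have : ((SemidirectProduct.rightHom : U ⋊[φ] Λ →* Λ).ker : Set (U ⋊[φ] Λ)) =
      (fun u : U => (⟨u, 1⟩ : U ⋊[φ] Λ)) '' Set.univ := by
    ext x
    constructor
    · intro hx
      have hx' : x.right = 1 := hx
      exact ⟨x.left, Set.mem_univ _, SemidirectProduct.ext rfl hx'.symm⟩
    · rintro ⟨u, -, rfl⟩
      show (⟨u, 1⟩ : U ⋊[φ] Λ).right = 1
      rfl
  rw [this]
  exact isCompact_univ.image (sd_mk φ 1)

variable {φ φ'}

/-- The map of semidirect products with the same acting group. -/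
def sdMap (f : U →* U') (h : ∀ a u, f (φ a u) = φ' a (f u)) : U ⋊[φ] Λ →* U' ⋊[φ'] Λ where
  toFun x := ⟨f x.left, x.right⟩
  map_one' := by
    ext <;> simp
  map_mul' x y := by
    ext <;> simp [h]

theorem sdMap_continuous (f : U →* U') (h : ∀ a u, f (φ a u) = φ' a (f u)) (hf : Continuous f) :
    Continuous (sdMap f h) :=
  sd_cont_to φ' _ (hf.comp (sd_left φ)) fun a => sd_right φ {a}

theorem sdMap_open (f : U →* U') (h : ∀ a u, f (φ a u) = φ' a (f u)) (hf : IsOpenMap f) :
    IsOpenMap (sdMap f h) := by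
  intro s hs
  rw [sd_open_iff]
  intro a
  have : (fun u : U' => (⟨u, a⟩ : U' ⋊[φ'] Λ)) ⁻¹' (sdMap f h '' s) =
      f '' ((fun u : U => (⟨u, a⟩ : U ⋊[φ] Λ)) ⁻¹' s) := by
    ext u
    constructor
    · rintro ⟨x, hx, hxu⟩
      have h1 : f x.left = u := congrArg SemidirectProduct.left hxu
      have h2 : x.right = a := congrArg SemidirectProduct.right hxu
      refine ⟨x.left, ?_, h1⟩
      show (⟨x.left, a⟩ : U ⋊[φ] Λ) ∈ s
      rw [← h2]
      exact hx
    · rintro ⟨v, hv, rfl⟩
      exact ⟨⟨v, a⟩, hv, rfl⟩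
  rw [this]
  exact hf _ ((sd_open_iff φ s).1 hs a)

omit [TopologicalSpace U] [TopologicalSpace U'] in
theorem sdMap_surj (f : U →* U') (h : ∀ a u, f (φ a u) = φ' a (f u))
    (hf : Function.Surjective f) : Function.Surjective (sdMap f h) := by
  rintro ⟨u, a⟩
  obtain ⟨v, rfl⟩ := hf u
  exact ⟨⟨v, a⟩, rfl⟩

end

end Pool.Agent.ZM
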