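import Pool.Agent.Lib.MP_ff2384_gt.Leap
import Pool.Agent.Lib.MP_ff2384_gt.Scale

set_option autoImplicit false

open Filter Topology

noncomputable section

namespace Pool.Agent.ZM

section
variable {W : Type} [LinearOrder W]

/-- Families of tuples that go to infinity. -/
def strong_Large {r : ℕ} (T : Set (Fin r → W)) : Prop := ∀ α : W, ∃ t ∈ T, ∀ i, α < t i

theorem strong_bound {ι : Type} [Countable ι] (hW : CofCount W) [Nonempty W] (α : ι → W) :
    ∃ β, ∀ i, α i < β := by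
  rcases isEmpty_or_nonempty ι with h | h
  · exact ⟨Classical.arbitrary W, fun i => h.elim i⟩
  · obtain ⟨f, hf⟩ := exists_surjective_nat ι
    obtain ⟨β, hβ⟩ := hW fun n => α (f n)
    refine ⟨β, fun i => ?_⟩
    obtain ⟨n, rfl⟩ := hf i
    exact hβ n

/-- Pigeonhole. -/
theorem strong_pigeon {ι : Type} [Countable ι] (hW : CofCount W) [Nonempty W] {r : ℕ}
    (T : Set (Fin r → W)) (hT : strong_Large T) (c : (Fin r → W) → ι) :
    ∃ k, strong_Large {t | t ∈ T ∧ c t = k} := by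
  by_contra hc
  unfold strong_Large at hc
  push Not at hc
  choose α hα using hc
  obtain ⟨β, hβ⟩ := strong_bound hW α
  obtain ⟨t, ht, ht'⟩ := hT β
  obtain ⟨i, hi⟩ := hα (c t) t ⟨ht, rfl⟩
  exact absurd (ht' i) (not_lt.2 (hi.trans (hβ _).le))

/-- The pattern of a tuple below `L`. -/
def strong_pat (S : Scale W) {r : ℕ} (L : ℕ) (t : Fin r → W) : Fin r → Fin L → ℕ :=
  fun i n => S.f (t i) n

theorem strong_pat_iff (S : Scale W) {r : ℕ} (L : ℕ) (t t' : Fin r → W) :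
    strong_pat S L t = strong_pat S L t' ↔ ∀ i, ∀ n < L, S.f (t i) n = S.f (t' i) n := by
  unfold strong_pat
  constructor
  · intro h i n hn
    exact congrFun (congrFun h i) ⟨n, hn⟩
  · intro h
    funext i n
    exact h i n n.2

/-- A countable dense subfamily. -/
theorem strong_dense (S : Scale W) {r : ℕ} (T : Set (Fin r → W)) :
    ∃ D0 : Set (Fin r → W), D0.Countable ∧ D0 ⊆ T ∧
      ∀ t ∈ T, ∀ L, ∃ d ∈ D0, ∀ i, ∀ n < L, S.f (d i) n = S.f (t i) n := by
  classical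
  rcases T.eq_empty_or_nonempty with rfl | ⟨t0, ht0⟩
  · exact ⟨∅, Set.countable_empty, subset_rfl, by simp⟩
  · let pick : (Σ L : ℕ, Fin r → Fin L → ℕ) → (Fin r → W) := fun p =>
      if h : ∃ t ∈ T, strong_pat S p.1 t = p.2 then h.choose else t0
    refine ⟨Set.range pick, Set.countable_range _, ?_, ?_⟩
    · rintro _ ⟨p, rfl⟩
      simp only [pick]
      split_ifs with h
      · exact h.choose_spec.1
      · exact ht0
    · intro t ht L
      refine ⟨pick ⟨L, strong_pat S L t⟩, ⟨_, rfl⟩, ?_⟩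
      have h : ∃ t' ∈ T, strong_pat S L t' = strong_pat S L t := ⟨t, ht, rfl⟩
      have h2 : pick ⟨L, strong_pat S L t⟩ = h.choose := dif_pos h
      rw [← strong_pat_iff, h2]
      exact h.choose_spec.2

/-- Thinning. -/
theorem strong_thin (S : Scale W) (hW : CofCount W) [Nonempty W] {r : ℕ} (T : Set (Fin r → W))
    (hT : strong_Large T) : ∃ T2 ⊆ T, strong_Large T2 ∧ ∀ t ∈ T2, ∀ M : ℕ,
      strong_Large {t' | t' ∈ T2 ∧ ∀ i, ∀ n < M, S.f (t' i) n = S.f (t i) n} := by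
  classical
  let cls : (Σ L : ℕ, Fin r → Fin L → ℕ) → Set (Fin r → W) := fun p =>
    {t | t ∈ T ∧ strong_pat S p.1 t = p.2}
  have hb : ∀ p : (Σ L : ℕ, Fin r → Fin L → ℕ), ∃ α : W, ¬ strong_Large (cls p) →
      ∀ t ∈ cls p, ∃ i, t i ≤ α := by
    intro p
    by_cases h : strong_Large (cls p)
    · exact ⟨Classical.arbitrary W, fun h' => absurd h h'⟩
    · have h' := h
      unfold strong_Large at h'
      push Not at h'
      obtain ⟨α, hα⟩ := h'
      exact ⟨α, fun _ => hα⟩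
  choose α hα using hb
  obtain ⟨β, hβ⟩ := strong_bound hW α
  have hbig : ∀ t ∈ T, (∀ i, β < t i) → ∀ L, strong_Large (cls ⟨L, strong_pat S L t⟩) := by
    intro t ht htβ L
    by_contra hc
    obtain ⟨i, hi⟩ := hα _ hc t ⟨ht, rfl⟩
    exact absurd (htβ i) (not_lt.2 (hi.trans (hβ _).le))
  refine ⟨{t | t ∈ T ∧ ∀ i, β < t i}, fun t ht => ht.1, ?_, ?_⟩
  · intro α'
    obtain ⟨t, ht, ht'⟩ := hT (max α' β)
    exact ⟨t, ⟨ht, fun i => (le_max_right _ _).trans_lt (ht' i)⟩,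
      fun i => (le_max_left _ _).trans_lt (ht' i)⟩
  · rintro t ⟨ht, htβ⟩ M α'
    obtain ⟨t', ⟨ht1, ht2⟩, ht'⟩ := hbig t ht htβ M (max α' β)
    refine ⟨t', ⟨⟨ht1, fun i => (le_max_right _ _).trans_lt (ht' i)⟩, ?_⟩,
      fun i => (le_max_left _ _).trans_lt (ht' i)⟩
    exact (strong_pat_iff S M t' t).1 ht2

/-- The heart: tuples. -/
theorem strong_tuples (S : Scale W) [Nonempty W] {r : ℕ} (T : Set (Fin r → W))
    (hT : strong_Large T) (N : ℕ) :
    ∃ t ∈ T, ∃ t' ∈ T, ∀ i j, t i < t' j ∧ col (S.f (t i)) (S.f (t' j)) = N := by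
  have hW := S.cof
  obtain ⟨D0, hD1, hD2, hD3⟩ := strong_dense S T
  -- the bound of `D0`
  have : Countable D0 := hD1.to_subtype
  obtain ⟨γ, hγ⟩ := strong_bound (ι := D0 × Fin r) hW fun p => p.1.1 p.2
  -- the common index
  have hTγ : strong_Large {t | t ∈ T ∧ ∀ i, γ < t i} := by
    intro α
    obtain ⟨t, ht, ht'⟩ := hT (max α γ)
    exact ⟨t, ⟨ht, fun i => (le_max_right _ _).trans_lt (ht' i)⟩,
      fun i => (le_max_left _ _).trans_lt (ht' i)⟩
  have hm : ∀ t : Fin r → W, ∃ m : ℕ, (∀ i, γ < t i) → ∀ i, ∀ n, m ≤ n →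
      S.f γ n < S.f (t i) n := by
    intro t
    by_cases h : ∀ i, γ < t i
    · have h1 : ∀ᶠ n in atTop, ∀ i, S.f γ n < S.f (t i) n :=
        eventually_all.2 fun i => S.lt _ _ (h i)
      obtain ⟨m, hm⟩ := eventually_atTop.1 h1
      exact ⟨m, fun _ i n hn => hm n hn i⟩
    · exact ⟨0, fun h' => absurd h' h⟩
  choose mt hmt using hm
  obtain ⟨m, hT1⟩ := strong_pigeon hW _ hTγ mt
  obtain ⟨T2, hT2, hT2L, hT2h⟩ := strong_thin S hW _ hT1
  have key : ∃ o : Fin r → Fin r → ℕ, ∀ q : ℕ,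
      ∃ d ∈ (fun (t : Fin r → W) (i : Fin r) => S.f (t i)) '' D0,
      ∃ b ∈ (fun (t : Fin r → W) (i : Fin r) => S.f (t i)) '' T2,
      ∀ i j, osc (d i) (b j) = o i j + (q + 1) := by
    refine leap _ _ ?_ ?_ ?_ ?_ ?_ (S.f γ) m ?_ ?_
    · obtain ⟨t, ht, -⟩ := hT2L (Classical.arbitrary W)
      exact ⟨_, t, ht, rfl⟩
    · rintro _ ⟨t, -, rfl⟩ i
      exact S.mono _
    · rintro _ ⟨t, -, rfl⟩ i
      exact S.mono _
    · rintro _ ⟨t, ht, rfl⟩ M
      obtain ⟨x, hx, e, he⟩ := exists_node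
        {x | ∃ t' ∈ T2, (∀ i, ∀ n < M, S.f (t' i) n = S.f (t i) n) ∧
          x = fun i => S.f (t' i)} (by
        intro g
        obtain ⟨α, hα⟩ := S.unb g
        obtain ⟨t', ⟨h1, h2⟩, h3⟩ := hT2h t ht M α
        have h4 : ∀ᶠ n in atTop, ∀ i, S.f α n < S.f (t' i) n :=
          eventually_all.2 fun i => S.lt _ _ (h3 i)
        have h5 : ∃ᶠ n in atTop, g n < S.f α n := by
          rw [Filter.Frequently]
          intro h5
          exact hα (h5.mono fun n hn => not_lt.1 hn)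
        obtain ⟨n, h6, h7⟩ := (h5.and_eventually h4).exists
        exact ⟨_, ⟨t', h1, h2, rfl⟩, n, fun i => h6.trans (h7 i)⟩)
      obtain ⟨t', h1, h2, rfl⟩ := hx
      refine ⟨_, ⟨t', h1, rfl⟩, e, ?_, fun i => ⟨?_, fun n hn => h2 i n hn⟩⟩
      · intro l
        obtain ⟨a, ⟨t3, h3, -, rfl⟩, h5⟩ := he l
        exact ⟨_, ⟨t3, h3, rfl⟩, h5⟩
      · by_contra hc
        rw [not_le] at hc
        obtain ⟨a, ⟨t3, h3, h4, rfl⟩, h5⟩ := he (S.f (t i) (e i))
        have h6 := (h5 i).2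
        simp only at h6
        rw [h4 i _ hc] at h6
        exact lt_irrefl _ h6
    · rintro _ ⟨t, ht, rfl⟩ L
      obtain ⟨d, hd, hd'⟩ := hD3 t (hT2 ht).1.1 L
      exact ⟨_, ⟨d, hd, rfl⟩, hd'⟩
    · rintro _ ⟨d, hd, rfl⟩ i
      exact S.lt _ _ (hγ (⟨d, hd⟩, i))
    · rintro _ ⟨t, ht, rfl⟩ i n hn
      have h1 := hT2 ht
      exact hmt t h1.1.2 i n (by rw [h1.2]; exact hn)
  obtain ⟨o, ho⟩ := key
  obtain ⟨K, hK⟩ : ∃ K, ∀ i j, o i j ≤ K := by
    refine ⟨Finset.univ.sup fun i => Finset.univ.sup fun j => o i j, fun i j => ?_⟩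
    calc o i j ≤ Finset.univ.sup (fun j => o i j) := Finset.le_sup (f := fun j => o i j)
          (Finset.mem_univ j)
      _ ≤ _ := Finset.le_sup (f := fun i => Finset.univ.sup fun j => o i j) (Finset.mem_univ i)
  have hp1 : K ≤ Nat.pair N K := Nat.right_le_pair N K
  have hp2 : Nat.pair N K < 2 ^ Nat.pair N K := Nat.lt_two_pow_self
  obtain ⟨q, hq⟩ : ∃ q, q + 1 = 2 ^ Nat.pair N K := ⟨2 ^ Nat.pair N K - 1, by omega⟩
  obtain ⟨_, ⟨d, hd, rfl⟩, _, ⟨b, hb, rfl⟩, hdb⟩ := ho q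
  refine ⟨d, hD2 hd, b, (hT2 hb).1.1, fun i j => ⟨?_, ?_⟩⟩
  · exact (hγ (⟨d, hd⟩, i)).trans ((hT2 hb).1.2 j)
  · have h1 := hdb i j
    simp only at h1
    unfold col
    rw [h1, hq]
    have h2 : Nat.log 2 (o i j + 2 ^ Nat.pair N K) = Nat.pair N K := by
      rw [Nat.log_eq_iff (Or.inr ⟨by norm_num, by have := hK i j; omega⟩)]
      have h3 := hK i j
      constructor
      · omega
      · rw [pow_succ]
        omega
    rw [h2, Nat.unpair_pair]

theorem strong_col (S : Scale W) : Strong fun α β => col (S.f α) (S.f β) := by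
  classical
  intro A hA N
  have hW := S.cof
  have : Nonempty W := ⟨(S.unb 0).choose⟩
  -- choose a member beyond every element
  choose a ha ha' using hA
  -- pigeonhole for the cardinality
  have h1 : ∃ r, ∀ α, ∃ β, α ≤ β ∧ (a β).card = r := by
    by_contra hc
    push Not at hc
    choose α hα using hc
    obtain ⟨β, hβ⟩ := hW α
    exact hα (a β).card β (hβ _).le rfl
  obtain ⟨r, hr⟩ := h1
  obtain ⟨t, ht, t', ht', h⟩ := strong_tuples S
    (T := {t : Fin r → W | Finset.univ.image t ∈ A}) (by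
      intro α
      obtain ⟨β, hβ, hβ'⟩ := hr α
      refine ⟨fun i => (a β).orderEmbOfFin hβ' i, ?_, fun i => ?_⟩
      · have h2 : Finset.univ.image (fun i => (a β).orderEmbOfFin hβ' i) = a β := by
          rw [Finset.image_orderEmbOfFin_univ]
        change Finset.univ.image (fun i => (a β).orderEmbOfFin hβ' i) ∈ A
        rw [h2]
        exact ha β
      · exact hβ.trans_lt (ha' β _ (Finset.orderEmbOfFin_mem _ _ _))) N
  refine ⟨_, ht, _, ht', fun x hx y hy => ?_⟩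
  obtain ⟨i, -, rfl⟩ := Finset.mem_image.1 hx
  obtain ⟨j, -, rfl⟩ := Finset.mem_image.1 hy
  exact h i j

end

end Pool.Agent.ZM
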