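import Pool.Agent.Lib.MP_ff2384_gt.Defs

set_option autoImplicit false

open Filter Topology

noncomputable section

namespace Pool.Agent.ZM

section
variable {W : Type} {k : ℕ}

theorem sup_mul (g h : Mk W k) : sup (g * h) ⊆ sup g ∪ sup h := by
  intro δ hδ
  by_contra hc
  rw [Set.mem_union, not_or] at hc
  have h1 : retq k δ g = g := by
    by_contra h1
    exact hc.1 h1
  have h2 : retq k δ h = h := by
    by_contra h2
    exact hc.2 h2
  apply hδ
  rw [map_mul, h1, h2]

theorem sup_inv (g : Mk W k) : sup g⁻¹ = sup g := by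
  ext δ
  change retq k δ g⁻¹ ≠ g⁻¹ ↔ retq k δ g ≠ g
  rw [map_inv, ne_eq, ne_eq, inv_inj]

theorem sup_one : sup (1 : Mk W k) = ∅ := by
  ext δ
  change retq k δ 1 ≠ 1 ↔ δ ∈ (∅ : Set W)
  rw [map_one]
  simp

theorem supp_ret_of (δ x : W) (h : x ≠ δ) : ret δ (FreeGroup.of x) = FreeGroup.of x := by
  unfold ret
  rw [FreeGroup.lift_apply_of, if_neg h]

theorem supp_ret_self (δ : W) : ret δ (FreeGroup.of δ) = 1 := by
  unfold ret
  rw [FreeGroup.lift_apply_of, if_pos rfl]

theorem supp_retq_mk (δ : W) (w : FreeGroup W) :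
    retq k δ (w : Mk W k) = ((ret δ w : FreeGroup W) : Mk W k) := rfl

theorem sup_of (x : W) : sup ((FreeGroup.of x : FreeGroup W) : Mk W k) ⊆ {x} := by
  intro δ hδ
  by_contra hc
  apply hδ
  rw [supp_retq_mk, supp_ret_of]
  exact fun h => hc h.symm

theorem sup_finite (g : Mk W k) : (sup g).Finite := by
  obtain ⟨w, rfl⟩ := QuotientGroup.mk_surjective g
  induction w using FreeGroup.induction_on with
  | C1 =>
    rw [QuotientGroup.mk_one, sup_one]
    exact Set.finite_empty
  | of x => exact (Set.finite_singleton x).subset (sup_of x)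
  | inv_of x _ =>
    rw [QuotientGroup.mk_inv, sup_inv]
    exact (Set.finite_singleton x).subset (sup_of x)
  | mul x y hx hy =>
    rw [QuotientGroup.mk_mul]
    exact (hx.union hy).subset (sup_mul _ _)

/-- Kill a list of generators. -/
def supp_kill : List W → (FreeGroup W →* FreeGroup W)
  | [] => MonoidHom.id _
  | δ :: l => (ret δ).comp (supp_kill l)

theorem supp_kill_of (l : List W) (x : W) (h : x ∈ l) : supp_kill l (FreeGroup.of x) = 1 := by
  induction l with
  | nil => simp at h
  | cons δ l ih =>
    change ret δ (supp_kill l (FreeGroup.of x)) = 1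
    by_cases hx : x ∈ l
    · rw [ih hx, map_one]
    · have h1 : ∀ l' : List W, x ∉ l' → supp_kill l' (FreeGroup.of x) = FreeGroup.of x := by
        intro l'
        induction l' with
        | nil => intro _; rfl
        | cons δ' l' ih' =>
          intro hx'
          rw [List.mem_cons, not_or] at hx'
          change ret δ' (supp_kill l' (FreeGroup.of x)) = _
          rw [ih' hx'.2, supp_ret_of _ _ hx'.1]
      rw [h1 l hx]
      rcases List.mem_cons.1 h with h2 | h2
      · rw [h2, supp_ret_self]
      · exact absurd h2 hx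

theorem supp_kill_exists (w : FreeGroup W) :
    ∃ l : List W, ∀ l' : List W, l ⊆ l' → supp_kill l' w = 1 := by
  induction w using FreeGroup.induction_on with
  | C1 => exact ⟨[], fun l' _ => map_one _⟩
  | of x => exact ⟨[x], fun l' h => supp_kill_of l' x (h (List.mem_singleton.2 rfl))⟩
  | inv_of x _ =>
    exact ⟨[x], fun l' h => by
      rw [map_inv, supp_kill_of l' x (h (List.mem_singleton.2 rfl)), inv_one]⟩
  | mul x y hx hy =>
    obtain ⟨l1, h1⟩ := hx
    obtain ⟨l2, h2⟩ := hy
    refine ⟨l1 ++ l2, fun l' h => ?_⟩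
    rw [map_mul, h1 l' fun z hz => h (List.mem_append_left _ hz),
      h2 l' fun z hz => h (List.mem_append_right _ hz), mul_one]

theorem eq_one_of_sup (g : Mk W k) (h : sup g = ∅) : g = 1 := by
  obtain ⟨w, rfl⟩ := QuotientGroup.mk_surjective g
  have h1 : ∀ l : List W, ((supp_kill l w : FreeGroup W) : Mk W k) = (w : Mk W k) := by
    intro l
    induction l with
    | nil => rfl
    | cons δ l ih =>
      change ((ret δ (supp_kill l w) : FreeGroup W) : Mk W k) = _
      rw [← supp_retq_mk, ih]
      by_contra hc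
      have h2 : δ ∈ sup (w : Mk W k) := hc
      rw [h] at h2
      exact h2
  obtain ⟨l, hl⟩ := supp_kill_exists w
  have h2 := h1 l
  rw [hl l (List.Subset.refl l)] at h2
  exact h2.symm

end

end Pool.Agent.ZM
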